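import Mathlib

open Filter Topology

set_option linter.unusedSectionVars false

namespace Pool.Agent.U559.Itp

/-- truncation to levels `< n` -/
def tr {I : Type} {E : I → Type} [∀ i, Zero (E i)] (lev : I → ℕ) (n : ℕ) (x : ∀ i, E i) :
    ∀ i, E i :=
  fun i => if lev i < n then x i else 0

/-- The data for the interpolation construction. -/
structure Sys (𝕜 : Type) [RCLike 𝕜] {I : Type} [DecidableEq I] (E : I → Type)
    [∀ i, NormedAddCommGroup (E i)] [∀ i, NormedSpace 𝕜 (E i)] where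
  lev : I → ℕ
  finlev : ∀ n, {i | lev i < n}.Finite
  VB : (∀ i, E i) → ℝ → Prop
  Psi : ℕ → ℝ
  Psi0 : Psi 0 = 1
  PsiS : ∀ j, 2 ^ (j + 1) * Psi j ≤ Psi (j + 1)
  mono : ∀ {s C C'}, VB s C → C ≤ C' → VB s C'
  zero : VB 0 0
  add : ∀ {s s' C C'}, VB s C → VB s' C' → VB (s + s') (C + C')
  smul : ∀ {s C} (c : 𝕜), VB s C → VB (c • s) (‖c‖ * C)
  bdd : ∀ {s C}, VB s C → ∀ i, ‖s i‖ ≤ C
  trunc : ∀ {s C} n, VB s C → VB (tr lev n s) C
  single : ∀ i (x : E i), VB (Pi.single i x) (2 * ‖x‖)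
  closed : ∀ {s : ℕ → ∀ i, E i} {z : ∀ i, E i} {C},
    (∀ i, Tendsto (fun k => s k i) (hyperfilter ℕ : Filter ℕ) (𝓝 (z i))) →
      (∀ k, VB (s k) C) → VB z C

variable {𝕜 : Type} [RCLike 𝕜] {I : Type} [DecidableEq I] {E : I → Type}
    [∀ i, NormedAddCommGroup (E i)] [∀ i, NormedSpace 𝕜 (E i)]

namespace Sys

variable (S : Sys 𝕜 E)

lemma Psi_ge (j : ℕ) : (2 : ℝ) ^ j ≤ S.Psi j := by
  induction j with
  | zero => simp [S.Psi0]
  | succ j ih =>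
    refine le_trans ?_ (S.PsiS j)
    have h1 : (1:ℝ) ≤ 2 ^ j := one_le_pow₀ (by norm_num)
    have : (1:ℝ) ≤ S.Psi j := h1.trans ih
    nlinarith [pow_pos (show (0:ℝ) < 2 by norm_num) (j+1)]

lemma one_le_Psi (j : ℕ) : (1 : ℝ) ≤ S.Psi j :=
  (one_le_pow₀ (by norm_num)).trans (S.Psi_ge j)

lemma Psi_pos (j : ℕ) : (0 : ℝ) < S.Psi j := lt_of_lt_of_le one_pos (S.one_le_Psi j)

/-- `x` can be represented at scale `j` with constant `t`. -/
def R (j : ℕ) (t : ℝ) (x : ∀ i, E i) : Prop :=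
  ∃ s, S.VB s (t * S.Psi j) ∧ ∀ i, ‖x i - s i‖ ≤ t * (1 / 2) ^ j

/-- the gauge at scale `j` -/
noncomputable def N (j : ℕ) (x : ∀ i, E i) : ℝ := sInf {t | 0 ≤ t ∧ S.R j t x}

/-- bounded functions -/
def Adm (x : ∀ i, E i) : Prop := ∃ C, ∀ i, ‖x i‖ ≤ C

lemma zero' {C : ℝ} (hC : 0 ≤ C) : S.VB 0 C := S.mono S.zero hC

lemma R.mono {S : Sys 𝕜 E} {j : ℕ} {t t' : ℝ} {x : ∀ i, E i} (h : S.R j t x) (htt : t ≤ t') :
    S.R j t' x := by
  obtain ⟨s, h1, h2⟩ := h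
  refine ⟨s, S.mono h1 ?_, fun i => (h2 i).trans ?_⟩
  · exact mul_le_mul_of_nonneg_right htt (S.Psi_pos j).le
  · exact mul_le_mul_of_nonneg_right htt (by positivity)

lemma R_of_bdd {x : ∀ i, E i} {C : ℝ} (hC : 0 ≤ C) (h : ∀ i, ‖x i‖ ≤ C) (j : ℕ) :
    S.R j (2 ^ j * C) x := by
  refine ⟨0, S.zero' (by have := S.Psi_pos j; positivity), fun i => ?_⟩
  have : (2:ℝ) ^ j * C * (1 / 2) ^ j = C := by
    rw [mul_right_comm, ← mul_pow]; norm_num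
  rw [this]
  simpa using h i

lemma N_nonneg (j : ℕ) (x : ∀ i, E i) : 0 ≤ S.N j x :=
  Real.sInf_nonneg fun _ ht => ht.1

lemma N_le_of_R {j : ℕ} {t : ℝ} {x : ∀ i, E i} (ht : 0 ≤ t) (h : S.R j t x) : S.N j x ≤ t :=
  csInf_le ⟨0, fun _ ht => ht.1⟩ ⟨ht, h⟩

lemma Adm.exists_R {S : Sys 𝕜 E} {x : ∀ i, E i} (h : Adm x) (j : ℕ) : ∃ t, 0 ≤ t ∧ S.R j t x := by
  obtain ⟨C, hC⟩ := h
  refine ⟨2 ^ j * max C 0, by positivity, S.R_of_bdd (by positivity) (fun i => (hC i).trans ?_) j⟩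
  exact le_max_left _ _

lemma R_of_lt {j : ℕ} {t : ℝ} {x : ∀ i, E i} (hx : Adm x) (h : S.N j x < t) : S.R j t x := by
  obtain ⟨u, hu, hut⟩ := exists_lt_of_csInf_lt (hx.exists_R j) h
  exact hu.2.mono hut.le

lemma N_le_of_forall {j : ℕ} {t : ℝ} {x : ∀ i, E i} (ht : 0 ≤ t)
    (h : ∀ u, t < u → S.R j u x) : S.N j x ≤ t := by
  refine le_of_forall_gt_imp_ge_of_dense fun u hu => ?_
  exact S.N_le_of_R (ht.trans hu.le) (h u hu)

lemma Adm.add {x y : ∀ i, E i} (hx : Adm x) (hy : Adm y) : Adm (x + y) := by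
  obtain ⟨C, hC⟩ := hx
  obtain ⟨D, hD⟩ := hy
  exact ⟨C + D, fun i => (norm_add_le _ _).trans (add_le_add (hC i) (hD i))⟩

lemma Adm.smul {x : ∀ i, E i} (c : 𝕜) (hx : Adm x) : Adm (c • x) := by
  obtain ⟨C, hC⟩ := hx
  refine ⟨‖c‖ * C, fun i => ?_⟩
  rw [Pi.smul_apply, norm_smul]
  exact mul_le_mul_of_nonneg_left (hC i) (norm_nonneg _)

lemma Adm.zero : Adm (0 : ∀ i, E i) := ⟨0, fun i => by simp⟩

lemma Adm.tr {x : ∀ i, E i} (hx : Adm x) (lev : I → ℕ) (n : ℕ) : Adm (tr lev n x) := by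
  obtain ⟨C, hC⟩ := hx
  refine ⟨max C 0, fun i => ?_⟩
  unfold Itp.tr
  split_ifs
  · exact (hC i).trans (le_max_left _ _)
  · simp

lemma R.add {S : Sys 𝕜 E} {j : ℕ} {t u : ℝ} {x y : ∀ i, E i} (hx : S.R j t x) (hy : S.R j u y) :
    S.R j (t + u) (x + y) := by
  obtain ⟨s, h1, h2⟩ := hx
  obtain ⟨s', h1', h2'⟩ := hy
  refine ⟨s + s', ?_, fun i => ?_⟩
  · rw [add_mul]; exact S.add h1 h1'
  · rw [add_mul, Pi.add_apply, Pi.add_apply, add_sub_add_comm]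
    exact (norm_add_le _ _).trans (add_le_add (h2 i) (h2' i))

lemma R.smul {S : Sys 𝕜 E} {j : ℕ} {t : ℝ} {x : ∀ i, E i} (c : 𝕜) (hx : S.R j t x) :
    S.R j (‖c‖ * t) (c • x) := by
  obtain ⟨s, h1, h2⟩ := hx
  refine ⟨c • s, ?_, fun i => ?_⟩
  · rw [mul_assoc]; exact S.smul c h1
  · rw [Pi.smul_apply, Pi.smul_apply, ← smul_sub, norm_smul, mul_assoc]
    exact mul_le_mul_of_nonneg_left (h2 i) (norm_nonneg _)

lemma R.tr {S : Sys 𝕜 E} {j : ℕ} {t : ℝ} {x : ∀ i, E i} (n : ℕ) (ht : 0 ≤ t) (hx : S.R j t x) :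
    S.R j t (tr S.lev n x) := by
  obtain ⟨s, h1, h2⟩ := hx
  refine ⟨Itp.tr S.lev n s, S.trunc n h1, fun i => ?_⟩
  unfold Itp.tr
  split_ifs
  · exact h2 i
  · simp; positivity

lemma N_add {j : ℕ} {x y : ∀ i, E i} (hx : Adm x) (hy : Adm y) :
    S.N j (x + y) ≤ S.N j x + S.N j y := by
  refine S.N_le_of_forall (add_nonneg (S.N_nonneg _ _) (S.N_nonneg _ _)) fun u hu => ?_
  obtain ⟨e, he, rfl⟩ : ∃ e, 0 < e ∧ u = (S.N j x + e) + (S.N j y + e) :=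
    ⟨(u - (S.N j x + S.N j y)) / 2, by linarith, by ring⟩
  exact (S.R_of_lt hx (by linarith)).add (S.R_of_lt hy (by linarith))

lemma N_smul_le {j : ℕ} {x : ∀ i, E i} (c : 𝕜) (hx : Adm x) :
    S.N j (c • x) ≤ ‖c‖ * S.N j x := by
  refine S.N_le_of_forall (mul_nonneg (norm_nonneg _) (S.N_nonneg _ _)) fun u hu => ?_
  rcases eq_or_ne c 0 with rfl | hc
  · have := (S.R_of_lt hx (lt_add_one (S.N j x))).smul (0 : 𝕜)
    refine this.mono ?_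
    simp at hu ⊢
    exact hu.le
  · have hc' : 0 < ‖c‖ := norm_pos_iff.mpr hc
    have : S.N j x < u / ‖c‖ := by rwa [lt_div_iff₀ hc', mul_comm]
    have h2 := (S.R_of_lt hx this).smul c
    rwa [mul_div_cancel₀ _ hc'.ne'] at h2

lemma N_smul {j : ℕ} {x : ∀ i, E i} (c : 𝕜) (hx : Adm x) :
    S.N j (c • x) = ‖c‖ * S.N j x := by
  refine le_antisymm (S.N_smul_le c hx) ?_
  rcases eq_or_ne c 0 with rfl | hc
  · simp [S.N_nonneg]
  · have hc' : 0 < ‖c‖ := norm_pos_iff.mpr hc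
    have h := S.N_smul_le (j := j) c⁻¹ (hx.smul c)
    rw [smul_smul, inv_mul_cancel₀ hc, one_smul, norm_inv] at h
    rw [← div_eq_inv_mul, le_div_iff₀ hc'] at h
    linarith

lemma N_zero (j : ℕ) : S.N j (0 : ∀ i, E i) = 0 := by
  refine le_antisymm (S.N_le_of_R le_rfl ?_) (S.N_nonneg _ _)
  exact ⟨0, by simpa using S.zero, fun i => by simp⟩

lemma N_neg (j : ℕ) {x : ∀ i, E i} (hx : Adm x) : S.N j (-x) = S.N j x := by
  have := S.N_smul (j := j) (-1 : 𝕜) hx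
  simpa using this

lemma N_le_sup {x : ∀ i, E i} {C : ℝ} (hC : 0 ≤ C) (h : ∀ i, ‖x i‖ ≤ C) (j : ℕ) :
    S.N j x ≤ 2 ^ j * C :=
  S.N_le_of_R (by positivity) (S.R_of_bdd hC h j)

lemma R.sup_le {S : Sys 𝕜 E} {j : ℕ} {t : ℝ} {x : ∀ i, E i} (h : S.R j t x) (i : I) :
    ‖x i‖ ≤ t * S.Psi j + t * (1 / 2) ^ j := by
  obtain ⟨s, h1, h2⟩ := h
  calc ‖x i‖ = ‖s i + (x i - s i)‖ := by congr 1; abel
    _ ≤ ‖s i‖ + ‖x i - s i‖ := norm_add_le _ _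
    _ ≤ _ := add_le_add (S.bdd h1 i) (h2 i)

lemma sup_le {x : ∀ i, E i} (hx : Adm x) (i : I) : ‖x i‖ ≤ 2 * S.N 0 x := by
  refine le_of_forall_pos_le_add fun e he => ?_
  have h := (S.R_of_lt (j := 0) hx (show S.N 0 x < S.N 0 x + e / 2 by linarith)).sup_le i
  simp only [S.Psi0, mul_one, pow_zero] at h
  linarith

lemma N_tr {j : ℕ} {x : ∀ i, E i} (hx : Adm x) (n : ℕ) : S.N j (tr S.lev n x) ≤ S.N j x := by
  refine S.N_le_of_forall (S.N_nonneg _ _) fun u hu => ?_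
  exact (S.R_of_lt hx hu).tr n ((S.N_nonneg _ _).trans hu.le)

lemma N_VB {j : ℕ} {s : ∀ i, E i} {C : ℝ} (hC : 0 ≤ C) (h : S.VB s C) : S.N j s ≤ C / S.Psi j := by
  refine S.N_le_of_R (div_nonneg hC (S.Psi_pos j).le) ⟨s, ?_, fun i => ?_⟩
  · rwa [div_mul_cancel₀ _ (S.Psi_pos j).ne']
  · have := S.Psi_pos j
    simp only [sub_self, norm_zero]
    positivity

/-- eventual version of closedness -/
lemma closed' {s : ℕ → ∀ i, E i} {z : ∀ i, E i} {C : ℝ}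
    (h : ∀ i, Tendsto (fun k => s k i) (hyperfilter ℕ : Filter ℕ) (𝓝 (z i)))
    (h2 : ∀ᶠ k in (hyperfilter ℕ : Filter ℕ), S.VB (s k) C) : S.VB z C := by
  classical
  obtain ⟨k0, hk0⟩ := h2.exists
  refine S.closed (s := fun k => if S.VB (s k) C then s k else s k0) (fun i => ?_) (fun k => ?_)
  · refine (h i).congr' ?_
    filter_upwards [h2] with k hk
    simp [hk]
  · split_ifs with hk
    · exact hk
    · exact hk0

end Sys

section lims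

variable [∀ i, FiniteDimensional 𝕜 (E i)]

/-- bounded sequences have coordinatewise ultralimits -/
lemma exists_ulim (𝕜 : Type) [RCLike 𝕜] {F : Type} [NormedAddCommGroup F] [NormedSpace 𝕜 F]
    [FiniteDimensional 𝕜 F] {x : ℕ → F} {C : ℝ}
    (h : ∀ᶠ k in (hyperfilter ℕ : Filter ℕ), ‖x k‖ ≤ C) :
    ∃ z, ‖z‖ ≤ C ∧ Tendsto x (hyperfilter ℕ : Filter ℕ) (𝓝 z) := by
  have : ProperSpace F := FiniteDimensional.proper 𝕜 F
  have hc : IsCompact (Metric.closedBall (0 : F) C) := isCompact_closedBall _ _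
  have hle : ((hyperfilter ℕ).map x : Filter F) ≤ 𝓟 (Metric.closedBall (0 : F) C) := by
    rw [le_principal_iff]
    change ∀ᶠ k in (hyperfilter ℕ : Filter ℕ), x k ∈ _
    filter_upwards [h] with k hk
    simpa using hk
  obtain ⟨z, hz, hz2⟩ := hc.ultrafilter_le_nhds _ hle
  exact ⟨z, by simpa using hz, hz2⟩

namespace Sys
variable (S : Sys 𝕜 E)

lemma R_closed {j : ℕ} {t : ℝ} {x : ℕ → ∀ i, E i} {z : ∀ i, E i}
    (h : ∀ i, Tendsto (fun k => x k i) (hyperfilter ℕ : Filter ℕ) (𝓝 (z i)))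
    (hR : ∀ᶠ k in (hyperfilter ℕ : Filter ℕ), S.R j t (x k)) : S.R j t z := by
  classical
  choose! s hs1 hs2 using fun k (hk : S.R j t (x k)) => hk
  have hb : ∀ i, ∀ᶠ k in (hyperfilter ℕ : Filter ℕ), ‖s k i‖ ≤ t * S.Psi j := by
    intro i
    filter_upwards [hR] with k hk
    exact S.bdd (hs1 k hk) i
  choose w hw1 hw2 using fun i => exists_ulim 𝕜 (hb i)
  refine ⟨w, S.closed' hw2 ?_, fun i => ?_⟩
  · filter_upwards [hR] with k hk
    exact hs1 k hk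
  · have := ((h i).sub (hw2 i)).norm
    refine le_of_tendsto this ?_
    filter_upwards [hR] with k hk
    exact hs2 k hk i

lemma N_closed {j : ℕ} {t : ℝ} (ht : 0 ≤ t) {x : ℕ → ∀ i, E i} {z : ∀ i, E i}
    (hx : ∀ k, Adm (x k))
    (h : ∀ i, Tendsto (fun k => x k i) (hyperfilter ℕ : Filter ℕ) (𝓝 (z i)))
    (hN : ∀ u, t < u → ∀ᶠ k in (hyperfilter ℕ : Filter ℕ), S.N j (x k) < u) : S.N j z ≤ t := by
  refine S.N_le_of_forall ht fun u hu => S.R_closed h ?_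
  filter_upwards [hN u hu] with k hk
  exact S.R_of_lt (hx k) hk

end Sys
end lims

end Pool.Agent.U559.Itp
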