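import Pool.Agent.U559.Itp.Space

open Filter Topology

set_option linter.unusedSectionVars false

namespace Pool.Agent.U559.Itp

variable {𝕜 : Type} [RCLike 𝕜] {I : Type} [DecidableEq I] {E : I → Type}
    [∀ i, NormedAddCommGroup (E i)] [∀ i, NormedSpace 𝕜 (E i)]

namespace Sys

variable (S : Sys 𝕜 E)

/-- quantitative dominated convergence -/
lemma small_of_sup {b : ℕ → ℝ} (hb : Summable fun j => b j ^ 2) {ε : ℝ} (hε : 0 < ε) :
    ∃ δ > 0, ∀ z : S.X, (∀ j, S.N j (S.val z) ≤ b j) → (∀ i, ‖S.val z i‖ ≤ δ) → ‖z‖ ≤ ε := by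
  have h1 := tendsto_sum_nat_add (fun j => b j ^ 2)
  obtain ⟨L, hL⟩ := (h1.eventually_lt_const (show (0:ℝ) < ε ^ 2 / 2 by positivity)).exists
  set A : ℝ := ∑ j ∈ Finset.range L, (4:ℝ) ^ j with hA
  have hA0 : 0 ≤ A := Finset.sum_nonneg fun j _ => by positivity
  refine ⟨ε / (2 * (A + 1)), by positivity, fun z hz1 hz2 => ?_⟩
  set δ := ε / (2 * (A + 1)) with hδ
  have hδ0 : 0 < δ := by positivity
  refine le_of_sq_le_sq ?_ hε.le
  rw [S.norm_sq, ← (S.summ z).sum_add_tsum_nat_add L]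
  have h2 : ∑ j ∈ Finset.range L, S.N j (S.val z) ^ 2 ≤ δ ^ 2 * A := by
    rw [hA, Finset.mul_sum]
    refine Finset.sum_le_sum fun j _ => ?_
    have := S.N_le_sup hδ0.le hz2 j
    calc S.N j (S.val z) ^ 2 ≤ (2 ^ j * δ) ^ 2 := pow_le_pow_left₀ (S.N_nonneg _ _) this 2
      _ = δ ^ 2 * 4 ^ j := by rw [mul_pow, ← pow_mul, mul_comm j 2, pow_mul]; norm_num; ring
  have h3 : ∑' j, S.N (j + L) (S.val z) ^ 2 ≤ ∑' j, b (j + L) ^ 2 := by
    refine Summable.tsum_le_tsum (fun j => ?_) ((summable_nat_add_iff L).mpr (S.summ z))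
      ((summable_nat_add_iff L).mpr hb)
    exact pow_le_pow_left₀ (S.N_nonneg _ _) (hz1 _) 2
  have h4 : δ ^ 2 * A ≤ ε ^ 2 / 4 := by
    have : δ * (2 * (A + 1)) = ε := by rw [hδ]; field_simp
    rw [← this]
    have : A ≤ (A + 1) ^ 2 := by nlinarith
    nlinarith [sq_nonneg δ, mul_le_mul_of_nonneg_left this (sq_nonneg δ)]
  have : 0 < ε ^ 2 := by positivity
  linarith

/-- coordinate inclusion -/
noncomputable def sgl (i : I) : E i →L[𝕜] S.X :=
  LinearMap.mkContinuous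
    { toFun := fun x => (⟨Pi.single i x, by
        obtain ⟨w, hw, -⟩ := S.exists_mk_VB (by positivity) (S.single i x)
        rw [← hw]; exact w.2⟩ : ↥S.Sp)
      map_add' := fun x y => by
        apply S.val_inj
        exact Pi.single_add i x y
      map_smul' := fun c x => by
        apply S.val_inj
        exact Pi.single_smul i c x } 4 (fun x => by
          obtain ⟨w, hw, hw2⟩ := S.exists_mk_VB (by positivity) (S.single i x)
          have h3 : w = (⟨Pi.single i x, by rw [← hw]; exact w.2⟩ : ↥S.Sp) := S.val_inj hw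
          refine le_of_eq_of_le (congrArg (norm (E := S.X)) h3.symm) ?_
          linarith)

lemma val_sgl (i : I) (x : E i) : S.val (S.sgl i x) = Pi.single i x := rfl

lemma sgl_norm (i : I) (x : E i) : ‖S.sgl i x‖ ≤ 4 * ‖x‖ := by
  refine (ContinuousLinearMap.le_opNorm _ _).trans ?_
  exact mul_le_mul_of_nonneg_right (LinearMap.mkContinuous_norm_le _ (by norm_num) _)
    (norm_nonneg _)

lemma tau_eq_sum (n : ℕ) (x : S.X) :
    S.tau n x = ∑ i ∈ (S.finlev n).toFinset, S.sgl i (S.val x i) := by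
  apply S.val_inj
  rw [map_sum]
  funext k
  rw [Finset.sum_apply]
  simp only [val_sgl]
  by_cases hk : S.lev k < n
  · rw [S.val_tau_lt hk, Finset.sum_eq_single k]
    · simp
    · intro b _ hb
      exact Pi.single_eq_of_ne hb.symm _
    · intro h
      exact absurd (by simpa using hk) h
  · rw [S.val_tau_ge (not_lt.mp hk)]
    symm
    refine Finset.sum_eq_zero fun i hi => ?_
    refine Pi.single_eq_of_ne ?_ _
    rintro rfl
    exact hk (by simpa using hi)

lemma tau_tendsto {l : Filter ℕ} {x : ℕ → S.X} {w : S.X} (n : ℕ)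
    (h : ∀ i, Tendsto (fun k => S.val (x k) i) l (𝓝 (S.val w i))) :
    Tendsto (fun k => S.tau n (x k)) l (𝓝 (S.tau n w)) := by
  simp only [tau_eq_sum]
  exact tendsto_finsetSum _ fun i _ => ((S.sgl i).continuous.tendsto _).comp (h i)

/-- closure of the finitely supported elements -/
def X0 : Submodule 𝕜 S.X where
  carrier := {x | Tendsto (fun n => S.tau n x) atTop (𝓝 x)}
  add_mem' := by
    intro x y hx hy
    simp only [Set.mem_ofPred_eq, map_add] at *
    exact hx.add hy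
  zero_mem' := by simp
  smul_mem' := by
    intro c x hx
    simp only [Set.mem_ofPred_eq, map_smul] at *
    exact hx.const_smul c

lemma mem_X0 {x : S.X} : x ∈ S.X0 ↔ Tendsto (fun n => S.tau n x) atTop (𝓝 x) := Iff.rfl

lemma tau_mem (n : ℕ) (x : S.X) : S.tau n x ∈ S.X0 := by
  rw [mem_X0]
  refine tendsto_const_nhds.congr' ?_
  filter_upwards [eventually_ge_atTop n] with m hm
  rw [S.tau_tau, min_eq_right hm]

lemma X0_closed : IsClosed (S.X0 : Set S.X) := by
  rw [← isSeqClosed_iff_isClosed]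
  intro x y hx hxy
  change Tendsto (fun n => S.tau n y) atTop (𝓝 y)
  rw [Metric.tendsto_atTop]
  intro ε hε
  obtain ⟨k, hk⟩ := (Metric.tendsto_atTop.mp hxy (ε / 3) (by positivity))
  have hk := hk k le_rfl
  obtain ⟨n0, hn0⟩ := (Metric.tendsto_atTop.mp (hx k) (ε / 3) (by positivity))
  refine ⟨n0, fun n hn => ?_⟩
  have h1 := hn0 n hn
  have h2 : ‖S.tau n (y - x k)‖ ≤ ‖y - x k‖ := S.tau_norm n _
  rw [dist_eq_norm] at *
  have h3 : S.tau n y - y = S.tau n (y - x k) + (S.tau n (x k) - x k) + (x k - y) := by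
    rw [map_sub]; abel
  rw [h3]
  have h4 : ‖y - x k‖ = ‖x k - y‖ := norm_sub_rev _ _
  calc _ ≤ ‖S.tau n (y - x k)‖ + ‖S.tau n (x k) - x k‖ + ‖x k - y‖ :=
        (norm_add_le _ _).trans (add_le_add_left (norm_add_le _ _) _)
    _ < ε := by linarith

lemma mem_X0_of_small {x : S.X} (h : ∀ ε > 0, ∃ n, ∀ i, n ≤ S.lev i → ‖S.val x i‖ ≤ ε) :
    x ∈ S.X0 := by
  rw [mem_X0, Metric.tendsto_atTop]
  intro ε hε
  obtain ⟨δ, hδ, hδ2⟩ := S.small_of_sup (b := fun j => 2 * S.N j (S.val x))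
    (by simpa only [mul_pow] using (S.summ x).mul_left (2 ^ 2)) (half_pos hε)
  obtain ⟨n0, hn0⟩ := h δ hδ
  refine ⟨n0, fun n hn => ?_⟩
  rw [dist_eq_norm]
  refine lt_of_le_of_lt (hδ2 _ (fun j => ?_) fun i => ?_) (half_lt_self hε)
  · rw [map_sub, sub_eq_add_neg]
    have h1 := S.N_add (j := j) (S.adm (S.tau n x)) (S.adm (-x))
    rw [map_neg, S.N_neg j (S.adm x)] at h1
    have h2 := S.N_tr (j := j) (S.adm x) n
    rw [← val_tau] at h2
    linarith
  · rw [map_sub, Pi.sub_apply]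
    by_cases hi : S.lev i < n
    · rw [S.val_tau_lt hi]; simp [hδ.le]
    · rw [S.val_tau_ge (not_lt.mp hi), zero_sub, norm_neg]
      exact hn0 i (hn.trans (not_lt.mp hi))

lemma small_of_mem_X0 {x : S.X} (hx : x ∈ S.X0) {ε : ℝ} (hε : 0 < ε) :
    ∃ n, ∀ i, n ≤ S.lev i → ‖S.val x i‖ ≤ ε := by
  obtain ⟨n, hn⟩ := Metric.tendsto_atTop.mp hx (ε / 2) (by positivity)
  refine ⟨n, fun i hi => ?_⟩
  have h1 := hn n le_rfl
  rw [dist_eq_norm] at h1
  have h2 := S.coord_le (S.tau n x - x) i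
  rw [map_sub, Pi.sub_apply, S.val_tau_ge hi, zero_sub, norm_neg] at h2
  linarith

/-- truncation into `X0` -/
noncomputable def tau0 (n : ℕ) : S.X →L[𝕜] ↥S.X0 := (S.tau n).codRestrict S.X0 (S.tau_mem n)

lemma tau0_coe (n : ℕ) (x : S.X) : ((S.tau0 n x : ↥S.X0) : S.X) = S.tau n x := rfl

lemma tau0_norm (n : ℕ) (x : S.X) : ‖S.tau0 n x‖ ≤ ‖x‖ := S.tau_norm n x

lemma tau0_tendsto (x : ↥S.X0) : Tendsto (fun n => S.tau0 n (x : S.X)) atTop (𝓝 x) := by
  rw [tendsto_subtype_rng]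
  exact x.2

/-! ### Blocks -/

/-- block sum of functions -/
noncomputable def blk (m m' : ℕ → ℕ) (c : ℕ → 𝕜) (u : ℕ → ∀ i, E i) (K : ℕ) : ∀ i, E i :=
  ∑ k ∈ Finset.range K, c k • (tr S.lev (m' k) (u k) - tr S.lev (m k) (u k))

lemma blk_succ (m m' : ℕ → ℕ) (c : ℕ → 𝕜) (u : ℕ → ∀ i, E i) (K : ℕ) :
    S.blk m m' c u (K + 1) = S.blk m m' c u K +
      c K • (tr S.lev (m' K) (u K) - tr S.lev (m K) (u K)) := Finset.sum_range_succ _ _

variable {m m' : ℕ → ℕ} (hm : ∀ k, m k ≤ m' k) (hm' : ∀ k, m' k ≤ m (k + 1)) {c : ℕ → 𝕜}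
  (hc : ∀ k, ‖c k‖ ≤ 1)

include hm hm' hc

lemma blk_sup {u : ℕ → ∀ i, E i} {D : ℝ} (hD : 0 ≤ D) (K : ℕ)
    (hu : ∀ k < K, ∀ i, ‖u k i‖ ≤ D) : ∀ i, ‖S.blk m m' c u K i‖ ≤ D := by
  have key : ∀ i, ((m K ≤ S.lev i → S.blk m m' c u K i = 0) ∧ ‖S.blk m m' c u K i‖ ≤ D) := by
    induction K with
    | zero => intro i; simp [blk, hD]
    | succ K ih =>
      intro i
      obtain ⟨ih1, ih2⟩ := ih (fun k hk => hu k (hk.trans (Nat.lt_succ_self _))) i
      rw [blk_succ, Pi.add_apply, Pi.smul_apply, Pi.sub_apply]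
      unfold tr
      constructor
      · intro h
        have h1 := (hm' K).trans h
        have h2 := (hm K).trans h1
        rw [ih1 h2, if_neg (not_lt.mpr h1), if_neg (not_lt.mpr h2)]
        simp
      · by_cases h : S.lev i < m K
        · rw [if_pos (lt_of_lt_of_le h (hm K)), if_pos h]
          simpa using ih2
        · rw [ih1 (not_lt.mp h), if_neg h, zero_add, sub_zero, norm_smul]
          split_ifs
          · calc ‖c K‖ * ‖u K i‖ ≤ 1 * D :=
                  mul_le_mul (hc K) (hu K (Nat.lt_succ_self _) i) (norm_nonneg _) zero_le_one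
              _ = D := one_mul D
          · simpa using hD
  exact fun i => (key i).2

omit hm hm' in
lemma blk_VB {u : ℕ → ∀ i, E i} {C : ℕ → ℝ} (hC : ∀ k, 0 ≤ C k) (K : ℕ)
    (hu : ∀ k < K, S.VB (u k) (C k)) :
    S.VB (S.blk m m' c u K) (∑ k ∈ Finset.range K, 2 * C k) := by
  induction K with
  | zero => simpa [blk] using S.zero
  | succ K ih =>
    rw [blk_succ, Finset.sum_range_succ]
    refine S.add (ih fun k hk => hu k (hk.trans (Nat.lt_succ_self _))) ?_
    have h1 := S.trunc (m' K) (hu K (Nat.lt_succ_self _))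
    have h2 := S.smul (-1 : 𝕜) (S.trunc (m K) (hu K (Nat.lt_succ_self _)))
    have h3 := S.smul (c K) (S.add h1 h2)
    rw [neg_one_smul, ← sub_eq_add_neg] at h3
    refine S.mono h3 ?_
    simp only [norm_neg, norm_one, one_mul]
    have := hC K
    have h4 := hc K
    nlinarith [norm_nonneg (c K)]

lemma blk_N {u : ℕ → ∀ i, E i} (hu : ∀ k, Adm (u k)) (hu1 : ∀ k j, S.N j (u k) ≤ 1) (K j : ℕ) :
    S.N (j + 1) (S.blk m m' c u K) ^ 2 ≤ 8 * (1 / 4) ^ j * K ^ 2 +
      16 * ∑ k ∈ Finset.range K, S.N j (u k) ^ 2 + 16 * K * (1 / 4) ^ j := by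
  classical
  set p : ℝ := (1 / 2) ^ j with hp
  have hp0 : 0 < p := by positivity
  have hp1 : p ≤ 1 := pow_le_one₀ (by norm_num) (by norm_num)
  have hp4 : p ^ 2 = (1 / 4) ^ j := by rw [hp, ← pow_mul, mul_comm j 2, pow_mul]; norm_num
  set t : ℕ → ℝ := fun k => S.N j (u k) + p with ht
  have ht0 : ∀ k, 0 ≤ t k := fun k => add_nonneg (S.N_nonneg _ _) hp0.le
  have ht2 : ∀ k, t k ≤ 2 := fun k => by
    have := hu1 k j
    simp only [ht]; linarith
  have hR : ∀ k, S.R j (t k) (u k) := fun k => S.R_of_lt (hu k) (by simp only [ht]; linarith)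
  choose s hs1 hs2 using hR
  set Q : ℝ := Real.sqrt (∑ k ∈ Finset.range K, t k ^ 2) with hQ
  have hsum0 : 0 ≤ ∑ k ∈ Finset.range K, t k ^ 2 := Finset.sum_nonneg fun _ _ => sq_nonneg _
  have hQ0 : 0 ≤ Q := Real.sqrt_nonneg _
  have hQ2 : Q ^ 2 = ∑ k ∈ Finset.range K, t k ^ 2 := Real.sq_sqrt hsum0
  have htQ : ∀ k < K, t k ≤ Q := fun k hk => by
    refine Real.le_sqrt_of_sq_le ?_
    exact Finset.single_le_sum (f := fun k => t k ^ 2) (fun _ _ => sq_nonneg _)
      (Finset.mem_range.mpr hk)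
  set T : ℝ := p * ∑ k ∈ Finset.range K, t k + 2 * Q with hT
  have hst : 0 ≤ ∑ k ∈ Finset.range K, t k := Finset.sum_nonneg fun _ _ => ht0 _
  have hT0 : 0 ≤ T := by positivity
  have hRT : S.R (j + 1) T (S.blk m m' c u K) := by
    refine ⟨S.blk m m' c s K, ?_, fun i => ?_⟩
    · refine S.mono (S.blk_VB hc (C := fun k => t k * S.Psi j)
        (fun k => mul_nonneg (ht0 k) (S.Psi_pos j).le) K (fun k _ => hs1 k)) ?_
      have h1 : ∑ k ∈ Finset.range K, 2 * (t k * S.Psi j)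
          = (∑ k ∈ Finset.range K, t k) * (2 * S.Psi j) := by
        rw [Finset.sum_mul]; exact Finset.sum_congr rfl fun k _ => by ring
      rw [h1]
      have h2 : 2 * S.Psi j ≤ p * S.Psi (j + 1) := by
        have h3 := S.PsiS j
        have h4 : p * (2 ^ (j + 1) * S.Psi j) = 2 * S.Psi j := by
          rw [hp, pow_succ]
          have : ((1:ℝ) / 2) ^ j * 2 ^ j = 1 := by rw [← mul_pow]; norm_num
          linear_combination (2 * S.Psi j) * this
        rw [← h4]
        exact mul_le_mul_of_nonneg_left h3 hp0.le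
      calc (∑ k ∈ Finset.range K, t k) * (2 * S.Psi j)
          ≤ (∑ k ∈ Finset.range K, t k) * (p * S.Psi (j + 1)) :=
            mul_le_mul_of_nonneg_left h2 hst
        _ ≤ T * S.Psi (j + 1) := by
            rw [hT, add_mul]
            have := mul_nonneg (mul_nonneg zero_le_two hQ0) (S.Psi_pos (j+1)).le
            nlinarith
    · have h1 : S.blk m m' c u K i - S.blk m m' c s K i
          = S.blk m m' c (fun k => u k - s k) K i := by
        simp only [blk, Finset.sum_apply, ← Finset.sum_sub_distrib, Pi.smul_apply, ← smul_sub,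
          Pi.sub_apply, tr]
        refine Finset.sum_congr rfl fun k _ => ?_
        congr 1
        split_ifs <;> abel
      rw [h1]
      refine (S.blk_sup hm hm' hc (D := Q * p) (mul_nonneg hQ0 hp0.le) K (fun k hk i => ?_) i).trans
        ?_
      · refine (hs2 k i).trans ?_
        exact mul_le_mul_of_nonneg_right (htQ k hk) hp0.le
      · have : ((1:ℝ) / 2) ^ (j + 1) = p / 2 := by rw [pow_succ, hp]; ring
        rw [this, hT]
        have h5 : 0 ≤ p * (∑ k ∈ Finset.range K, t k) * (p / 2) := by positivity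
        nlinarith
  have hNT := S.N_le_of_R hT0 hRT
  calc S.N (j + 1) (S.blk m m' c u K) ^ 2 ≤ T ^ 2 := pow_le_pow_left₀ (S.N_nonneg _ _) hNT 2
    _ ≤ 2 * (p * ∑ k ∈ Finset.range K, t k) ^ 2 + 8 * Q ^ 2 := by
        rw [hT]; nlinarith [sq_nonneg ((p * ∑ k ∈ Finset.range K, t k) - 2 * Q)]
    _ ≤ 2 * (p * (2 * K)) ^ 2 + 8 * ∑ k ∈ Finset.range K, (2 * S.N j (u k) ^ 2 + 2 * p ^ 2) := by
        rw [hQ2]
        refine add_le_add ?_ (mul_le_mul_of_nonneg_left (Finset.sum_le_sum fun k _ => ?_)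
          (by norm_num))
        · refine mul_le_mul_of_nonneg_left (pow_le_pow_left₀ (by positivity) ?_ 2) (by norm_num)
          refine mul_le_mul_of_nonneg_left ?_ hp0.le
          calc ∑ k ∈ Finset.range K, t k ≤ ∑ k ∈ Finset.range K, (2:ℝ) :=
                Finset.sum_le_sum fun k _ => ht2 k
            _ = 2 * K := by simp [mul_comm]
        · simp only [ht]
          nlinarith [sq_nonneg (S.N j (u k) - p)]
    _ = 8 * p ^ 2 * K ^ 2 + 16 * ∑ k ∈ Finset.range K, S.N j (u k) ^ 2 + 16 * K * p ^ 2 := by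
        rw [Finset.sum_add_distrib, ← Finset.mul_sum]
        simp only [Finset.sum_const, Finset.card_range, nsmul_eq_mul]
        ring
    _ = _ := by rw [hp4]

end Sys

end Pool.Agent.U559.Itp
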