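import Pool.Agent.U559.Itp.Block

open Filter Topology

set_option linter.unusedSectionVars false

namespace Pool.Agent.U559.Itp

variable {𝕜 : Type} [RCLike 𝕜] {I : Type} [DecidableEq I] {E : I → Type}
    [∀ i, NormedAddCommGroup (E i)] [∀ i, NormedSpace 𝕜 (E i)]

namespace Sys

variable (S : Sys 𝕜 E)

section blocks

variable {m m' : ℕ → ℕ} (hm : ∀ k, m k ≤ m' k) (hm' : ∀ k, m' k ≤ m (k + 1)) {c : ℕ → 𝕜}
  (hc : ∀ k, ‖c k‖ ≤ 1)

include hm hm' hc

lemma blk_norm {z : ℕ → S.X} (hz : ∀ k, ‖z k‖ ≤ 1) (L K : ℕ) :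
    ‖∑ k ∈ Finset.range K, c k • (S.tau (m' k) (z k) - S.tau (m k) (z k))‖ ^ 2 ≤
      (∑ j ∈ Finset.range (L + 1), 4 * (4:ℝ) ^ j) + 11 * (1 / 4) ^ L * K ^ 2 + 38 * K := by
  classical
  set x := ∑ k ∈ Finset.range K, c k • (S.tau (m' k) (z k) - S.tau (m k) (z k)) with hx
  have hv : S.val x = S.blk m m' c (fun k => S.val (z k)) K := by
    rw [hx, blk, map_sum]
    exact Finset.sum_congr rfl fun k _ => by rw [map_smul, map_sub, val_tau, val_tau]
  have hN1 : ∀ k j, S.N j (S.val (z k)) ≤ 1 := fun k j => (S.N_le_norm j _).trans (hz k)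
  have h1 : ∀ j, S.N j (S.val x) ^ 2 ≤ 4 * 4 ^ j := by
    intro j
    have h2 : ∀ i, ‖S.val x i‖ ≤ 2 := by
      rw [hv]
      refine S.blk_sup hm hm' hc (by norm_num) K fun k _ i => (S.coord_le _ i).trans ?_
      linarith [hz k]
    calc S.N j (S.val x) ^ 2 ≤ (2 ^ j * 2) ^ 2 :=
          pow_le_pow_left₀ (S.N_nonneg _ _) (S.N_le_sup (by norm_num) h2 j) 2
      _ = 4 * 4 ^ j := by rw [mul_pow, ← pow_mul, mul_comm j 2, pow_mul]; norm_num; ring
  have h2 : ∀ j, S.N (j + 1) (S.val x) ^ 2 ≤ 8 * (1 / 4) ^ j * K ^ 2 +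
      16 * ∑ k ∈ Finset.range K, S.N j (S.val (z k)) ^ 2 + 16 * K * (1 / 4) ^ j := by
    intro j
    rw [hv]
    exact S.blk_N hm hm' hc (fun k => S.adm (z k)) hN1 K j
  rw [S.norm_sq]
  refine (S.summ x).tsum_le_of_sum_range_le fun n => ?_
  calc ∑ j ∈ Finset.range n, S.N j (S.val x) ^ 2
      ≤ ∑ j ∈ Finset.range (L + 1 + n), S.N j (S.val x) ^ 2 := by
        refine Finset.sum_le_sum_of_subset_of_nonneg ?_ fun _ _ _ => sq_nonneg _
        exact Finset.range_mono (by omega)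
    _ = ∑ j ∈ Finset.range (L + 1), S.N j (S.val x) ^ 2
        + ∑ j ∈ Finset.range n, S.N (L + j + 1) (S.val x) ^ 2 := by
        rw [Finset.sum_range_add]
        congr 1
        exact Finset.sum_congr rfl fun j _ => by rw [show L + 1 + j = L + j + 1 by ring]
    _ ≤ ∑ j ∈ Finset.range (L + 1), 4 * (4:ℝ) ^ j
        + ∑ j ∈ Finset.range n, (8 * (1 / 4) ^ (L + j) * K ^ 2 +
      16 * ∑ k ∈ Finset.range K, S.N (L + j) (S.val (z k)) ^ 2 + 16 * K * (1 / 4) ^ (L + j)) :=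
        add_le_add (Finset.sum_le_sum fun j _ => h1 j) (Finset.sum_le_sum fun j _ => h2 (L + j))
    _ = ∑ j ∈ Finset.range (L + 1), 4 * (4:ℝ) ^ j
        + ((8 * (1 / 4) ^ L * K ^ 2 + 16 * K * (1 / 4) ^ L) *
            ∑ j ∈ Finset.range n, ((1:ℝ) / 4) ^ j
          + 16 * ∑ k ∈ Finset.range K, ∑ j ∈ Finset.range n, S.N (L + j) (S.val (z k)) ^ 2) := by
        rw [Finset.sum_comm (s := Finset.range K), Finset.mul_sum, Finset.mul_sum,
          ← Finset.sum_add_distrib]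
        congr 1
        refine Finset.sum_congr rfl fun j _ => ?_
        rw [pow_add]; ring
    _ ≤ ∑ j ∈ Finset.range (L + 1), 4 * (4:ℝ) ^ j
        + ((8 * (1 / 4) ^ L * K ^ 2 + 16 * K * 1) * (4 / 3)
          + 16 * ∑ k ∈ Finset.range K, 1) := by
        refine add_le_add le_rfl (add_le_add (mul_le_mul (add_le_add le_rfl ?_) (sum_four n)
          (Finset.sum_nonneg fun _ _ => by positivity) (by positivity))
          (mul_le_mul_of_nonneg_left (Finset.sum_le_sum fun k _ => ?_) (by norm_num)))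
        · exact mul_le_mul_of_nonneg_left (pow_le_one₀ (by norm_num) (by norm_num)) (by positivity)
        · have h5 : ∑ j ∈ Finset.range n, S.N (L + j) (S.val (z k)) ^ 2
              ≤ ∑ j ∈ Finset.range (L + n), S.N j (S.val (z k)) ^ 2 := by
            rw [Finset.sum_range_add]
            exact le_add_of_nonneg_left (Finset.sum_nonneg fun _ _ => sq_nonneg _)
          refine h5.trans ((S.sum_le_norm_sq (z k) _).trans ?_)
          exact pow_le_one₀ (norm_nonneg _) (hz k)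
    _ ≤ _ := by
        simp only [Finset.sum_const, Finset.card_range, nsmul_eq_mul, mul_one]
        have : (0:ℝ) ≤ (1 / 4) ^ L * K ^ 2 := by positivity
        have : (0:ℝ) ≤ K := Nat.cast_nonneg K
        nlinarith

end blocks

lemma unimod (a : 𝕜) : ∃ c : 𝕜, ‖c‖ ≤ 1 ∧ c * a = (‖a‖ : 𝕜) := by
  rcases eq_or_ne a 0 with rfl | ha
  · exact ⟨0, by simp, by simp⟩
  · refine ⟨(‖a‖ : 𝕜) / a, ?_, div_mul_cancel₀ _ ha⟩
    rw [norm_div, RCLike.norm_ofReal, abs_norm, div_self (norm_ne_zero_iff.mpr ha)]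

/-- no functional is large on infinitely many successive blocks -/
lemma functional_blocks (f : ↥S.X0 →L[𝕜] 𝕜) {ε : ℝ} (hε : 0 < ε) :
    ∃ m0, ∀ m m', m0 ≤ m → m ≤ m' → ∀ z : S.X, ‖z‖ ≤ 1 →
      ‖f (S.tau0 m' z - S.tau0 m z)‖ ≤ ε := by
  by_contra hcon
  push Not at hcon
  choose a b hab1 hab2 z hz1 hz2 using hcon
  -- q 0 = 0, q (k+1) = b (q k)
  set q : ℕ → ℕ := fun k => Nat.rec 0 (fun _ p => b p) k with hq
  have hqs : ∀ k, q (k + 1) = b (q k) := fun k => rfl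
  set m : ℕ → ℕ := fun k => a (q k) with hmdef
  set m' : ℕ → ℕ := fun k => b (q k) with hm'def
  have hm : ∀ k, m k ≤ m' k := fun k => hab2 (q k)
  have hm' : ∀ k, m' k ≤ m (k + 1) := fun k => by
    have := hab1 (q (k + 1)); rw [hqs] at this; exact this
  choose c hc1 hc2 using fun k => unimod (f (S.tau0 (m' k) (z (q k)) - S.tau0 (m k) (z (q k))))
  -- choose L
  obtain ⟨L, hL⟩ : ∃ L : ℕ, 11 * (1 / 4 : ℝ) ^ L * ‖f‖ ^ 2 ≤ ε ^ 2 / 2 := by
    have h1 : Tendsto (fun L : ℕ => 11 * (1 / 4 : ℝ) ^ L * ‖f‖ ^ 2) atTop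
        (𝓝 (11 * 0 * ‖f‖ ^ 2)) :=
      ((tendsto_pow_atTop_nhds_zero_of_lt_one (by norm_num) (by norm_num)).const_mul _).mul_const _
    simp only [mul_zero, zero_mul] at h1
    exact (h1.eventually_le_const (show (0:ℝ) < ε ^ 2 / 2 by positivity)).exists
  set A : ℝ := ∑ j ∈ Finset.range (L + 1), 4 * (4:ℝ) ^ j with hA
  have hA0 : 0 ≤ A := Finset.sum_nonneg fun _ _ => by positivity
  have key : ∀ K : ℕ, (K * ε) ^ 2 ≤ ‖f‖ ^ 2 * (A + 11 * (1 / 4) ^ L * K ^ 2 + 38 * K) := by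
    intro K
    set x : ↥S.X0 := ∑ k ∈ Finset.range K,
      c k • (S.tau0 (m' k) (z (q k)) - S.tau0 (m k) (z (q k))) with hx
    have h1 : f x = ((∑ k ∈ Finset.range K,
        ‖f (S.tau0 (m' k) (z (q k)) - S.tau0 (m k) (z (q k)))‖ : ℝ) : 𝕜) := by
      rw [hx, map_sum]
      push_cast
      exact Finset.sum_congr rfl fun k _ => by rw [map_smul, smul_eq_mul, hc2]
    have h2 : K * ε ≤ ‖f x‖ := by
      rw [h1, RCLike.norm_ofReal]
      refine le_trans ?_ (le_abs_self _)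
      calc (K:ℝ) * ε = ∑ k ∈ Finset.range K, ε := by simp
        _ ≤ _ := Finset.sum_le_sum fun k _ => (hz2 (q k)).le
    have h3 : ‖x‖ ^ 2 ≤ A + 11 * (1 / 4) ^ L * K ^ 2 + 38 * K := by
      have := S.blk_norm hm hm' hc1 (z := fun k => z (q k)) (fun k => hz1 _) L K
      refine le_of_eq_of_le ?_ this
      congr 1
      rw [Submodule.coe_norm, hx, Submodule.coe_sum]
      rfl
    calc (K * ε) ^ 2 ≤ (‖f‖ * ‖x‖) ^ 2 :=
          pow_le_pow_left₀ (by positivity) (h2.trans (f.le_opNorm x)) 2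
      _ = ‖f‖ ^ 2 * ‖x‖ ^ 2 := by ring
      _ ≤ _ := mul_le_mul_of_nonneg_left h3 (sq_nonneg _)
  obtain ⟨K, hK⟩ := exists_nat_gt (2 * (‖f‖ ^ 2 * (A + 38)) / ε ^ 2 + 1)
  have hK1 : (1:ℝ) ≤ K := by
    have : 0 ≤ 2 * (‖f‖ ^ 2 * (A + 38)) / ε ^ 2 := by positivity
    linarith
  have h1 := key K
  have h2 : 2 * (‖f‖ ^ 2 * (A + 38)) < K * ε ^ 2 := by
    have : 2 * (‖f‖ ^ 2 * (A + 38)) / ε ^ 2 < K := by linarith
    rwa [div_lt_iff₀ (by positivity)] at this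
  have hf0 : 0 ≤ ‖f‖ ^ 2 := sq_nonneg _
  have h3 : ‖f‖ ^ 2 * (A + 11 * (1 / 4) ^ L * K ^ 2 + 38 * K)
      ≤ ‖f‖ ^ 2 * (A + 38) * K + ε ^ 2 / 2 * K ^ 2 := by
    have e1 : ‖f‖ ^ 2 * (A + 11 * (1 / 4) ^ L * K ^ 2 + 38 * K) =
      ‖f‖ ^ 2 * A + (11 * (1 / 4) ^ L * ‖f‖ ^ 2) * K ^ 2 + ‖f‖ ^ 2 * 38 * K := by ring
    rw [e1]
    have e2 := mul_le_mul_of_nonneg_right hL (sq_nonneg (K:ℝ))
    have e3 : ‖f‖ ^ 2 * A ≤ ‖f‖ ^ 2 * A * K := le_mul_of_one_le_right (by positivity) hK1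
    linarith
  have h4 : ‖f‖ ^ 2 * (A + 38) * K < K * ε ^ 2 / 2 * K := by
    refine mul_lt_mul_of_pos_right (by linarith) (by linarith)
  nlinarith

lemma exists_hat_scalar (f : ↥S.X0 →L[𝕜] 𝕜) :
    ∃ g : S.X →L[𝕜] 𝕜, Tendsto (fun m => f ∘L S.tau0 m) atTop (𝓝 g) := by
  refine cauchySeq_tendsto_of_complete ?_
  rw [Metric.cauchySeq_iff']
  intro ε hε
  obtain ⟨m0, hm0⟩ := S.functional_blocks f (half_pos hε)
  refine ⟨m0, fun n hn => lt_of_le_of_lt ?_ (half_lt_self hε)⟩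
  rw [dist_eq_norm]
  refine ContinuousLinearMap.opNorm_le_bound _ (half_pos hε).le fun z => ?_
  rcases eq_or_ne z 0 with rfl | hz
  · simp
  · have hz' : 0 < ‖z‖ := norm_pos_iff.mpr hz
    have h1 := hm0 m0 n le_rfl hn (((‖z‖⁻¹ : ℝ) : 𝕜) • z) (by
      rw [norm_smul, RCLike.norm_ofReal, abs_inv, abs_norm, inv_mul_cancel₀ hz'.ne'])
    rw [map_smul, map_smul, ← smul_sub, map_smul, norm_smul, RCLike.norm_ofReal, abs_inv,
      abs_norm, inv_mul_le_iff₀ hz', mul_comm] at h1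
    simpa using h1

section fin

variable {F : Type} [NormedAddCommGroup F] [NormedSpace 𝕜 F] [FiniteDimensional 𝕜 F]

lemma exists_hatF (f : ↥S.X0 →L[𝕜] F) :
    ∃ g : S.X →L[𝕜] F, Tendsto (fun m => f ∘L S.tau0 m) atTop (𝓝 g) := by
  classical
  let b := Module.finBasis 𝕜 F
  choose g hg using fun i => S.exists_hat_scalar ((LinearMap.toContinuousLinearMap (b.coord i)) ∘L f)
  refine ⟨∑ i, (ContinuousLinearMap.toSpanSingleton 𝕜 (b i)) ∘L g i, ?_⟩
  have h1 : ∀ m, f ∘L S.tau0 m = ∑ i, (ContinuousLinearMap.toSpanSingleton 𝕜 (b i)) ∘L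
      (((LinearMap.toContinuousLinearMap (b.coord i)) ∘L f) ∘L S.tau0 m) := by
    intro m
    ext z
    rw [sum_apply]
    simp only [ContinuousLinearMap.comp_apply, ContinuousLinearMap.toSpanSingleton_apply,
      LinearMap.coe_toContinuousLinearMap', Module.Basis.coord_apply]
    exact (b.sum_repr _).symm
  simp only [h1]
  refine tendsto_finsetSum _ fun i _ => ?_
  exact ((ContinuousLinearMap.compL 𝕜 S.X 𝕜 F
    (ContinuousLinearMap.toSpanSingleton 𝕜 (b i))).continuous.tendsto _).comp (hg i)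

/-- extension of a finite rank operator -/
noncomputable def hatF (f : ↥S.X0 →L[𝕜] F) : S.X →L[𝕜] F := (S.exists_hatF f).choose

lemma hatF_spec (f : ↥S.X0 →L[𝕜] F) : Tendsto (fun m => f ∘L S.tau0 m) atTop (𝓝 (S.hatF f)) :=
  (S.exists_hatF f).choose_spec

lemma hatF_spec' (f : ↥S.X0 →L[𝕜] F) {ε : ℝ} (hε : 0 < ε) :
    ∃ m0, ∀ m ≥ m0, ∀ z, ‖f (S.tau0 m z) - S.hatF f z‖ ≤ ε * ‖z‖ := by
  obtain ⟨m0, hm0⟩ := Metric.tendsto_atTop.mp (S.hatF_spec f) ε hε
  refine ⟨m0, fun m hm z => ?_⟩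
  have h1 := hm0 m hm
  rw [dist_eq_norm] at h1
  have h2 := (f ∘L S.tau0 m - S.hatF f).le_opNorm z
  rw [sub_apply] at h2
  exact h2.trans (mul_le_mul_of_nonneg_right h1.le (norm_nonneg _))

lemma hatF_apply_tendsto (f : ↥S.X0 →L[𝕜] F) (z : S.X) :
    Tendsto (fun m => f (S.tau0 m z)) atTop (𝓝 (S.hatF f z)) :=
  ((ContinuousLinearMap.apply 𝕜 F z).continuous.tendsto _).comp (S.hatF_spec f)

lemma hatF_coe (f : ↥S.X0 →L[𝕜] F) (x : ↥S.X0) : S.hatF f x = f x :=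
  tendsto_nhds_unique (S.hatF_apply_tendsto f x) ((f.continuous.tendsto _).comp (S.tau0_tendsto x))

lemma hatF_tendsto (f : ↥S.X0 →L[𝕜] F) {l : Filter ℕ} {x : ℕ → S.X} {w : S.X} {C : ℝ}
    (hx : ∀ k, ‖x k‖ ≤ C) (h : ∀ i, Tendsto (fun k => S.val (x k) i) l (𝓝 (S.val w i))) :
    Tendsto (fun k => S.hatF f (x k)) l (𝓝 (S.hatF f w)) := by
  rw [Metric.tendsto_nhds]
  intro ε hε
  have hC : 0 ≤ C := (norm_nonneg _).trans (hx 0)
  set D : ℝ := C + ‖w‖ + 1 with hD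
  have hD0 : 0 < D := by positivity
  obtain ⟨m, hm⟩ := Metric.tendsto_atTop.mp (S.hatF_spec f) (ε / (3 * D)) (by positivity)
  have hm := hm m le_rfl
  rw [dist_eq_norm] at hm
  have hest : ∀ y : S.X, ‖y‖ ≤ D → ‖S.hatF f y - f (S.tau0 m y)‖ < ε / 3 := by
    intro y hy
    have h1 := (f ∘L S.tau0 m - S.hatF f).le_opNorm y
    rw [sub_apply, norm_sub_rev] at h1
    refine lt_of_le_of_lt h1 ?_
    calc ‖f ∘L S.tau0 m - S.hatF f‖ * ‖y‖ ≤ ‖f ∘L S.tau0 m - S.hatF f‖ * D :=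
          mul_le_mul_of_nonneg_left hy (norm_nonneg _)
      _ < ε / (3 * D) * D := mul_lt_mul_of_pos_right hm hD0
      _ = ε / 3 := by field_simp
  have h2 : Tendsto (fun k => f (S.tau0 m (x k))) l (𝓝 (f (S.tau0 m w))) := by
    refine (f.continuous.tendsto _).comp ?_
    rw [tendsto_subtype_rng]
    exact S.tau_tendsto m h
  rw [Metric.tendsto_nhds] at h2
  filter_upwards [h2 (ε / 3) (by positivity)] with k hk
  rw [dist_eq_norm] at *
  have h3 := hest (x k) ((hx k).trans (by rw [hD]; linarith [norm_nonneg w]))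
  have h4 := hest w (by rw [hD]; linarith)
  have h5 : S.hatF f (x k) - S.hatF f w = (S.hatF f (x k) - f (S.tau0 m (x k))) +
    (f (S.tau0 m (x k)) - f (S.tau0 m w)) + -(S.hatF f w - f (S.tau0 m w)) := by abel
  rw [h5]
  calc _ ≤ ‖S.hatF f (x k) - f (S.tau0 m (x k))‖ + ‖f (S.tau0 m (x k)) - f (S.tau0 m w)‖
        + ‖-(S.hatF f w - f (S.tau0 m w))‖ :=
        (norm_add_le _ _).trans (add_le_add_left (norm_add_le _ _) _)
    _ < ε := by rw [norm_neg]; linarith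

end fin

section hat

variable [∀ i, FiniteDimensional 𝕜 (E i)]

lemma exists_hat (T : ↥S.X0 →L[𝕜] S.X) (z : S.X) :
    ∃ w : S.X, (S.val w = fun i => S.hatF (S.coord i ∘L T) z) ∧ ‖w‖ ≤ ‖T‖ * ‖z‖ := by
  refine S.exists_lim (x := fun k => T (S.tau0 k z)) (fun k => ?_) fun i => ?_
  · exact (T.le_opNorm _).trans (mul_le_mul_of_nonneg_left (S.tau0_norm k z) T.opNorm_nonneg)
  · exact (S.hatF_apply_tendsto (S.coord i ∘L T) z).mono_left hyper_le

/-- the canonical extension of an operator from `X0` to `X` -/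
noncomputable def hat (T : ↥S.X0 →L[𝕜] S.X) : S.X →L[𝕜] S.X :=
  LinearMap.mkContinuous
    { toFun := fun z => (S.exists_hat T z).choose
      map_add' := fun z z' => by
        apply S.val_inj
        rw [map_add, (S.exists_hat T (z + z')).choose_spec.1, (S.exists_hat T z).choose_spec.1,
          (S.exists_hat T z').choose_spec.1]
        funext i
        simp
      map_smul' := fun c z => by
        apply S.val_inj
        rw [map_smul, (S.exists_hat T (c • z)).choose_spec.1, (S.exists_hat T z).choose_spec.1]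
        funext i
        simp } ‖T‖ (fun z => (S.exists_hat T z).choose_spec.2)

lemma hat_val (T : ↥S.X0 →L[𝕜] S.X) (z : S.X) (i : I) :
    S.val (S.hat T z) i = S.hatF (S.coord i ∘L T) z := by
  have := (S.exists_hat T z).choose_spec.1
  exact congrFun this i

lemma hat_norm (T : ↥S.X0 →L[𝕜] S.X) : ‖S.hat T‖ ≤ ‖T‖ :=
  LinearMap.mkContinuous_norm_le _ T.opNorm_nonneg _

lemma hat_apply_tendsto (T : ↥S.X0 →L[𝕜] S.X) (z : S.X) (i : I) :
    Tendsto (fun m => S.val (T (S.tau0 m z)) i) atTop (𝓝 (S.val (S.hat T z) i)) := by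
  rw [hat_val]
  exact S.hatF_apply_tendsto (S.coord i ∘L T) z

lemma hat_coe (T : ↥S.X0 →L[𝕜] S.X) (x : ↥S.X0) : S.hat T x = T x := by
  apply S.val_inj
  funext i
  rw [hat_val, hatF_coe]
  rfl

lemma hat_tendsto (T : ↥S.X0 →L[𝕜] S.X) {l : Filter ℕ} {x : ℕ → S.X} {w : S.X} {C : ℝ}
    (hx : ∀ k, ‖x k‖ ≤ C) (h : ∀ i, Tendsto (fun k => S.val (x k) i) l (𝓝 (S.val w i))) (i : I) :
    Tendsto (fun k => S.val (S.hat T (x k)) i) l (𝓝 (S.val (S.hat T w) i)) := by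
  simp only [hat_val]
  exact S.hatF_tendsto _ hx h

/-- uniqueness of the extension -/
lemma hat_unique (T : ↥S.X0 →L[𝕜] S.X) {U : S.X → S.X} (z : S.X)
    (h : ∀ i, Tendsto (fun m => S.val (T (S.tau0 m z)) i) atTop (𝓝 (S.val (U z) i))) :
    S.hat T z = U z := by
  apply S.val_inj
  funext i
  exact tendsto_nhds_unique (S.hat_apply_tendsto T z i) (h i)

lemma tau_coord_tendsto (z : S.X) (i : I) :
    Tendsto (fun m => S.val (S.tau m z) i) atTop (𝓝 (S.val z i)) := by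
  refine tendsto_const_nhds.congr' ?_
  filter_upwards [eventually_gt_atTop (S.lev i)] with m hm
  rw [S.val_tau_lt hm]

/-- extension of endomorphisms of `X0` -/
noncomputable def hat0 (T : ↥S.X0 →L[𝕜] ↥S.X0) : S.X →L[𝕜] S.X := S.hat (S.X0.subtypeL ∘L T)

lemma hat0_mul (T U : ↥S.X0 →L[𝕜] ↥S.X0) : S.hat0 (T ∘L U) = S.hat0 T ∘L S.hat0 U := by
  ext z
  refine S.hat_unique _ (U := fun z => S.hat0 T (S.hat0 U z)) z fun i => ?_
  have h1 := S.hat_tendsto (S.X0.subtypeL ∘L T) (l := atTop)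
    (x := fun m => ((U (S.tau0 m z) : ↥S.X0) : S.X)) (w := S.hat0 U z) (C := ‖U‖ * ‖z‖)
    (fun k => (U.le_opNorm _).trans (mul_le_mul_of_nonneg_left (S.tau0_norm k z) U.opNorm_nonneg))
    (fun i => S.hat_apply_tendsto (S.X0.subtypeL ∘L U) z i) i
  refine h1.congr fun m => ?_
  rw [hat_coe]
  rfl

lemma hat0_coe (T : ↥S.X0 →L[𝕜] ↥S.X0) (x : ↥S.X0) : S.hat0 T x = (T x : S.X) :=
  S.hat_coe _ x

lemma hat_add (T U : ↥S.X0 →L[𝕜] S.X) : S.hat (T + U) = S.hat T + S.hat U := by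
  ext z
  refine S.hat_unique _ (U := fun z => S.hat T z + S.hat U z) z fun i => ?_
  simp only [map_add, Pi.add_apply, add_apply]
  exact (S.hat_apply_tendsto T z i).add (S.hat_apply_tendsto U z i)

lemma hat_smul (a : 𝕜) (T : ↥S.X0 →L[𝕜] S.X) : S.hat (a • T) = a • S.hat T := by
  ext z
  refine S.hat_unique _ (U := fun z => a • S.hat T z) z fun i => ?_
  simp only [map_smul, Pi.smul_apply, smul_apply]
  exact (S.hat_apply_tendsto T z i).const_smul a

lemma hat0_id : S.hat0 (ContinuousLinearMap.id 𝕜 _) = ContinuousLinearMap.id 𝕜 _ := by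
  ext z
  exact S.hat_unique _ (U := fun z => z) z fun i => S.tau_coord_tendsto z i

end hat

/-! ### separability of `X0` -/

lemma X0_separable [Countable I] [∀ i, FiniteDimensional 𝕜 (E i)] :
    TopologicalSpace.SeparableSpace ↥S.X0 := by
  have h1 : TopologicalSpace.IsSeparable (⋃ i, Set.range (S.sgl i)) := by
    refine TopologicalSpace.IsSeparable.iUnion fun i => ?_
    have : ProperSpace (E i) := FiniteDimensional.proper 𝕜 (E i)
    exact TopologicalSpace.isSeparable_range (S.sgl i).continuous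
  have h2 := (h1.span (R := 𝕜)).closure
  have h3 : (S.X0 : Set S.X) ⊆ closure (Submodule.span 𝕜 (⋃ i, Set.range (S.sgl i))) := by
    intro x hx
    refine mem_closure_of_tendsto (S.mem_X0.mp hx) (Eventually.of_forall fun n => ?_)
    rw [tau_eq_sum]
    refine Submodule.sum_mem _ fun i _ => Submodule.subset_span ?_
    exact Set.mem_iUnion.mpr ⟨i, ⟨_, rfl⟩⟩
  exact (h2.mono h3).separableSpace

end Sys

end Pool.Agent.U559.Itp
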