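import Pool.Agent.U559.Itp.Hat

open Filter Topology

set_option linter.unusedSectionVars false

namespace Pool.Agent.U559.Itp

/-- nodes of the dyadic tree -/
abbrev Node : Type := Σ n : ℕ, (Fin n → Bool)

/-- branches -/
abbrev Br : Type := ℕ → Bool

/-- restriction of a branch -/
def res (β : Br) (n : ℕ) : Node := ⟨n, fun i => β i⟩

/-- agreement of branches below `n` -/
def agr (β σ : Br) (n : ℕ) : Prop := ∀ i < n, β i = σ i

lemma agr.symm {β σ : Br} {n : ℕ} (h : agr β σ n) : agr σ β n := fun i hi => (h i hi).symm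
lemma agr.trans {β σ ρ : Br} {n : ℕ} (h : agr β σ n) (h' : agr σ ρ n) : agr β ρ n :=
  fun i hi => (h i hi).trans (h' i hi)
lemma agr.mono {β σ : Br} {n m : ℕ} (h : agr β σ n) (hm : m ≤ n) : agr β σ m :=
  fun i hi => h i (hi.trans_le hm)
lemma agr_refl (β : Br) (n : ℕ) : agr β β n := fun _ _ => rfl

lemma res_eq_iff {β σ : Br} {n : ℕ} : res β n = res σ n ↔ agr β σ n := by
  constructor
  · intro h i hi
    have := Sigma.mk.inj_iff.mp h
    have h2 := congrFun (eq_of_heq this.2) ⟨i, hi⟩
    exact h2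
  · intro h
    unfold res
    congr 1
    funext i
    exact h i i.2

lemma exists_res (t : Node) : ∃ β : Br, t = res β t.1 := by
  refine ⟨fun i => if h : i < t.1 then t.2 ⟨i, h⟩ else false, ?_⟩
  obtain ⟨n, f⟩ := t
  unfold res
  congr 1
  funext i
  simp

lemma res_fst (β : Br) (n : ℕ) : (res β n).1 = n := rfl

lemma finlev_node (n : ℕ) : {t : Node | t.1 < n}.Finite := by
  have : {t : Node | t.1 < n} = ⋃ k ∈ Finset.range n, Set.range (Sigma.mk (β := fun n => Fin n → Bool) k) := by
    ext ⟨k, f⟩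
    simp
  rw [this]
  exact Set.Finite.biUnion (Finset.finite_toSet _) fun k _ => Set.finite_range _

section W

variable {𝕜 : Type} [RCLike 𝕜]

/-- variation plus last value -/
noncomputable def W (a : ℕ → 𝕜) (N : ℕ) : ℝ := ∑ n ∈ Finset.range N, ‖a (n + 1) - a n‖ + ‖a N‖

lemma W_zero (a : ℕ → 𝕜) : W a 0 = ‖a 0‖ := by simp [W]

lemma W_succ (a : ℕ → 𝕜) (N : ℕ) :
    W a (N + 1) = W a N + (‖a (N + 1) - a N‖ + ‖a (N + 1)‖ - ‖a N‖) := by
  unfold W; rw [Finset.sum_range_succ]; ring

lemma W_inc (a : ℕ → 𝕜) (N : ℕ) : 0 ≤ ‖a (N + 1) - a N‖ + ‖a (N + 1)‖ - ‖a N‖ := by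
  have := norm_sub_norm_le (a N) (a (N + 1))
  rw [norm_sub_rev] at this
  linarith

lemma W_add (a b : ℕ → 𝕜) (N : ℕ) : W (a + b) N ≤ W a N + W b N := by
  unfold W
  have h1 : ∑ n ∈ Finset.range N, ‖(a + b) (n + 1) - (a + b) n‖
      ≤ ∑ n ∈ Finset.range N, ‖a (n + 1) - a n‖ + ∑ n ∈ Finset.range N, ‖b (n + 1) - b n‖ := by
    rw [← Finset.sum_add_distrib]
    refine Finset.sum_le_sum fun n _ => ?_
    rw [Pi.add_apply, Pi.add_apply, add_sub_add_comm]
    exact norm_add_le _ _
  have h2 := norm_add_le (a N) (b N)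
  rw [Pi.add_apply]
  linarith

lemma W_smul (c : 𝕜) (a : ℕ → 𝕜) (N : ℕ) : W (c • a) N = ‖c‖ * W a N := by
  unfold W
  simp only [Pi.smul_apply, smul_eq_mul, ← mul_sub, norm_mul, mul_add, Finset.mul_sum]

lemma W_trunc (a : ℕ → 𝕜) (m N : ℕ) : W (fun n => if n < m then a n else 0) N ≤ W a N := by
  induction N with
  | zero =>
    rw [W_zero, W_zero]
    split_ifs <;> simp
  | succ N ih =>
    rw [W_succ, W_succ]
    have h0 := W_inc a N
    refine add_le_add ih ?_
    by_cases h1 : N + 1 < m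
    · have h2 : N < m := by omega
      simp [h1, h2]
    · by_cases h2 : N < m
      · simp only [h1, h2, if_true, if_false]
        simpa using h0
      · simp only [h1, h2, if_false]
        simpa using h0

lemma W_nonneg (a : ℕ → 𝕜) (N : ℕ) : 0 ≤ W a N := by unfold W; positivity

lemma W_agr (a : 𝕜) (ρ σ : Br) [∀ n, Decidable (agr ρ σ n)] (N : ℕ) :
    W (fun n => if agr ρ σ n then a else 0) N ≤ ‖a‖ := by
  induction N with
  | zero => rw [W_zero]; split_ifs <;> simp
  | succ N ih =>
    rw [W_succ]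
    refine le_trans (le_of_eq ?_) ih
    by_cases h1 : agr ρ σ (N + 1)
    · have h2 : agr ρ σ N := h1.mono (Nat.le_succ _)
      simp [h1, h2]
    · by_cases h2 : agr ρ σ N <;> simp [h1, h2]

lemma sum_pq_le (a : ℕ → 𝕜) {p q : ℕ → ℕ} (hpq : ∀ i, p i ≤ q i ∧ q i ≤ p (i + 1)) (K : ℕ) :
    ∑ i ∈ Finset.range K, ‖a (p (i + 1)) - a (q i)‖ ≤
      ∑ n ∈ Finset.range (p K), ‖a (n + 1) - a n‖ := by
  induction K with
  | zero => simp; positivity
  | succ K ih =>
    rw [Finset.sum_range_succ]
    have h1 : ‖a (p (K + 1)) - a (q K)‖ ≤ ∑ n ∈ Finset.Ico (q K) (p (K + 1)), ‖a (n + 1) - a n‖ := by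
      have := dist_le_Ico_sum_dist a (hpq K).2
      rw [dist_comm, dist_eq_norm] at this
      refine this.trans (le_of_eq (Finset.sum_congr rfl fun n _ => ?_))
      rw [dist_comm, dist_eq_norm]
    have h2 : ∑ n ∈ Finset.range (p K), ‖a (n + 1) - a n‖
        + ∑ n ∈ Finset.Ico (q K) (p (K + 1)), ‖a (n + 1) - a n‖
        ≤ ∑ n ∈ Finset.range (p (K + 1)), ‖a (n + 1) - a n‖ := by
      rw [← Finset.sum_union]
      · refine Finset.sum_le_sum_of_subset_of_nonneg ?_ fun _ _ _ => norm_nonneg _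
        intro n hn
        have h3 := hpq K
        rw [Finset.mem_union, Finset.mem_range, Finset.mem_Ico] at hn
        rw [Finset.mem_range]
        omega
      · rw [Finset.disjoint_left]
        intro n hn hn'
        have h3 := hpq K
        rw [Finset.mem_range] at hn
        rw [Finset.mem_Ico] at hn'
        omega
    linarith

end W

/-- at most one nonzero term -/
lemma sum_le_of_atMostOne {f : ℕ → ℝ} {D : ℝ} (hD : 0 ≤ D) (J : Finset ℕ)
    (h1 : ∀ i ∈ J, f i ≤ D) (h2 : ∀ i ∈ J, ∀ i' ∈ J, i < i' → f i = 0 ∨ f i' = 0) :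
    ∑ i ∈ J, f i ≤ D := by
  by_cases h : ∃ i ∈ J, f i ≠ 0
  · obtain ⟨i, hi, hi2⟩ := h
    rw [Finset.sum_eq_single i]
    · exact h1 i hi
    · intro b hb hbi
      rcases lt_or_gt_of_ne hbi with h | h
      · exact (h2 b hb i hi h).resolve_right hi2
      · exact (h2 i hi b hb h).resolve_left hi2
    · exact fun h => absurd hi h
  · push Not at h
    rw [Finset.sum_eq_zero h]; exact hD

section VI

variable {𝕜 : Type} [RCLike 𝕜]

/-- monotone interlacing sequences -/
def Intl (p q : ℕ → ℕ) : Prop := ∀ i, p i ≤ q i ∧ q i ≤ p (i + 1)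

lemma Intl.le {p q : ℕ → ℕ} (h : Intl p q) {i i' : ℕ} (hi : i < i') : q i ≤ p i' := by
  have hmono : Monotone p := monotone_nat_of_le_succ fun n => (h n).1.trans (h n).2
  exact (h i).2.trans (hmono hi)

lemma Intl.mono {p q : ℕ → ℕ} (h : Intl p q) : Monotone p :=
  monotone_nat_of_le_succ fun n => (h n).1.trans (h n).2

/-- the inner variation predicate -/
def VI (s : Node → 𝕜) (C : ℝ) : Prop :=
  (∀ (σ : Br) (N : ℕ), W (fun n => s (res σ n)) N ≤ C) ∧
  (∀ (σ : Br) (β : ℕ → Br) (p q : ℕ → ℕ) (J : Finset ℕ), Intl p q →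
    (∀ i ∈ J, agr (β i) σ (p i) ∧ ¬ agr (β i) σ (q i)) →
    ∑ i ∈ J, ‖s (res (β i) (q i))‖ ≤ C)

lemma VI.mono {s : Node → 𝕜} {C C' : ℝ} (h : VI s C) (hC : C ≤ C') : VI s C' :=
  ⟨fun σ N => (h.1 σ N).trans hC, fun σ β p q J h1 h2 => (h.2 σ β p q J h1 h2).trans hC⟩

lemma VI.nonneg {s : Node → 𝕜} {C : ℝ} (h : VI s C) : 0 ≤ C :=
  (W_nonneg _ 0).trans (h.1 (fun _ => false) 0)

lemma VI.bdd {s : Node → 𝕜} {C : ℝ} (h : VI s C) (t : Node) : ‖s t‖ ≤ C := by
  obtain ⟨β, hβ⟩ := exists_res t
  rw [hβ]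
  refine le_trans ?_ (h.1 β t.1)
  unfold W
  have : 0 ≤ ∑ n ∈ Finset.range t.1, ‖s (res β (n + 1)) - s (res β n)‖ := by positivity
  linarith

/-- the indicator of a branch -/
noncomputable def ind (𝕜 : Type) [RCLike 𝕜] (σ : Br) (t : Node) : 𝕜 := by
  classical exact if t = res σ t.1 then 1 else 0

lemma ind_pos {σ : Br} {t : Node} (h : t = res σ t.1) : ind 𝕜 σ t = 1 := by
  unfold ind; rw [if_pos h]

lemma ind_neg {σ : Br} {t : Node} (h : ¬ t = res σ t.1) : ind 𝕜 σ t = 0 := by
  unfold ind; rw [if_neg h]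

lemma ind_res (σ β : Br) (n : ℕ) [Decidable (agr β σ n)] :
    ind 𝕜 σ (res β n) = if agr β σ n then 1 else 0 := by
  split_ifs with h
  · exact ind_pos (res_eq_iff.mpr h)
  · exact ind_neg fun h' => h (res_eq_iff.mp h')

lemma VI_ind (σ : Br) : VI (ind 𝕜 σ) 1 := by
  classical
  constructor
  · intro ρ N
    have : (fun n => ind 𝕜 σ (res ρ n)) = fun n => if agr ρ σ n then (1 : 𝕜) else 0 := by
      funext n; exact ind_res _ _ _
    rw [this]
    simpa using W_agr (1 : 𝕜) ρ σ N
  · intro ρ β p q J hpq hJ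
    refine sum_le_of_atMostOne zero_le_one J (fun i _ => ?_) fun i hi i' hi' hii => ?_
    · rw [ind_res]; split_ifs <;> simp
    · by_contra hcon
      push Not at hcon
      rw [ind_res, ind_res] at hcon
      have h1 : agr (β i) σ (q i) := by
        by_contra h; simp [h] at hcon
      have h2 : agr (β i') σ (q i') := by
        by_contra h; simp [h] at hcon
      have h3 : q i ≤ p i' := hpq.le hii
      have h4 : agr σ ρ (q i) := (h2.mono (h3.trans (hpq i').1)).symm.trans ((hJ i' hi').1.mono h3)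
      exact (hJ i hi).2 (h1.trans h4)

/-- separated family of branches -/
lemma VI_sep (F : Finset Br) (a : Br → 𝕜) {A : ℝ} (hA : 0 ≤ A) (ha : ∀ σ ∈ F, ‖a σ‖ ≤ A) (m : ℕ)
    (hm : ∀ σ ∈ F, ∀ τ ∈ F, agr σ τ m → σ = τ) :
    VI (fun t : Node => if t.1 < m then (0:𝕜) else ∑ σ ∈ F, a σ * ind 𝕜 σ t) (2 * A) := by
  classical
  set s : Node → 𝕜 := fun t : Node => if t.1 < m then (0:𝕜) else ∑ σ ∈ F, a σ * ind 𝕜 σ t with hs
  -- value formula
  have hval0 : ∀ β n, n < m → s (res β n) = 0 := fun β n hn => if_pos hn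
  have hval1 : ∀ β n, m ≤ n → (∀ σ ∈ F, ¬ agr β σ n) → s (res β n) = 0 := fun β n hn h => by
    refine (if_neg (show ¬ (res β n).1 < m from not_lt.mpr hn)).trans ?_
    refine Finset.sum_eq_zero fun σ hσ => ?_
    rw [ind_res, if_neg (h σ hσ), mul_zero]
  have hval2 : ∀ β n, m ≤ n → ∀ σ ∈ F, agr β σ n → s (res β n) = a σ := fun β n hn σ hσ h => by
    refine (if_neg (show ¬ (res β n).1 < m from not_lt.mpr hn)).trans ?_
    rw [Finset.sum_eq_single σ]
    · rw [ind_res, if_pos h, mul_one]
    · intro τ hτ hτσ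
      rw [ind_res, if_neg, mul_zero]
      intro h'
      exact hτσ (hm τ hτ σ hσ ((h'.symm.trans h).mono hn))
    · exact fun h' => absurd hσ h'
  constructor
  · intro ρ N
    by_cases h : ∃ σ ∈ F, agr ρ σ m
    · obtain ⟨σ, hσ, hσ2⟩ := h
      have h1 : (fun n => s (res ρ n)) = (fun n => if agr ρ σ n then a σ else 0) +
          (-1 : 𝕜) • (fun n => if n < m then (fun n => if agr ρ σ n then a σ else 0) n else 0) := by
        funext n
        simp only [Pi.add_apply, Pi.smul_apply, smul_eq_mul]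
        by_cases hn : n < m
        · rw [hval0 ρ n hn, if_pos hn]; ring
        · rw [if_neg hn]
          push Not at hn
          by_cases h2 : agr ρ σ n
          · rw [hval2 ρ n hn σ hσ h2, if_pos h2]; ring
          · rw [if_neg h2, hval1 ρ n hn]
            · ring
            · intro τ hτ h3
              have : τ = σ := hm τ hτ σ hσ ((h3.mono hn).symm.trans hσ2)
              exact h2 (this ▸ h3)
      rw [h1]
      refine (W_add _ _ _).trans ?_
      rw [W_smul, norm_neg, norm_one, one_mul]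
      have h2 := W_agr (a σ) ρ σ N
      have h3 := W_trunc (fun n => if agr ρ σ n then a σ else 0) m N
      have h4 := ha σ hσ
      linarith
    · push Not at h
      have h1 : (fun n => s (res ρ n)) = fun n => 0 := by
        funext n
        by_cases hn : n < m
        · exact hval0 ρ n hn
        · push Not at hn
          exact hval1 ρ n hn fun σ hσ h2 => h σ hσ (h2.mono hn)
      rw [h1]
      simp only [W, sub_self, norm_zero, Finset.sum_const_zero, add_zero]
      positivity
  · intro ρ β p q J hpq hJ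
    have hb : ∀ i, ‖s (res (β i) (q i))‖ ≤ A := by
      intro i
      by_cases hn : q i < m
      · rw [hval0 _ _ hn]; simpa using hA
      · push Not at hn
        by_cases h : ∃ σ ∈ F, agr (β i) σ (q i)
        · obtain ⟨σ, hσ, h2⟩ := h
          rw [hval2 _ _ hn σ hσ h2]; exact ha σ hσ
        · push Not at h
          rw [hval1 _ _ hn h]; simpa using hA
    have hnz : ∀ i, ‖s (res (β i) (q i))‖ ≠ 0 → m ≤ q i ∧ ∃ σ ∈ F, agr (β i) σ (q i) := by
      intro i hi
      by_contra hcon
      rw [not_and_or] at hcon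
      rcases hcon with h | h
      · exact hi (by rw [hval0 _ _ (not_le.mp h), norm_zero])
      · push Not at h
        by_cases hn : q i < m
        · exact hi (by rw [hval0 _ _ hn, norm_zero])
        · exact hi (by rw [hval1 _ _ (not_lt.mp hn) h, norm_zero])
    rw [← Finset.sum_filter_add_sum_filter_not J (fun i => p i < m), two_mul]
    refine add_le_add ?_ ?_
    · refine sum_le_of_atMostOne hA _ (fun i _ => hb i) fun i hi i' hi' hii => ?_
      by_contra hcon
      push Not at hcon
      have h1 := hnz i hcon.1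
      have h2 := hpq.le hii
      rw [Finset.mem_filter] at hi'
      omega
    · refine sum_le_of_atMostOne hA _ (fun i _ => hb i) fun i hi i' hi' hii => ?_
      by_contra hcon
      push Not at hcon
      obtain ⟨h1, σ, hσ, hσ2⟩ := hnz i hcon.1
      obtain ⟨h1', τ, hτ, hτ2⟩ := hnz i' hcon.2
      rw [Finset.mem_filter, not_lt] at hi hi'
      have h3 : q i ≤ p i' := hpq.le hii
      have h4 : agr τ ρ (q i) :=
        (hτ2.mono (h3.trans (hpq i').1)).symm.trans ((hJ i' hi'.1).1.mono h3)
      have h5 : agr σ ρ m := (hσ2.mono h1).symm.trans ((hJ i hi.1).1.mono hi.2)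
      have h6 : σ = τ := hm σ hσ τ hτ (h5.trans (h4.mono h1).symm)
      subst h6
      exact (hJ i hi.1).2 (hσ2.trans h4)

lemma VI_single (t : Node) (x : 𝕜) : VI (Pi.single (M := fun _ => 𝕜) t x) (2 * ‖x‖) := by
  classical
  have hle : ∀ β n, ‖Pi.single (M := fun _ => 𝕜) t x (res β n)‖ ≤ if n = t.1 then ‖x‖ else 0 := by
    intro β n
    by_cases h : res β n = t
    · rw [h, Pi.single_eq_same, if_pos (by rw [← h]; rfl)]
    · rw [Pi.single_eq_of_ne h, norm_zero]
      split_ifs <;> positivity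
  constructor
  · intro σ N
    unfold W
    calc _ ≤ ∑ n ∈ Finset.range N, (‖Pi.single (M := fun _ => 𝕜) t x (res σ (n + 1))‖
          + ‖Pi.single (M := fun _ => 𝕜) t x (res σ n)‖)
          + ‖Pi.single (M := fun _ => 𝕜) t x (res σ N)‖ :=
          add_le_add_left (Finset.sum_le_sum fun n _ => norm_sub_le _ _) _
      _ ≤ ∑ n ∈ Finset.range N, ((if n + 1 = t.1 then ‖x‖ else 0) + (if n = t.1 then ‖x‖ else 0))
          + (if N = t.1 then ‖x‖ else 0) :=
          add_le_add (Finset.sum_le_sum fun n _ => add_le_add (hle _ _) (hle _ _)) (hle _ _)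
      _ = (∑ n ∈ Finset.range N, if n + 1 = t.1 then ‖x‖ else 0)
          + ∑ n ∈ Finset.range (N + 1), (if n = t.1 then ‖x‖ else 0) := by
          rw [Finset.sum_add_distrib, Finset.sum_range_succ _ N]; ring
      _ ≤ (∑ n ∈ Finset.range (N + 1), if n = t.1 then ‖x‖ else 0)
          + ∑ n ∈ Finset.range (N + 1), (if n = t.1 then ‖x‖ else 0) := by
          refine add_le_add_left ?_ _
          rw [Finset.sum_range_succ' _ N]
          refine le_add_of_nonneg_right ?_
          split_ifs <;> positivity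
      _ ≤ ‖x‖ + ‖x‖ := by
          have : (∑ n ∈ Finset.range (N + 1), if n = t.1 then ‖x‖ else 0) ≤ ‖x‖ := by
            rw [Finset.sum_ite_eq']
            split_ifs <;> simp
          exact add_le_add this this
      _ = 2 * ‖x‖ := by ring
  · intro σ β p q J hpq hJ
    refine le_trans (sum_le_of_atMostOne (D := ‖x‖) (norm_nonneg _) J (fun i _ => ?_)
      fun i hi i' hi' hii => ?_) (by linarith [norm_nonneg x])
    · refine (hle _ _).trans ?_
      split_ifs <;> simp
    · by_contra hcon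
      push Not at hcon
      have h1 : q i = t.1 := by
        by_contra h
        have := hle (β i) (q i)
        rw [if_neg h] at this
        exact hcon.1 (le_antisymm this (norm_nonneg _))
      have h2 : q i' = t.1 := by
        by_contra h
        have := hle (β i') (q i')
        rw [if_neg h] at this
        exact hcon.2 (le_antisymm this (norm_nonneg _))
      have h3 : q i ≤ p i' := hpq.le hii
      obtain ⟨h4, h5⟩ := hJ i' hi'
      exact h5 (h4.mono (by omega))

/-- The inner system. -/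
noncomputable def SI (𝕜 : Type) [RCLike 𝕜] : Sys 𝕜 (fun _ : Node => 𝕜) where
  lev t := t.1
  finlev n := finlev_node n
  VB := VI
  Psi j := ∏ k ∈ Finset.range j, (2:ℝ) ^ (k + 1)
  Psi0 := by simp
  PsiS j := by rw [Finset.prod_range_succ, mul_comm]
  mono h hC := h.mono hC
  zero := by
    constructor
    · intro σ N; simp [W]
    · intro σ β p q J _ _; simp
  add := by
    rintro s s' C C' ⟨h1, h2⟩ ⟨h1', h2'⟩
    constructor
    · intro σ N
      exact (W_add _ _ _).trans (add_le_add (h1 σ N) (h1' σ N))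
    · intro σ β p q J hpq hJ
      calc ∑ i ∈ J, ‖(s + s') (res (β i) (q i))‖
          ≤ ∑ i ∈ J, (‖s (res (β i) (q i))‖ + ‖s' (res (β i) (q i))‖) :=
            Finset.sum_le_sum fun i _ => norm_add_le _ _
        _ ≤ _ := by
            rw [Finset.sum_add_distrib]
            exact add_le_add (h2 σ β p q J hpq hJ) (h2' σ β p q J hpq hJ)
  smul := by
    rintro s C c ⟨h1, h2⟩
    constructor
    · intro σ N
      have := W_smul c (fun n => s (res σ n)) N
      refine le_of_eq_of_le this (mul_le_mul_of_nonneg_left (h1 σ N) (norm_nonneg _))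
    · intro σ β p q J hpq hJ
      simp only [Pi.smul_apply, norm_smul, ← Finset.mul_sum]
      exact mul_le_mul_of_nonneg_left (h2 σ β p q J hpq hJ) (norm_nonneg _)
  bdd h i := VI.bdd h i
  trunc := by
    rintro s C m ⟨h1, h2⟩
    constructor
    · intro σ N
      exact (W_trunc (fun n => s (res σ n)) m N).trans (h1 σ N)
    · intro σ β p q J hpq hJ
      refine le_trans (Finset.sum_le_sum fun i _ => ?_) (h2 σ β p q J hpq hJ)
      unfold tr
      split_ifs
      · exact le_rfl
      · simp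
  single i x := VI_single i x
  closed := by
    intro s z C hz hs
    constructor
    · intro σ N
      refine le_of_tendsto (x := (hyperfilter ℕ : Filter ℕ))
        (f := fun k => W (fun n => s k (res σ n)) N) ?_
        (Eventually.of_forall fun k => (hs k).1 σ N)
      unfold W
      exact (tendsto_finsetSum _ fun n _ => ((hz _).sub (hz _)).norm).add (hz _).norm
    · intro σ β p q J hpq hJ
      exact le_of_tendsto (tendsto_finsetSum _ fun i _ => (hz (res (β i) (q i))).norm)
        (Eventually.of_forall fun k => (hs k).2 σ β p q J hpq hJ)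

end VI

end Pool.Agent.U559.Itp
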