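import Pool.Agent.U559.Itp.Inner

open Filter Topology

set_option linter.unusedSectionVars false

namespace Pool.Agent.U559.Itp

variable {𝕜 : Type} [RCLike 𝕜]

/-- the inner space -/
abbrev Y (𝕜 : Type) [RCLike 𝕜] : Type := (SI 𝕜).X

lemma exists_rep (y : Y 𝕜) (j : ℕ) {t : ℝ} (ht : ‖y‖ < t) :
    ∃ s, VI s (t * (SI 𝕜).Psi j) ∧ ∀ i, ‖(SI 𝕜).val y i - s i‖ ≤ t * (1 / 2) ^ j :=
  (SI 𝕜).R_of_lt ((SI 𝕜).adm y) (((SI 𝕜).N_le_norm j y).trans_lt ht)

lemma VI.var {s : Node → 𝕜} {C : ℝ} (h : VI s C) (σ : Br) (N : ℕ) :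
    ∑ n ∈ Finset.range N, ‖s (res σ (n + 1)) - s (res σ n)‖ ≤ C := by
  have := h.1 σ N
  unfold W at this
  linarith [norm_nonneg (s (res σ N))]

lemma exists_pow_small {t ε : ℝ} (hε : 0 < ε) : ∃ j : ℕ, t * (1 / 2) ^ j ≤ ε := by
  have h1 : Tendsto (fun j : ℕ => t * (1 / 2 : ℝ) ^ j) atTop (𝓝 (t * 0)) :=
    (tendsto_pow_atTop_nhds_zero_of_lt_one (by norm_num) (by norm_num)).const_mul _
  rw [mul_zero] at h1
  exact (h1.eventually_le_const hε).exists

lemma brl_cauchy (y : Y 𝕜) (σ : Br) : CauchySeq fun n => (SI 𝕜).val y (res σ n) := by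
  rw [Metric.cauchySeq_iff']
  intro ε hε
  obtain ⟨j, hj⟩ := exists_pow_small (t := ‖y‖ + 1) (show 0 < ε / 4 by positivity)
  obtain ⟨s, hs1, hs2⟩ := exists_rep y j (lt_add_one ‖y‖)
  have h1 : CauchySeq fun n => s (res σ n) := by
    refine cauchySeq_of_summable_dist ?_
    refine summable_of_sum_range_le (fun _ => dist_nonneg) (fun n => ?_)
      (c := (‖y‖ + 1) * (SI 𝕜).Psi j)
    refine le_trans (le_of_eq (Finset.sum_congr rfl fun k _ => ?_)) (hs1.var σ n)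
    rw [dist_comm, dist_eq_norm]
  obtain ⟨n0, hn0⟩ := Metric.cauchySeq_iff'.mp h1 (ε / 4) (by positivity)
  refine ⟨n0, fun n hn => ?_⟩
  have h2 := hn0 n hn
  rw [dist_eq_norm] at *
  have h3 := hs2 (res σ n)
  have h4 := hs2 (res σ n0)
  have h5 : (SI 𝕜).val y (res σ n) - (SI 𝕜).val y (res σ n0) =
    ((SI 𝕜).val y (res σ n) - s (res σ n)) + (s (res σ n) - s (res σ n0)) +
      -((SI 𝕜).val y (res σ n0) - s (res σ n0)) := by ring
  rw [h5]
  calc _ ≤ ‖(SI 𝕜).val y (res σ n) - s (res σ n)‖ + ‖s (res σ n) - s (res σ n0)‖ +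
      ‖-((SI 𝕜).val y (res σ n0) - s (res σ n0))‖ :=
        (norm_add_le _ _).trans (add_le_add_left (norm_add_le _ _) _)
    _ < ε := by rw [norm_neg]; linarith

/-- limit along a branch -/
noncomputable def brl (σ : Br) : Y 𝕜 →L[𝕜] 𝕜 :=
  LinearMap.mkContinuous
    { toFun := fun y => (cauchySeq_tendsto_of_complete (brl_cauchy y σ)).choose
      map_add' := fun x y => by
        refine tendsto_nhds_unique (cauchySeq_tendsto_of_complete (brl_cauchy (x + y) σ)).choose_spec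
          ?_
        have h1 := (cauchySeq_tendsto_of_complete (brl_cauchy x σ)).choose_spec
        have h2 := (cauchySeq_tendsto_of_complete (brl_cauchy y σ)).choose_spec
        refine (h1.add h2).congr fun n => ?_
        rw [map_add, Pi.add_apply]
      map_smul' := fun c x => by
        refine tendsto_nhds_unique (cauchySeq_tendsto_of_complete (brl_cauchy (c • x) σ)).choose_spec
          ?_
        have h1 := (cauchySeq_tendsto_of_complete (brl_cauchy x σ)).choose_spec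
        refine (h1.const_smul c).congr fun n => ?_
        rw [map_smul, Pi.smul_apply] } 2 (fun x => by
          have h1 := (cauchySeq_tendsto_of_complete (brl_cauchy x σ)).choose_spec
          exact le_of_tendsto h1.norm (Eventually.of_forall fun n => (SI 𝕜).coord_le x _))

lemma brl_tendsto (σ : Br) (y : Y 𝕜) :
    Tendsto (fun n => (SI 𝕜).val y (res σ n)) atTop (𝓝 (brl σ y)) :=
  (cauchySeq_tendsto_of_complete (brl_cauchy y σ)).choose_spec

lemma brl_le (σ : Br) (y : Y 𝕜) : ‖brl σ y‖ ≤ 2 * ‖y‖ :=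
  le_of_tendsto (brl_tendsto σ y).norm (Eventually.of_forall fun _ => (SI 𝕜).coord_le y _)

lemma agr_nhds (σ : Br) (m : ℕ) : {β : Br | agr β σ m} ∈ 𝓝 σ := by
  change ∀ᶠ β in 𝓝 σ, ∀ i < m, β i = σ i
  have : ∀ᶠ β in 𝓝 σ, ∀ i ∈ Finset.range m, β i = σ i := by
    rw [Filter.eventually_all_finset]
    intro i _
    have h : Tendsto (fun β : Br => β i) (𝓝 σ) (𝓝 (σ i)) := (continuous_apply i).tendsto σ
    rw [nhds_discrete Bool, tendsto_pure] at h
    exact h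
  filter_upwards [this] with β hβ i hi
  exact hβ i (Finset.mem_range.mpr hi)

/-- off-branch smallness -/
lemma off_small (y : Y 𝕜) (σ : Br) {ε : ℝ} (hε : 0 < ε) :
    ∃ m, ∀ β n, agr β σ m → ¬ agr β σ n → ‖(SI 𝕜).val y (res β n)‖ < ε := by
  by_contra hcon
  push Not at hcon
  choose B Q h1 h2 h3 using hcon
  set p : ℕ → ℕ := fun k => Nat.rec 0 (fun _ a => Q a) k with hp
  have hps : ∀ k, p (k + 1) = Q (p k) := fun k => rfl
  obtain ⟨j, hj⟩ := exists_pow_small (t := ‖y‖ + 1) (show 0 < ε / 2 by positivity)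
  obtain ⟨s, hs1, hs2⟩ := exists_rep y j (lt_add_one ‖y‖)
  have hint : Intl p (fun k => Q (p k)) := by
    intro i
    refine ⟨?_, le_of_eq (hps i).symm⟩
    by_contra h
    push Not at h
    exact h2 (p i) ((h1 (p i)).mono h.le)
  have key : ∀ K : ℕ, K * (ε / 2) ≤ (‖y‖ + 1) * (SI 𝕜).Psi j := by
    intro K
    refine le_trans ?_ (hs1.2 σ (fun k => B (p k)) p (fun k => Q (p k)) (Finset.range K) hint
      fun i _ => ⟨h1 (p i), h2 (p i)⟩)
    calc K * (ε / 2) = ∑ i ∈ Finset.range K, ε / 2 := by simp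
      _ ≤ _ := by
        refine Finset.sum_le_sum fun i _ => ?_
        have e1 := h3 (p i)
        have e2 := hs2 (res (B (p i)) (Q (p i)))
        have e3 := norm_sub_norm_le ((SI 𝕜).val y (res (B (p i)) (Q (p i))))
          (s (res (B (p i)) (Q (p i))))
        linarith
  obtain ⟨K, hK⟩ := exists_nat_gt ((‖y‖ + 1) * (SI 𝕜).Psi j / (ε / 2))
  rw [div_lt_iff₀ (by positivity)] at hK
  exact absurd (key K) (not_le.mpr hK)

/-- large values live on finitely many branches -/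
lemma large_finite (y : Y 𝕜) {ε : ℝ} (hε : 0 < ε) :
    ∃ F : Finset Br, ∀ t : Node, ε ≤ ‖(SI 𝕜).val y t‖ → ∃ σ ∈ F, t = res σ t.1 := by
  choose m hm using fun σ => off_small y σ hε
  obtain ⟨F, -, hF⟩ := isCompact_univ.elim_nhds_subcover (fun σ => {β : Br | agr β σ (m σ)})
    fun σ _ => agr_nhds σ (m σ)
  refine ⟨F, fun t ht => ?_⟩
  obtain ⟨β, hβ⟩ := exists_res t
  have hβF := hF (Set.mem_univ β)
  simp only [Set.mem_iUnion] at hβF
  obtain ⟨σ, hσ, hσ2⟩ := hβF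
  refine ⟨σ, hσ, ?_⟩
  by_contra h
  have h2 : ¬ agr β σ t.1 := fun h3 => h (by rw [hβ]; exact res_eq_iff.mpr h3)
  have := hm σ β t.1 hσ2 h2
  rw [← hβ] at this
  linarith

/-- indicators of branches -/
lemma exists_one (σ : Br) : ∃ w : Y 𝕜, (SI 𝕜).val w = ind 𝕜 σ ∧ ‖w‖ ≤ 2 * 1 :=
  (SI 𝕜).exists_mk_VB zero_le_one (VI_ind σ)

noncomputable def one (σ : Br) : Y 𝕜 := (exists_one σ).choose

lemma val_one (σ : Br) : (SI 𝕜).val (one σ) = ind 𝕜 σ := (exists_one σ).choose_spec.1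

lemma exists_sep (F : Finset Br) : ∃ m, ∀ σ ∈ F, ∀ τ ∈ F, agr σ τ m → σ = τ := by
  classical
  have h1 : ∀ σ τ : Br, ∃ m, σ ≠ τ → ¬ agr σ τ m := by
    intro σ τ
    by_cases h : σ = τ
    · exact ⟨0, fun h' => absurd h h'⟩
    · obtain ⟨i, hi⟩ := Function.ne_iff.mp h
      exact ⟨i + 1, fun _ h' => hi (h' i (Nat.lt_succ_self i))⟩
  choose m hm using h1
  refine ⟨F.sup fun σ => F.sup fun τ => m σ τ, fun σ hσ τ hτ h => ?_⟩
  by_contra hne
  refine hm σ τ hne (h.mono ?_)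
  exact (Finset.le_sup (f := fun τ => m σ τ) hτ).trans
    (Finset.le_sup (f := fun σ => F.sup fun τ => m σ τ) hσ)

/-- value of the tail of a combination of branches -/
lemma val_comb_sub (F : Finset Br) (a : Br → 𝕜) (m : ℕ) :
    (SI 𝕜).val (∑ σ ∈ F, a σ • one σ - (SI 𝕜).tau m (∑ σ ∈ F, a σ • one σ)) =
      fun t : Node => if t.1 < m then (0:𝕜) else ∑ σ ∈ F, a σ * ind 𝕜 σ t := by
  funext t
  rw [map_sub, Pi.sub_apply]
  split_ifs with h
  · rw [(SI 𝕜).val_tau_lt (show (SI 𝕜).lev t < m from h), sub_self]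
  · rw [(SI 𝕜).val_tau_ge (show m ≤ (SI 𝕜).lev t from not_lt.mp h), sub_zero, map_sum,
      Finset.sum_apply]
    simp only [map_smul, Pi.smul_apply, smul_eq_mul, val_one]

lemma comb_norm (F : Finset Br) (a : Br → 𝕜) {A : ℝ} (hA : 0 ≤ A) (ha : ∀ σ ∈ F, ‖a σ‖ ≤ A) :
    ∃ m, ‖∑ σ ∈ F, a σ • one σ - (SI 𝕜).tau m (∑ σ ∈ F, a σ • one σ)‖ ≤ 4 * A := by
  obtain ⟨m, hm⟩ := exists_sep F
  refine ⟨m, ?_⟩
  have h0 : (SI 𝕜).VB (fun t : Node => if t.1 < m then (0:𝕜) else ∑ σ ∈ F, a σ * ind 𝕜 σ t)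
    (2 * A) := VI_sep F a hA ha m hm
  obtain ⟨w, hw, hw2⟩ := (SI 𝕜).exists_mk_VB (by positivity) h0
  have : w = ∑ σ ∈ F, a σ • one σ - (SI 𝕜).tau m (∑ σ ∈ F, a σ • one σ) := by
    apply (SI 𝕜).val_inj
    rw [hw, val_comb_sub]
  rw [← this]
  linarith

/-- Elements are, modulo finitely supported ones, limits of combinations of branches. -/
lemma approx (y : Y 𝕜) {ε : ℝ} (hε : 0 < ε) : ∃ F0 : Finset Br, ∀ F : Finset Br, F0 ⊆ F →
    ∃ m, ‖(y - ∑ σ ∈ F, brl σ y • one σ) -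
      (SI 𝕜).tau m (y - ∑ σ ∈ F, brl σ y • one σ)‖ ≤ ε := by
  set b : ℕ → ℝ := fun j => 2 * (SI 𝕜).N j ((SI 𝕜).val y) + 4 * ‖y‖ * (1 / 2) ^ j with hb
  have hbs : Summable fun j => b j ^ 2 := by
    have h1 : Summable fun j => 8 * (SI 𝕜).N j ((SI 𝕜).val y) ^ 2 +
        2 * (4 * ‖y‖) ^ 2 * (1 / 4) ^ j :=
      (((SI 𝕜).summ y).mul_left 8).add
        ((summable_geometric_of_lt_one (by norm_num) (by norm_num)).mul_left _)
    refine Summable.of_nonneg_of_le (fun _ => sq_nonneg _) (fun j => ?_) h1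
    have h4 : ((1:ℝ) / 4) ^ j = ((1 / 2) ^ j) ^ 2 := by
      rw [← pow_mul, mul_comm j 2, pow_mul]; norm_num
    rw [h4, hb]
    nlinarith [sq_nonneg (2 * (SI 𝕜).N j ((SI 𝕜).val y) - 4 * ‖y‖ * (1 / 2) ^ j)]
  obtain ⟨δ, hδ, hδ2⟩ := (SI 𝕜).small_of_sup hbs hε
  obtain ⟨F0, hF0⟩ := large_finite y hδ
  refine ⟨F0, fun F hF => ?_⟩
  obtain ⟨m1, hm1⟩ := exists_sep F
  have h2 : ∀ σ : Br, ∃ n0, ∀ n ≥ n0, ‖(SI 𝕜).val y (res σ n) - brl σ y‖ ≤ δ := by
    intro σ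
    obtain ⟨n0, hn0⟩ := Metric.tendsto_atTop.mp (brl_tendsto σ y) δ hδ
    exact ⟨n0, fun n hn => by rw [← dist_eq_norm]; exact (hn0 n hn).le⟩
  choose n0 hn0 using h2
  set m := max m1 (F.sup n0) with hm
  refine ⟨m, hδ2 _ (fun j => ?_) fun t => ?_⟩
  · -- gauge bound
    have e1 : (y - ∑ σ ∈ F, brl σ y • one σ) - (SI 𝕜).tau m (y - ∑ σ ∈ F, brl σ y • one σ)
        = (y + -((SI 𝕜).tau m y)) + -(∑ σ ∈ F, brl σ y • one σ -
          (SI 𝕜).tau m (∑ σ ∈ F, brl σ y • one σ)) := by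
      rw [map_sub]; abel
    rw [e1]
    set z : Y 𝕜 := ∑ σ ∈ F, brl σ y • one σ - (SI 𝕜).tau m (∑ σ ∈ F, brl σ y • one σ) with hz
    have e2 : (SI 𝕜).N j ((SI 𝕜).val z) ≤ (2 * (2 * ‖y‖)) / (SI 𝕜).Psi j := by
      refine (SI 𝕜).N_VB (by positivity) ?_
      rw [hz, val_comb_sub]
      exact VI_sep F _ (by positivity) (fun σ _ => brl_le σ y) m
        (fun σ hσ τ hτ h => hm1 σ hσ τ hτ (h.mono (le_max_left _ _)))
    have e3 : (2 * (2 * ‖y‖)) / (SI 𝕜).Psi j ≤ 4 * ‖y‖ * (1 / 2) ^ j := by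
      rw [div_eq_mul_inv, one_div, inv_pow]
      refine mul_le_mul (by linarith) (inv_anti₀ (by positivity) ((SI 𝕜).Psi_ge j))
        (inv_nonneg.mpr ((SI 𝕜).Psi_pos j).le) (by positivity)
    have a1 := (SI 𝕜).N_add (j := j) ((SI 𝕜).adm (y + -((SI 𝕜).tau m y))) ((SI 𝕜).adm (-z))
    have a2 := (SI 𝕜).N_add (j := j) ((SI 𝕜).adm y) ((SI 𝕜).adm (-((SI 𝕜).tau m y)))
    have a3 := (SI 𝕜).N_neg j ((SI 𝕜).adm z)
    have a4 := (SI 𝕜).N_neg j ((SI 𝕜).adm ((SI 𝕜).tau m y))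
    have a5 := (SI 𝕜).N_tr (j := j) ((SI 𝕜).adm y) m
    rw [← (SI 𝕜).val_tau] at a5
    rw [← map_add] at a1 a2
    rw [← map_neg] at a3 a4
    simp only [hb]
    linarith
  · -- sup bound
    by_cases ht : t.1 < m
    · rw [map_sub, Pi.sub_apply, (SI 𝕜).val_tau_lt (show (SI 𝕜).lev t < m from ht), sub_self,
        norm_zero]
      exact hδ.le
    · rw [map_sub, Pi.sub_apply, (SI 𝕜).val_tau_ge (show m ≤ (SI 𝕜).lev t from not_lt.mp ht),
        sub_zero, map_sub, Pi.sub_apply, map_sum, Finset.sum_apply]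
      simp only [map_smul, Pi.smul_apply, smul_eq_mul, val_one]
      push Not at ht
      by_cases hon : ∃ σ ∈ F, t = res σ t.1
      · obtain ⟨σ, hσ, hσ2⟩ := hon
        rw [Finset.sum_eq_single σ]
        · rw [ind_pos hσ2, mul_one]
          rw [hσ2]
          refine hn0 σ t.1 ?_
          exact (Finset.le_sup (f := n0) hσ).trans ((le_max_right _ _).trans ht)
        · intro τ hτ hτσ
          rw [ind_neg, mul_zero]
          intro h
          refine hτσ (hm1 τ hτ σ hσ ?_)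
          have h3 : res τ t.1 = res σ t.1 := h.symm.trans hσ2
          exact (res_eq_iff.mp h3).mono ((le_max_left _ _).trans ht)
        · exact fun h => absurd hσ h
      · push Not at hon
        rw [Finset.sum_eq_zero fun σ hσ => by rw [ind_neg (hon σ hσ), mul_zero], sub_zero]
        by_contra hcon
        push Not at hcon
        obtain ⟨σ, hσ, h⟩ := hF0 t hcon.le
        exact hon σ (hF hσ) h

end Pool.Agent.U559.Itp
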