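import Pool.Agent.U559.Itp.InnerB

open Filter Topology

set_option linter.unusedSectionVars false

namespace Pool.Agent.U559.Itp

variable {𝕜 : Type} [RCLike 𝕜]

section WUC

variable {Z : Type} [NormedAddCommGroup Z] [NormedSpace 𝕜 Z]

/-- uniformly bounded finite combinations -/
def WUC (𝕜 : Type) [RCLike 𝕜] {Z : Type} [NormedAddCommGroup Z] [NormedSpace 𝕜 Z]
    (w : ℕ → Z) (M : ℝ) : Prop :=
  ∀ (F : Finset ℕ) (c : ℕ → 𝕜), (∀ k, ‖c k‖ ≤ 1) → ‖∑ k ∈ F, c k • w k‖ ≤ M

lemma WUC.comp {w : ℕ → Z} {M : ℝ} (h : WUC 𝕜 w M) {φ : ℕ → ℕ} (hφ : Function.Injective φ) :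
    WUC 𝕜 (w ∘ φ) M := by
  classical
  intro F c hc
  have h1 := h (F.image φ) (Function.extend φ c 0) (fun k => by
    by_cases hk : ∃ i, φ i = k
    · obtain ⟨i, rfl⟩ := hk
      rw [hφ.extend_apply]; exact hc i
    · rw [Function.extend_apply' _ _ _ hk]; simp)
  rw [Finset.sum_image fun x _ y _ hxy => hφ hxy] at h1
  simpa [hφ.extend_apply] using h1

lemma WUC.nonneg {w : ℕ → Z} {M : ℝ} (h : WUC 𝕜 w M) : 0 ≤ M := by
  simpa using h ∅ 0 (fun k => by simp)

lemma WUC.functional {w : ℕ → Z} {M : ℝ} (h : WUC 𝕜 w M) (f : Z →L[𝕜] 𝕜) :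
    Tendsto (fun k => f (w k)) atTop (𝓝 0) := by
  choose c hc1 hc2 using fun k => Sys.unimod (f (w k))
  have h1 : Summable fun k => ‖f (w k)‖ := by
    refine summable_of_sum_range_le (fun _ => norm_nonneg _) (fun n => ?_) (c := ‖f‖ * M)
    have h2 := f.le_opNorm (∑ k ∈ Finset.range n, c k • w k)
    have h3 := h (Finset.range n) c hc1
    have h4 : f (∑ k ∈ Finset.range n, c k • w k) = ((∑ k ∈ Finset.range n, ‖f (w k)‖ : ℝ) : 𝕜) := by
      rw [map_sum]; push_cast
      exact Finset.sum_congr rfl fun k _ => by rw [map_smul, smul_eq_mul, hc2]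
    rw [h4, RCLike.norm_ofReal, abs_of_nonneg (Finset.sum_nonneg fun _ _ => norm_nonneg _)] at h2
    exact h2.trans (mul_le_mul_of_nonneg_left h3 (norm_nonneg _))
  exact tendsto_zero_iff_norm_tendsto_zero.mpr h1.tendsto_atTop_zero

/-- averaging over signs -/
lemma avg_fin {ι : Type} [Fintype ι] [DecidableEq ι] (q : ι → Z → ℝ)
    (hq : ∀ i x y, 2 * q i y ≤ q i (x + y) + q i (x - y)) (w : ι → Z) {B : ℝ}
    (hB : ∀ e : ι → Bool, ∑ i, q i (∑ l, (if e l then (1:𝕜) else -1) • w l) ≤ B) :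
    ∑ i, q i (w i) ≤ B := by
  classical
  set z : (ι → Bool) → Z := fun e => ∑ l, (if e l then (1:𝕜) else -1) • w l with hz
  have h1 : ∀ i, (Fintype.card (ι → Bool) : ℝ) * q i (w i) ≤ ∑ e : ι → Bool, q i (z e) := by
    intro i
    have hinv : Function.Involutive (fun e : ι → Bool => Function.update e i (!(e i))) := by
      intro e; funext l
      by_cases hl : l = i
      · subst hl; simp
      · simp [Function.update_of_ne hl]
    have h2 : ∑ e : ι → Bool, q i (z (Function.update e i (!(e i)))) = ∑ e, q i (z e) :=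
      Equiv.sum_comp (hinv.toPerm) (fun e => q i (z e))
    have h3 : ∀ e : ι → Bool, 2 * q i (w i) ≤ q i (z e) + q i (z (Function.update e i (!(e i)))) := by
      intro e
      set x := ∑ l ∈ Finset.univ.erase i, (if e l then (1:𝕜) else -1) • w l with hx
      have e1 : z e = x + (if e i then (1:𝕜) else -1) • w i := by
        rw [hz, hx]; exact (Finset.sum_erase_add _ _ (Finset.mem_univ i)).symm
      have e2 : z (Function.update e i (!(e i))) = x + (if !(e i) then (1:𝕜) else -1) • w i := by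
        rw [hz]
        dsimp only
        rw [← Finset.sum_erase_add _ _ (Finset.mem_univ i), hx, Function.update_self]
        congr 1
        refine Finset.sum_congr rfl fun l hl => ?_
        rw [Function.update_of_ne (Finset.ne_of_mem_erase hl)]
      rw [e1, e2]
      have := hq i x (w i)
      by_cases he : e i
      · simpa [he, ← sub_eq_add_neg] using this
      · simp only [he, Bool.false_eq_true, if_false, Bool.not_false, if_true, neg_smul, one_smul,
          ← sub_eq_add_neg]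
        linarith
    have h4 := Finset.sum_le_sum fun e (_ : e ∈ (Finset.univ : Finset (ι → Bool))) => h3 e
    rw [Finset.sum_add_distrib, h2] at h4
    simp only [Finset.sum_const, Finset.card_univ, nsmul_eq_mul] at h4
    linarith
  have h2 := Finset.sum_le_sum fun i (_ : i ∈ (Finset.univ : Finset ι)) => h1 i
  rw [← Finset.mul_sum, Finset.sum_comm] at h2
  have h3 : ∑ e : ι → Bool, ∑ i, q i (z e) ≤ ∑ e : ι → Bool, B := Finset.sum_le_sum fun e _ => hB e
  simp only [Finset.sum_const, Finset.card_univ, nsmul_eq_mul] at h3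
  have h4 : (0:ℝ) < Fintype.card (ι → Bool) := by exact_mod_cast Fintype.card_pos
  exact le_of_mul_le_mul_left (h2.trans h3) h4

lemma avg_range (q : ℕ → Z → ℝ)
    (hq : ∀ i x y, 2 * q i y ≤ q i (x + y) + q i (x - y)) (w : ℕ → Z) (K : ℕ) {B : ℝ}
    (hB : ∀ c : ℕ → 𝕜, (∀ k, ‖c k‖ ≤ 1) →
      ∑ i ∈ Finset.range K, q i (∑ l ∈ Finset.range K, c l • w l) ≤ B) :
    ∑ i ∈ Finset.range K, q i (w i) ≤ B := by
  classical
  rw [Finset.sum_range]
  refine avg_fin (𝕜 := 𝕜) (fun i : Fin K => q i) (fun i => hq i) (fun i : Fin K => w i) fun e => ?_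
  have h1 := hB (fun k => if h : k < K then (if e ⟨k, h⟩ then (1:𝕜) else -1) else 0) (fun k => by
    split_ifs <;> simp)
  rw [Finset.sum_range, Finset.sum_range] at h1
  simpa using h1

end WUC

/-- the gauges satisfy the averaging inequality -/
lemma N_avg (j : ℕ) (x y : Y 𝕜) : 2 * (SI 𝕜).N j ((SI 𝕜).val y) ^ 2 ≤
    (SI 𝕜).N j ((SI 𝕜).val (x + y)) ^ 2 + (SI 𝕜).N j ((SI 𝕜).val (x - y)) ^ 2 := by
  have h1 := (SI 𝕜).N_add (j := j) ((SI 𝕜).adm (x + y)) ((SI 𝕜).adm (-(x - y)))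
  rw [← map_add, map_neg, (SI 𝕜).N_neg j ((SI 𝕜).adm (x - y))] at h1
  have h2 : (x + y) + -(x - y) = (2 : 𝕜) • y := by
    rw [two_smul]; abel
  rw [h2, map_smul, (SI 𝕜).N_smul _ ((SI 𝕜).adm y), RCLike.norm_ofNat] at h1
  have h3 := (SI 𝕜).N_nonneg j ((SI 𝕜).val y)
  nlinarith [sq_nonneg ((SI 𝕜).N j ((SI 𝕜).val (x + y)) - (SI 𝕜).N j ((SI 𝕜).val (x - y)))]

section step1

variable {w : ℕ → Y 𝕜} {M : ℝ} (hw : WUC 𝕜 w M)

include hw

lemma local_small (σ : Br) {δ : ℝ} (hδ : 0 < δ) :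
    ∃ m k0, ∀ k ≥ k0, ∀ β, agr β σ m → ∀ n ≥ m, ‖(SI 𝕜).val (w k) (res β n)‖ < δ := by
  classical
  by_contra hcon
  push Not at hcon
  have hb := hw.functional (brl σ)
  obtain ⟨k1, hk1⟩ := Metric.tendsto_atTop.mp hb (δ / 2) (by positivity)
  have H : ∀ m k : ℕ, ∃ k' β n n', k ≤ k' ∧ agr β σ m ∧ m ≤ n ∧ n ≤ n' ∧
      δ ≤ ‖(SI 𝕜).val (w k') (res β n)‖ ∧ ‖(SI 𝕜).val (w k') (res σ n')‖ < δ / 2 := by
    intro m k
    obtain ⟨k', hk', β, hβ, n, hn, hδn⟩ := hcon m (max k k1)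
    have h1 := hk1 k' ((le_max_right _ _).trans hk')
    rw [dist_zero_right] at h1
    have h2 := (brl_tendsto σ (w k')).norm.eventually_lt_const h1
    obtain ⟨n', hn'1, hn'2⟩ := (h2.and (eventually_ge_atTop n)).exists
    exact ⟨k', β, n, n', (le_max_left _ _).trans hk', hβ, hn, hn'2, hδn, hn'1⟩
  choose κ Bf Nf Nf' H1 H2 H3 H4 H5 H6 using H
  set st : ℕ → ℕ × ℕ := fun i => Nat.rec (0, 0) (fun _ a => (Nf' a.1 a.2, κ a.1 a.2 + 1)) i with hst
  have hsts : ∀ i, st (i + 1) = (Nf' (st i).1 (st i).2, κ (st i).1 (st i).2 + 1) := fun i => rfl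
  set p : ℕ → ℕ := fun i => (st i).1 with hp
  set φ : ℕ → ℕ := fun i => κ (st i).1 (st i).2 with hφ
  set q : ℕ → ℕ := fun i => Nf (st i).1 (st i).2 with hq
  set β : ℕ → Br := fun i => Bf (st i).1 (st i).2 with hβ
  have hps : ∀ i, p (i + 1) = Nf' (st i).1 (st i).2 := fun i => rfl
  have hint : Intl p q := fun i => ⟨H3 _ _, by rw [hps]; exact H4 _ _⟩
  have hφm : StrictMono φ := strictMono_nat_of_lt_succ fun i => by
    have h1 : κ (st i).1 (st i).2 + 1 ≤ κ (st (i+1)).1 (st (i+1)).2 := H1 _ _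
    exact h1
  -- functionals
  set ℓ : ℕ → (Node → 𝕜) → 𝕜 := fun i x =>
    if agr (β i) σ (q i) then x (res σ (p (i + 1))) - x (res σ (q i)) else x (res (β i) (q i))
    with hℓ
  have hℓadd : ∀ i x y, ℓ i (x + y) = ℓ i x + ℓ i y := by
    intro i x y
    simp only [hℓ]; split_ifs <;> simp only [Pi.add_apply]
    ring
  have hℓsub : ∀ i x y, ℓ i (x - y) = ℓ i x - ℓ i y := by
    intro i x y
    simp only [hℓ]; split_ifs <;> simp only [Pi.sub_apply]
    ring
  obtain ⟨j, hj⟩ := exists_pow_small (t := M + 1) (show 0 < δ / 8 by positivity)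
  have hM := hw.nonneg
  have key : ∀ K : ℕ, K * (δ / 4) ≤ 2 * ((M + 1) * (SI 𝕜).Psi j) := by
    intro K
    have h1 : ∑ i ∈ Finset.range K, ‖ℓ i ((SI 𝕜).val ((w ∘ φ) i))‖ ≤
        2 * ((M + 1) * (SI 𝕜).Psi j) + K * (δ / 4) := by
      refine avg_range (𝕜 := 𝕜) (fun i x => ‖ℓ i ((SI 𝕜).val x)‖) (fun i x y => ?_) (w ∘ φ) K
        fun c hc => ?_
      · rw [map_add, map_sub, hℓadd, hℓsub]
        have := norm_sub_le (ℓ i ((SI 𝕜).val x) + ℓ i ((SI 𝕜).val y))
          (ℓ i ((SI 𝕜).val x) - ℓ i ((SI 𝕜).val y))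
        rw [show ℓ i ((SI 𝕜).val x) + ℓ i ((SI 𝕜).val y) -
          (ℓ i ((SI 𝕜).val x) - ℓ i ((SI 𝕜).val y)) = 2 * ℓ i ((SI 𝕜).val y) by ring, norm_mul,
          RCLike.norm_ofNat] at this
        exact this
      · set z : Y 𝕜 := ∑ l ∈ Finset.range K, c l • (w ∘ φ) l with hz
        have hzM : ‖z‖ < M + 1 := lt_of_le_of_lt (hw.comp hφm.injective _ c hc) (lt_add_one M)
        obtain ⟨s, hs1, hs2⟩ := exists_rep z j hzM
        have h2 : ∀ i, ‖ℓ i ((SI 𝕜).val z)‖ ≤ ‖ℓ i s‖ + δ / 4 := by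
          intro i
          have e1 : ‖ℓ i ((SI 𝕜).val z - s)‖ ≤ δ / 4 := by
            simp only [hℓ]
            split_ifs
            · simp only [Pi.sub_apply]
              have a1 := hs2 (res σ (p (i + 1)))
              have a2 := hs2 (res σ (q i))
              refine (norm_sub_le _ _).trans ?_
              linarith
            · simp only [Pi.sub_apply]
              have a1 := hs2 (res (β i) (q i))
              linarith
          rw [hℓsub] at e1
          have := norm_le_norm_add_norm_sub (ℓ i s) (ℓ i ((SI 𝕜).val z))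
          rw [norm_sub_rev] at this
          linarith
        calc ∑ i ∈ Finset.range K, ‖ℓ i ((SI 𝕜).val z)‖
            ≤ ∑ i ∈ Finset.range K, (‖ℓ i s‖ + δ / 4) := Finset.sum_le_sum fun i _ => h2 i
          _ = ∑ i ∈ Finset.range K, ‖ℓ i s‖ + K * (δ / 4) := by
              rw [Finset.sum_add_distrib]; simp
          _ ≤ _ := by
              refine add_le_add_left ?_ _
              rw [← Finset.sum_filter_add_sum_filter_not (Finset.range K)
                (fun i => agr (β i) σ (q i)), two_mul]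
              refine add_le_add ?_ ?_
              · calc ∑ i ∈ Finset.range K with agr (β i) σ (q i), ‖ℓ i s‖
                    = ∑ i ∈ Finset.range K with agr (β i) σ (q i),
                      ‖s (res σ (p (i + 1))) - s (res σ (q i))‖ := by
                      refine Finset.sum_congr rfl fun i hi => ?_
                      simp only [hℓ]
                      rw [if_pos (Finset.mem_filter.mp hi).2]
                  _ ≤ ∑ i ∈ Finset.range K, ‖s (res σ (p (i + 1))) - s (res σ (q i))‖ :=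
                      Finset.sum_le_sum_of_subset_of_nonneg (Finset.filter_subset _ _)
                        fun _ _ _ => norm_nonneg _
                  _ ≤ _ := (sum_pq_le (fun n => s (res σ n)) hint K).trans (hs1.var σ _)
              · calc ∑ i ∈ Finset.range K with ¬ agr (β i) σ (q i), ‖ℓ i s‖
                    = ∑ i ∈ Finset.range K with ¬ agr (β i) σ (q i),
                      ‖s (res (β i) (q i))‖ := by
                      refine Finset.sum_congr rfl fun i hi => ?_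
                      simp only [hℓ]
                      rw [if_neg (Finset.mem_filter.mp hi).2]
                  _ ≤ _ := hs1.2 σ β p q _ hint fun i hi => ⟨H2 _ _, (Finset.mem_filter.mp hi).2⟩
    have h2 : ∀ i, δ / 2 ≤ ‖ℓ i ((SI 𝕜).val ((w ∘ φ) i))‖ := by
      intro i
      have e1 : δ ≤ ‖(SI 𝕜).val (w (φ i)) (res (β i) (q i))‖ := H5 _ _
      have e2 : ‖(SI 𝕜).val (w (φ i)) (res σ (p (i + 1)))‖ < δ / 2 := H6 _ _
      simp only [hℓ, Function.comp_apply]
      split_ifs with hagr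
      · rw [res_eq_iff.mpr hagr] at e1
        have := norm_sub_norm_le ((SI 𝕜).val (w (φ i)) (res σ (q i)))
          ((SI 𝕜).val (w (φ i)) (res σ (p (i + 1))))
        rw [norm_sub_rev] at this
        linarith
      · linarith
    have h3 : K * (δ / 2) ≤ ∑ i ∈ Finset.range K, ‖ℓ i ((SI 𝕜).val ((w ∘ φ) i))‖ := by
      calc K * (δ / 2) = ∑ i ∈ Finset.range K, δ / 2 := by simp
        _ ≤ _ := Finset.sum_le_sum fun i _ => h2 i
    linarith
  obtain ⟨K, hK⟩ := exists_nat_gt (2 * ((M + 1) * (SI 𝕜).Psi j) / (δ / 4))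
  rw [div_lt_iff₀ (by positivity)] at hK
  exact absurd (key K) (not_le.mpr hK)

lemma sup_small {δ : ℝ} (hδ : 0 < δ) :
    ∀ᶠ k in atTop, ∀ t, ‖(SI 𝕜).val (w k) t‖ < δ := by
  classical
  choose m k0 hm using fun σ => local_small hw σ hδ
  obtain ⟨F, -, hF⟩ := isCompact_univ.elim_nhds_subcover (fun σ => {β : Br | agr β σ (m σ)})
    fun σ _ => agr_nhds σ (m σ)
  have h1 : ∀ᶠ k in atTop, ∀ t ∈ (finlev_node (F.sup m)).toFinset, ‖(SI 𝕜).val (w k) t‖ < δ := by
    rw [Filter.eventually_all_finset]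
    intro t _
    have := (hw.functional ((SI 𝕜).coord t)).norm
    rw [norm_zero] at this
    exact this.eventually_lt_const hδ
  filter_upwards [h1, eventually_ge_atTop (F.sup k0)] with k hk1 hk2 t
  by_cases ht : t.1 < F.sup m
  · exact hk1 t (by simpa using ht)
  · obtain ⟨β, hβ⟩ := exists_res t
    have hβF := hF (Set.mem_univ β)
    simp only [Set.mem_iUnion] at hβF
    obtain ⟨σ, hσ, hσ2⟩ := hβF
    rw [hβ]
    exact hm σ k ((Finset.le_sup (f := k0) hσ).trans hk2) β hσ2 t.1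
      ((Finset.le_sup (f := m) hσ).trans (not_lt.mp ht))

lemma N_small (j : ℕ) : Tendsto (fun k => (SI 𝕜).N j ((SI 𝕜).val (w k))) atTop (𝓝 0) := by
  rw [Metric.tendsto_atTop]
  intro ε hε
  obtain ⟨k0, hk0⟩ := eventually_atTop.mp (sup_small hw (δ := ε / (2 * 2 ^ j)) (by positivity))
  refine ⟨k0, fun k hk => ?_⟩
  rw [Real.dist_0_eq_abs, abs_of_nonneg ((SI 𝕜).N_nonneg _ _)]
  refine lt_of_le_of_lt ((SI 𝕜).N_le_sup (C := ε / (2 * 2 ^ j)) (by positivity)
    (fun t => (hk0 k hk t).le) j) ?_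
  have : (2:ℝ) ^ j * (ε / (2 * 2 ^ j)) = ε / 2 := by field_simp
  rw [this]; linarith

/-- The inner space contains no copy of `c₀`. -/
theorem noC0 : Tendsto (fun k => ‖w k‖) atTop (𝓝 0) := by
  classical
  by_contra hcon
  rw [Metric.tendsto_atTop] at hcon
  push Not at hcon
  obtain ⟨ε, hε, hcon⟩ := hcon
  have H : ∀ a k : ℕ, ∃ k' a', k ≤ k' ∧ a ≤ a' ∧
      ε ^ 2 / 4 ≤ ∑ j ∈ Finset.Ico a a', (SI 𝕜).N j ((SI 𝕜).val (w k')) ^ 2 := by
    intro a k
    have h1 : Tendsto (fun k => ∑ j ∈ Finset.range a, (SI 𝕜).N j ((SI 𝕜).val (w k)) ^ 2) atTop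
        (𝓝 (∑ j ∈ Finset.range a, (0:ℝ) ^ 2)) :=
      tendsto_finsetSum _ fun j _ => (N_small hw j).pow 2
    simp only [ne_eq, OfNat.ofNat_ne_zero, not_false_eq_true, zero_pow, Finset.sum_const_zero] at h1
    obtain ⟨k1, hk1⟩ := eventually_atTop.mp
      (h1.eventually_lt_const (show (0:ℝ) < ε ^ 2 / 4 by positivity))
    obtain ⟨k', hk', hεk⟩ := hcon (max k k1)
    rw [Real.dist_0_eq_abs, abs_of_nonneg (norm_nonneg _)] at hεk
    have h2 := ((SI 𝕜).summ (w k')).hasSum.tendsto_sum_nat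
    rw [← (SI 𝕜).norm_sq] at h2
    have h3 : ε ^ 2 / 2 < ‖w k'‖ ^ 2 := by
      have := pow_le_pow_left₀ hε.le hεk 2
      nlinarith [pow_pos hε 2]
    obtain ⟨a', ha'1, ha'2⟩ := ((h2.eventually_const_lt h3).and (eventually_ge_atTop a)).exists
    refine ⟨k', a', (le_max_left _ _).trans hk', ha'2, ?_⟩
    have h4 := hk1 k' ((le_max_right _ _).trans hk')
    rw [← Finset.sum_range_add_sum_Ico _ ha'2] at ha'1
    linarith
  choose κ A H1 H2 H3 using H
  set st : ℕ → ℕ × ℕ := fun i => Nat.rec (0, 0) (fun _ a => (A a.1 a.2, κ a.1 a.2 + 1)) i with hst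
  set a : ℕ → ℕ := fun i => (st i).1 with ha
  set φ : ℕ → ℕ := fun i => κ (st i).1 (st i).2 with hφ
  have has : ∀ i, a (i + 1) = A (st i).1 (st i).2 := fun i => rfl
  have hmono : Monotone a := monotone_nat_of_le_succ fun i => H2 _ _
  have hφm : StrictMono φ := strictMono_nat_of_lt_succ fun i => by
    have h1 : κ (st i).1 (st i).2 + 1 ≤ κ (st (i+1)).1 (st (i+1)).2 := H1 _ _
    exact h1
  have hM := hw.nonneg
  have key : ∀ K : ℕ, K * (ε ^ 2 / 4) ≤ M ^ 2 := by
    intro K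
    have h1 : ∑ i ∈ Finset.range K, ∑ j ∈ Finset.Ico (a i) (a (i + 1)),
        (SI 𝕜).N j ((SI 𝕜).val ((w ∘ φ) i)) ^ 2 ≤ M ^ 2 := by
      refine avg_range (𝕜 := 𝕜) (fun i x => ∑ j ∈ Finset.Ico (a i) (a (i + 1)),
        (SI 𝕜).N j ((SI 𝕜).val x) ^ 2) (fun i x y => ?_) (w ∘ φ) K fun c hc => ?_
      · rw [← Finset.sum_add_distrib, Finset.mul_sum]
        exact Finset.sum_le_sum fun j _ => N_avg j x y
      · set z : Y 𝕜 := ∑ l ∈ Finset.range K, c l • (w ∘ φ) l with hz
        have hzM : ‖z‖ ≤ M := hw.comp hφm.injective _ c hc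
        have h2 : ∀ K : ℕ, ∑ i ∈ Finset.range K, ∑ j ∈ Finset.Ico (a i) (a (i + 1)),
            (SI 𝕜).N j ((SI 𝕜).val z) ^ 2
            = ∑ j ∈ Finset.Ico (a 0) (a K), (SI 𝕜).N j ((SI 𝕜).val z) ^ 2 := by
          intro K
          induction K with
          | zero => simp
          | succ K ih =>
            rw [Finset.sum_range_succ, ih, Finset.sum_Ico_consecutive _ (hmono (Nat.zero_le _))
              (hmono (Nat.le_succ _))]
        rw [h2]
        exact ((SI 𝕜).sum_le_norm_sq z _).trans (pow_le_pow_left₀ (norm_nonneg _) hzM 2)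
    refine le_trans ?_ h1
    calc K * (ε ^ 2 / 4) = ∑ i ∈ Finset.range K, ε ^ 2 / 4 := by simp
      _ ≤ _ := Finset.sum_le_sum fun i _ => H3 _ _
  obtain ⟨K, hK⟩ := exists_nat_gt (M ^ 2 / (ε ^ 2 / 4))
  rw [div_lt_iff₀ (by positivity)] at hK
  exact absurd (key K) (not_le.mpr hK)

end step1

end Pool.Agent.U559.Itp
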