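import Pool.Agent.U559.Itp.InnerC

open Filter Topology

set_option linter.unusedSectionVars false

namespace Pool.Agent.U559.Itp

namespace Sys

variable {𝕜 : Type} [RCLike 𝕜] {I : Type} [DecidableEq I] {E : I → Type}
    [∀ i, NormedAddCommGroup (E i)] [∀ i, NormedSpace 𝕜 (E i)] [∀ i, FiniteDimensional 𝕜 (E i)]
    (S : Sys 𝕜 E)

/-- range of the truncation -/
noncomputable def Rg (n : ℕ) : Submodule 𝕜 S.X := LinearMap.range (S.tau n).toLinearMap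

instance (n : ℕ) : FiniteDimensional 𝕜 ↥(S.Rg n) := by
  have h1 : S.Rg n ≤ (S.finlev n).toFinset.sup fun i => LinearMap.range (S.sgl i).toLinearMap := by
    rintro x ⟨y, rfl⟩
    change S.tau n y ∈ _
    rw [tau_eq_sum]
    refine Submodule.sum_mem _ fun i hi => ?_
    exact (Finset.le_sup (f := fun i => LinearMap.range (S.sgl i).toLinearMap) hi)
      (LinearMap.mem_range_self _ _)
  exact Submodule.finiteDimensional_of_le h1

/-- truncation into its range -/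
noncomputable def pr (n : ℕ) : S.X →L[𝕜] ↥(S.Rg n) :=
  (S.tau n).codRestrict (S.Rg n) fun x => ⟨x, rfl⟩

lemma pr_coe (n : ℕ) (x : S.X) : ((S.pr n x : ↥(S.Rg n)) : S.X) = S.tau n x := rfl

lemma tau_of_mem_Rg {n : ℕ} {x : S.X} (hx : x ∈ S.Rg n) : S.tau n x = x := by
  obtain ⟨y, rfl⟩ := hx
  change S.tau n (S.tau n y) = S.tau n y
  rw [tau_tau, min_self]

lemma hat_tail (T : ↥S.X0 →L[𝕜] S.X) (n : ℕ) {ε : ℝ} (hε : 0 < ε) :
    ∃ m0, ∀ m ≥ m0, ∀ z, ‖S.tau n (S.hat T (z - S.tau m z))‖ ≤ ε * ‖z‖ := by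
  obtain ⟨m0, hm0⟩ := S.hatF_spec' (S.pr n ∘L T) hε
  refine ⟨m0, fun m hm z => ?_⟩
  have h1 := hm0 m hm z
  have h2 : ((S.hatF (S.pr n ∘L T) z : ↥(S.Rg n)) : S.X) = S.tau n (S.hat T z) := by
    apply S.val_inj
    funext i
    have e1 : Tendsto (fun m => S.val (((S.pr n ∘L T) (S.tau0 m z) : ↥(S.Rg n)) : S.X) i) atTop
        (𝓝 (S.val ((S.hatF (S.pr n ∘L T) z : ↥(S.Rg n)) : S.X) i)) :=
      ((S.coord i ∘L (S.Rg n).subtypeL).continuous.tendsto _).comp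
        (S.hatF_apply_tendsto (S.pr n ∘L T) z)
    refine tendsto_nhds_unique e1 ?_
    have e2 := S.hat_apply_tendsto T z i
    simp only [ContinuousLinearMap.comp_apply, pr_coe, val_tau, tr]
    split_ifs
    · exact e2
    · exact tendsto_const_nhds
  have h3 : ((S.hatF (S.pr n ∘L T) (S.tau m z) : ↥(S.Rg n)) : S.X) =
      (((S.pr n ∘L T) (S.tau0 m z) : ↥(S.Rg n)) : S.X) := by
    rw [← tau0_coe, hatF_coe]
  have h4 : S.tau n (S.hat T (z - S.tau m z)) =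
      ((-((S.pr n ∘L T) (S.tau0 m z) - S.hatF (S.pr n ∘L T) z) : ↥(S.Rg n)) : S.X) := by
    rw [map_sub, map_sub, ← h2]
    have h5 : S.tau n (S.hat T (S.tau m z)) = (((S.pr n ∘L T) (S.tau0 m z) : ↥(S.Rg n)) : S.X) := by
      rw [← tau0_coe S m z, hat_coe]; rfl
    rw [h5]
    simp
  rw [h4, ← Submodule.coe_norm, norm_neg]
  exact h1

end Sys

variable {𝕜 : Type} [RCLike 𝕜]

/-- The first part of an operator. -/
noncomputable def T1 (T : Y 𝕜 →L[𝕜] Y 𝕜) : Y 𝕜 →L[𝕜] Y 𝕜 :=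
  (SI 𝕜).hat (T ∘L (SI 𝕜).X0.subtypeL)

/-- The second part of an operator. -/
noncomputable def T2 (T : Y 𝕜 →L[𝕜] Y 𝕜) : Y 𝕜 →L[𝕜] Y 𝕜 := T - T1 T

lemma T1_add_T2 (T : Y 𝕜 →L[𝕜] Y 𝕜) (y : Y 𝕜) : T1 T y + T2 T y = T y := by
  simp [T2]

lemma T2_X0 (T : Y 𝕜 →L[𝕜] Y 𝕜) {x : Y 𝕜} (hx : x ∈ (SI 𝕜).X0) : T2 T x = 0 := by
  have := (SI 𝕜).hat_coe (T ∘L (SI 𝕜).X0.subtypeL) ⟨x, hx⟩
  change T x - T1 T x = 0
  unfold T1
  rw [this]
  simp

lemma T2_tau (T : Y 𝕜 →L[𝕜] Y 𝕜) (x : Y 𝕜) (m : ℕ) : T2 T x = T2 T (x - (SI 𝕜).tau m x) := by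
  rw [map_sub, T2_X0 T ((SI 𝕜).tau_mem m x), sub_zero]

/-- images of branches -/
noncomputable def vb (T : Y 𝕜 →L[𝕜] Y 𝕜) (σ : Br) : Y 𝕜 := T2 T (one σ)

lemma vb_bdd (T : Y 𝕜 →L[𝕜] Y 𝕜) (F : Finset Br) (a : Br → 𝕜) {A : ℝ} (hA : 0 ≤ A)
    (ha : ∀ σ ∈ F, ‖a σ‖ ≤ A) : ‖∑ σ ∈ F, a σ • vb T σ‖ ≤ 4 * ‖T2 T‖ * A := by
  obtain ⟨m, hm⟩ := comb_norm F a hA ha
  have h1 : ∑ σ ∈ F, a σ • vb T σ = T2 T (∑ σ ∈ F, a σ • one σ) := by
    rw [map_sum]; exact Finset.sum_congr rfl fun σ _ => by rw [map_smul]; rfl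
  rw [h1, T2_tau T _ m]
  refine (ContinuousLinearMap.le_opNorm _ _).trans ?_
  calc _ ≤ ‖T2 T‖ * (4 * A) := mul_le_mul_of_nonneg_left hm (norm_nonneg _)
    _ = _ := by ring

lemma vb_approx (T : Y 𝕜 →L[𝕜] Y 𝕜) (y : Y 𝕜) {ε : ℝ} (hε : 0 < ε) :
    ∃ F0 : Finset Br, ∀ F, F0 ⊆ F → ‖T2 T y - ∑ σ ∈ F, brl σ y • vb T σ‖ ≤ ε := by
  obtain ⟨F0, hF0⟩ := approx y (show 0 < ε / (‖T2 T‖ + 1) by positivity)
  refine ⟨F0, fun F hF => ?_⟩
  obtain ⟨m, hm⟩ := hF0 F hF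
  have h1 : T2 T y - ∑ σ ∈ F, brl σ y • vb T σ = T2 T (y - ∑ σ ∈ F, brl σ y • one σ) := by
    rw [map_sub, map_sum]
    congr 1
    exact Finset.sum_congr rfl fun σ _ => by rw [map_smul]; rfl
  rw [h1, T2_tau T _ m]
  refine (ContinuousLinearMap.le_opNorm _ _).trans ?_
  calc _ ≤ ‖T2 T‖ * (ε / (‖T2 T‖ + 1)) := mul_le_mul_of_nonneg_left hm (norm_nonneg _)
    _ ≤ (‖T2 T‖ + 1) * (ε / (‖T2 T‖ + 1)) :=
        mul_le_mul_of_nonneg_right (by linarith) (by positivity)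
    _ = ε := by field_simp

/-- tails of the family `vb T` are small, because there is no copy of `c₀` -/
lemma vb_tail (T : Y 𝕜 →L[𝕜] Y 𝕜) {δ : ℝ} (hδ : 0 < δ) :
    ∃ F0 : Finset Br, ∀ F : Finset Br, Disjoint F F0 → ∀ a : Br → 𝕜, (∀ σ ∈ F, ‖a σ‖ ≤ 1) →
      ‖∑ σ ∈ F, a σ • vb T σ‖ ≤ δ := by
  classical
  by_contra hcon
  push Not at hcon
  choose G H1 a H2 H3 using hcon
  set U : ℕ → Finset Br := fun k => Nat.rec ∅ (fun _ V => V ∪ G V) k with hU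
  have hUs : ∀ k, U (k + 1) = U k ∪ G (U k) := fun k => rfl
  set w : ℕ → Y 𝕜 := fun k => ∑ σ ∈ G (U k), a (U k) σ • vb T σ with hw
  have hrep : ∀ K (c : ℕ → 𝕜), (∀ k, ‖c k‖ ≤ 1) → ∃ b : Br → 𝕜, (∀ σ, ‖b σ‖ ≤ 1) ∧
      ∑ k ∈ Finset.range K, c k • w k = ∑ σ ∈ U K, b σ • vb T σ := by
    intro K c hc
    induction K with
    | zero => exact ⟨0, fun σ => by simp, by simp [hU]⟩
    | succ K ih =>
      obtain ⟨b, hb1, hb2⟩ := ih
      refine ⟨fun σ => if σ ∈ U K then b σ else if σ ∈ G (U K) then c K * a (U K) σ else 0,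
        fun σ => ?_, ?_⟩
      · beta_reduce
        split_ifs with h1 h2
        · exact hb1 σ
        · rw [norm_mul]
          exact mul_le_one₀ (hc K) (norm_nonneg _) (H2 _ σ h2)
        · simp
      · rw [Finset.sum_range_succ, hb2, hUs, Finset.sum_union (H1 (U K)).symm]
        congr 1
        · exact Finset.sum_congr rfl fun σ hσ => by beta_reduce; rw [if_pos hσ]
        · rw [hw, Finset.smul_sum]
          refine Finset.sum_congr rfl fun σ hσ => ?_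
          have h1 : σ ∉ U K := Finset.disjoint_left.mp (H1 (U K)) hσ
          beta_reduce
          rw [if_neg h1, if_pos hσ, smul_smul]
  have hwuc : WUC 𝕜 w (4 * ‖T2 T‖ * 1) := by
    intro F c hc
    obtain ⟨K, hK⟩ : ∃ K, F ⊆ Finset.range K := ⟨F.sup id + 1, fun k hk => by
      rw [Finset.mem_range]
      exact Nat.lt_succ_of_le (Finset.le_sup (f := id) hk)⟩
    obtain ⟨b, hb1, hb2⟩ := hrep K (fun k => if k ∈ F then c k else 0) (fun k => by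
      split_ifs
      · exact hc k
      · simp)
    have h1 : ∑ k ∈ F, c k • w k = ∑ k ∈ Finset.range K, (if k ∈ F then c k else 0) • w k := by
      rw [← Finset.sum_subset hK]
      · exact Finset.sum_congr rfl fun k hk => by rw [if_pos hk]
      · intro k _ hk
        rw [if_neg hk, zero_smul]
    rw [h1, hb2]
    exact vb_bdd T _ b zero_le_one fun σ _ => hb1 σ
  have h1 := noC0 hwuc
  obtain ⟨k, hk⟩ := (h1.eventually_lt_const hδ).exists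
  exact absurd (H3 (U k)) (not_lt.mpr hk.le)

lemma vb_tail' (T : Y 𝕜 →L[𝕜] Y 𝕜) {δ : ℝ} (hδ : 0 < δ) :
    ∃ F0 : Finset Br, ∀ F : Finset Br, Disjoint F F0 → ∀ (a : Br → 𝕜) (A : ℝ), 0 ≤ A →
      (∀ σ ∈ F, ‖a σ‖ ≤ A) → ‖∑ σ ∈ F, a σ • vb T σ‖ ≤ A * δ := by
  obtain ⟨F0, hF0⟩ := vb_tail T hδ
  refine ⟨F0, fun F hF a A hA ha => ?_⟩
  rcases hA.eq_or_lt with rfl | hA'
  · rw [Finset.sum_eq_zero fun σ hσ => by
      rw [norm_le_zero_iff.mp (ha σ hσ), zero_smul]]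
    simp
  · have h1 := hF0 F hF (fun σ => ((A⁻¹ : ℝ) : 𝕜) * a σ) (fun σ hσ => by
      rw [norm_mul, RCLike.norm_ofReal, abs_inv, abs_of_pos hA', inv_mul_le_iff₀ hA', mul_one]
      exact ha σ hσ)
    simp only [← smul_smul, ← Finset.smul_sum] at h1
    rw [norm_smul, RCLike.norm_ofReal, abs_inv, abs_of_pos hA', inv_mul_le_iff₀ hA'] at h1
    exact h1

/-- increasing exhausting sequence of finite sets of branches -/
lemma exists_Fs (T : Y 𝕜 →L[𝕜] Y 𝕜) : ∃ Fs : ℕ → Finset Br, Monotone Fs ∧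
    ∀ k, ∀ F : Finset Br, Disjoint F (Fs k) → ∀ (a : Br → 𝕜) (A : ℝ), 0 ≤ A →
      (∀ σ ∈ F, ‖a σ‖ ≤ A) → ‖∑ σ ∈ F, a σ • vb T σ‖ ≤ A * (1 / 2) ^ k := by
  classical
  choose G hG using fun k : ℕ => vb_tail' T (show (0:ℝ) < (1 / 2) ^ k by positivity)
  refine ⟨fun k => (Finset.range (k + 1)).biUnion G, fun i j hij => ?_, fun k F hF => ?_⟩
  · exact Finset.biUnion_subset_biUnion_of_subset_left _ (Finset.range_mono (by omega))
  · refine hG k F (hF.mono_right ?_)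
    exact Finset.subset_biUnion_of_mem G (Finset.mem_range.mpr (Nat.lt_succ_self k))

/-! ### nonseparability -/

lemma one_sep {σ τ : Br} (h : σ ≠ τ) : (1:ℝ) / 2 ≤ ‖(one σ : Y 𝕜) - one τ‖ := by
  classical
  obtain ⟨i, hi⟩ := Function.ne_iff.mp h
  have h1 := (SI 𝕜).coord_le (one σ - one τ) (res σ (i + 1))
  rw [map_sub, Pi.sub_apply, val_one, val_one, ind_res, ind_res, if_pos (agr_refl _ _),
    if_neg (fun h' => hi (h' i (Nat.lt_succ_self i)))] at h1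
  simp at h1
  linarith

theorem Y_nonsep : ¬ TopologicalSpace.SeparableSpace (Y 𝕜) := by
  intro hsep
  obtain ⟨D, hD1, hD2⟩ := TopologicalSpace.exists_countable_dense (Y 𝕜)
  have h1 : ∀ σ : Br, ∃ d ∈ D, dist (one σ : Y 𝕜) d < 1 / 4 := fun σ =>
    Metric.dense_iff.mp hD2 (one σ) (1 / 4) (by norm_num) |>.imp fun d hd =>
      ⟨hd.2, by rw [dist_comm]; exact Metric.mem_ball.mp hd.1⟩
  choose d hd1 hd2 using h1
  have hinj : Function.Injective (fun σ => (⟨d σ, hd1 σ⟩ : D)) := by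
    intro σ τ h
    by_contra hne
    have e1 : d σ = d τ := congrArg Subtype.val h
    have e2 := one_sep (𝕜 := 𝕜) hne
    rw [← dist_eq_norm] at e2
    have e3 := dist_triangle (one σ : Y 𝕜) (d σ) (one τ)
    have e4 := hd2 σ
    have e5 := hd2 τ
    rw [dist_comm, ← e1] at e5
    linarith
  have : Countable D := hD1.to_subtype
  have hc : Countable Br := hinj.countable
  obtain ⟨f, hf⟩ := exists_injective_nat Br
  -- Cantor
  refine Function.cantor_injective (fun s : Set ℕ => f (fun n => by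
    classical exact decide (n ∈ s))) fun s t hst => ?_
  have := hf hst
  ext n
  have h2 := congrFun this n
  simpa using h2

end Pool.Agent.U559.Itp
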