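import Pool.Agent.U559.Itp.Wv

open Filter Topology

set_option linter.unusedSectionVars false

namespace Pool.Agent.U559.Itp

variable {𝕜 : Type} [RCLike 𝕜]

lemma W_pred (a : ℕ → 𝕜) (P : ℕ → Prop) [DecidablePred P] (hP : ∀ n, P (n + 1) → P n) (N : ℕ) :
    W (fun n => if P n then a n else 0) N ≤ W a N := by
  induction N with
  | zero =>
    rw [W_zero, W_zero]
    split_ifs <;> simp
  | succ N ih =>
    rw [W_succ, W_succ]
    have h0 := W_inc a N
    refine add_le_add ih ?_
    by_cases h1 : P (N + 1)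
    · have h2 : P N := hP N h1
      simp [h1, h2]
    · by_cases h2 : P N
      · simp only [h1, h2, if_true, if_false]
        simpa using h0
      · simp only [h1, h2, if_false]
        simpa using h0

lemma W_sub (b : ℕ → 𝕜) {p : ℕ → ℕ} (hp : Monotone p) (N : ℕ) :
    W (fun n => b (p n)) N ≤ W b (p N) := by
  unfold W
  have := sum_pq_le b (p := p) (q := p) (fun i => ⟨le_rfl, hp (Nat.le_succ i)⟩) N
  linarith

/-- the reference branch -/
def br0 : Br := fun _ => false

/-- transplantation of a subsequence of a branch to the reference branch -/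
noncomputable def Rfun (σ : Br) (p : ℕ → ℕ) : (Node → 𝕜) →ₗ[𝕜] (Node → 𝕜) where
  toFun s t := ind 𝕜 br0 t * s (res σ (p t.1))
  map_add' s s' := by funext t; simp [mul_add]
  map_smul' c s := by funext t; simp; ring

lemma Rfun_apply (σ : Br) (p : ℕ → ℕ) (s : Node → 𝕜) (t : Node) :
    Rfun σ p s t = ind 𝕜 br0 t * s (res σ (p t.1)) := rfl

lemma Rfun_res (σ : Br) (p : ℕ → ℕ) (s : Node → 𝕜) (n : ℕ) :
    Rfun σ p s (res br0 n) = s (res σ (p n)) := by
  rw [Rfun_apply, ind_pos rfl, one_mul]; rfl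

lemma Rfun_norm (σ : Br) (p : ℕ → ℕ) (s : Node → 𝕜) (t : Node) :
    ‖Rfun σ p s t‖ ≤ ‖s (res σ (p t.1))‖ := by
  rw [Rfun_apply]
  by_cases h : t = res br0 t.1
  · rw [ind_pos h, one_mul]
  · rw [ind_neg h, zero_mul, norm_zero]; exact norm_nonneg _

lemma VI_R (σ : Br) {p : ℕ → ℕ} (hp : Monotone p) {s : Node → 𝕜} {C : ℝ} (h : VI s C) :
    VI (Rfun σ p s) C := by
  classical
  constructor
  · intro ρ N
    have h1 : (fun n => Rfun σ p s (res ρ n)) =
        fun n => if agr ρ br0 n then (fun n => s (res σ (p n))) n else 0 := by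
      funext n
      rw [Rfun_apply, ind_res]
      split_ifs <;> simp [res_fst]
    rw [h1]
    exact (W_pred _ _ (fun n hn => hn.mono (Nat.le_succ n)) N).trans
      ((W_sub (fun n => s (res σ n)) hp N).trans (h.1 σ _))
  · intro ρ β p' q' J hpq hJ
    refine sum_le_of_atMostOne h.nonneg J (fun i _ => ?_) fun i hi i' hi' hii => ?_
    · exact (Rfun_norm _ _ _ _).trans (h.bdd _)
    · by_contra hcon
      push Not at hcon
      rw [Rfun_apply, Rfun_apply, ind_res, ind_res] at hcon
      have h1 : agr (β i) br0 (q' i) := by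
        by_contra h; simp [h] at hcon
      have h2 : agr (β i') br0 (q' i') := by
        by_contra h; simp [h] at hcon
      have h3 : q' i ≤ p' i' := hpq.le hii
      have h4 : agr br0 ρ (q' i) :=
        (h2.mono (h3.trans (hpq i').1)).symm.trans ((hJ i' hi').1.mono h3)
      exact (hJ i hi).2 (h1.trans h4)

lemma N_R (σ : Br) {p : ℕ → ℕ} (hp : Monotone p) (j : ℕ) {x : Node → 𝕜} (hx : Sys.Adm x) :
    (SI 𝕜).N j (Rfun σ p x) ≤ (SI 𝕜).N j x := by
  refine (SI 𝕜).N_le_of_forall ((SI 𝕜).N_nonneg _ _) fun u hu => ?_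
  obtain ⟨s, h1, h2⟩ := (SI 𝕜).R_of_lt hx hu
  refine ⟨Rfun σ p s, VI_R σ hp h1, fun i => ?_⟩
  have : Rfun σ p x i - Rfun σ p s i = Rfun σ p (x - s) i := by rw [map_sub]; rfl
  rw [this]
  exact (Rfun_norm _ _ _ _).trans (h2 _)

lemma exists_R (σ : Br) {p : ℕ → ℕ} (hp : Monotone p) (y : Y 𝕜) :
    ∃ w : Y 𝕜, (SI 𝕜).val w = Rfun σ p ((SI 𝕜).val y) ∧ ‖w‖ ≤ ‖y‖ := by
  have hadm : Sys.Adm (Rfun σ p ((SI 𝕜).val y)) := by
    obtain ⟨C, hC⟩ := (SI 𝕜).adm y
    exact ⟨C, fun i => (Rfun_norm _ _ _ _).trans (hC _)⟩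
  refine (SI 𝕜).exists_mk hadm (norm_nonneg _) fun m => ?_
  refine le_trans (Finset.sum_le_sum fun j _ => ?_) ((SI 𝕜).sum_le_norm_sq y (Finset.range m))
  exact pow_le_pow_left₀ ((SI 𝕜).N_nonneg _ _) (N_R σ hp j ((SI 𝕜).adm y)) 2

/-- transplantation operator -/
noncomputable def Rmap (σ : Br) {p : ℕ → ℕ} (hp : Monotone p) : Y 𝕜 →L[𝕜] Y 𝕜 :=
  LinearMap.mkContinuous
    { toFun := fun y => (exists_R σ hp y).choose
      map_add' := fun x y => by
        apply (SI 𝕜).val_inj
        have h1 := (exists_R σ hp (x + y)).choose_spec.1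
        have h2 := (exists_R σ hp x).choose_spec.1
        have h3 := (exists_R σ hp y).choose_spec.1
        rw [h1, map_add ((SI 𝕜).val) x y, map_add (Rfun σ p), map_add ((SI 𝕜).val), h2, h3]
      map_smul' := fun c x => by
        apply (SI 𝕜).val_inj
        have h1 := (exists_R σ hp (c • x)).choose_spec.1
        have h2 := (exists_R σ hp x).choose_spec.1
        rw [h1, map_smul ((SI 𝕜).val) c x, map_smul (Rfun σ p), map_smul ((SI 𝕜).val), h2]
        rfl } 1 (fun y => by rw [one_mul]; exact (exists_R σ hp y).choose_spec.2)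

lemma Rmap_val (σ : Br) {p : ℕ → ℕ} (hp : Monotone p) (y : Y 𝕜) :
    (SI 𝕜).val (Rmap σ hp y) = Rfun σ p ((SI 𝕜).val y) := (exists_R σ hp y).choose_spec.1

lemma Rmap_norm (σ : Br) {p : ℕ → ℕ} (hp : Monotone p) : ‖(Rmap σ hp : Y 𝕜 →L[𝕜] Y 𝕜)‖ ≤ 1 :=
  LinearMap.mkContinuous_norm_le _ zero_le_one _

/-- uniform bound on the number of jumps -/
theorem jump_bound {lam : ℝ} (hlam : 0 < lam) : ∃ K0 : ℕ, ∀ y : ℕ → Y 𝕜, WV 𝕜 y 1 → ∀ (σ : Br)
    (p : ℕ → ℕ), StrictMono p → ∀ K, (∀ l < K,
      lam < ‖(SI 𝕜).val (y (p (l + 1) + 1)) (res σ (p (l + 1))) -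
        (SI 𝕜).val (y (p l + 1)) (res σ (p l))‖) → K ≤ K0 := by
  classical
  by_contra hcon
  push Not at hcon
  choose y hy σ p hp K hK2 hK using hcon
  set z : ℕ → ℕ → Y 𝕜 := fun n l => Rmap (σ n) (hp n).monotone (y n (p n l + 1)) with hz
  have hzWV : ∀ n, WV 𝕜 (z n) 1 := by
    intro n
    have h1 := ((hy n).subseq (p := fun l => p n l + 1)
      (fun a b hab => Nat.succ_le_succ ((hp n).monotone hab))).map (Rmap (σ n) (hp n).monotone)
    refine h1.mono ?_
    rw [mul_one]; exact Rmap_norm _ _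
  have hzval : ∀ n l, (SI 𝕜).val (z n l) (res br0 l) =
      (SI 𝕜).val (y n (p n l + 1)) (res (σ n) (p n l)) := by
    intro n l
    rw [hz, Rmap_val, Rfun_res]
  have hex : ∀ l, ∃ w : Y 𝕜, ‖w‖ ≤ 1 ∧ ∀ i, Tendsto (fun k => (SI 𝕜).val (z k l) i)
      (hyperfilter ℕ : Filter ℕ) (𝓝 ((SI 𝕜).val w i)) :=
    fun l => (SI 𝕜).exists_ulimX fun k => (hzWV k).bdd l
  choose w hw1 hw2 using hex
  have hwWV : WV 𝕜 w 1 := WV.ulim hzWV hw2
  have hjump : ∀ l, lam ≤ ‖(SI 𝕜).val (w (l + 1)) (res br0 (l + 1)) -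
      (SI 𝕜).val (w l) (res br0 l)‖ := by
    intro l
    refine ge_of_tendsto (((hw2 (l + 1) _).sub (hw2 l _)).norm) ?_
    have h1 : ∀ᶠ k in (hyperfilter ℕ : Filter ℕ), l ≤ k := Sys.hyper_le (eventually_ge_atTop l)
    filter_upwards [h1] with k hk
    rw [hzval, hzval]
    exact (hK2 k l (lt_of_le_of_lt hk (hK k))).le
  obtain ⟨w0, hw0⟩ := cauchySeq_tendsto_of_complete hwWV.cauchy
  have h1 : Tendsto (fun l => (SI 𝕜).val (w l) (res br0 l)) atTop (𝓝 (brl br0 w0)) := by
    have h2 : Tendsto (fun l => (SI 𝕜).val (w l) (res br0 l) - (SI 𝕜).val w0 (res br0 l)) atTop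
        (𝓝 0) := by
      refine squeeze_zero_norm (a := fun l => 2 * ‖w l - w0‖) (fun l => ?_) ?_
      · have := (SI 𝕜).coord_le (w l - w0) (res br0 l)
        rwa [map_sub, Pi.sub_apply] at this
      · have := (tendsto_iff_norm_sub_tendsto_zero.mp hw0).const_mul 2
        rwa [mul_zero] at this
    have h3 := h2.add (brl_tendsto br0 w0)
    rw [zero_add] at h3
    refine h3.congr fun l => ?_
    ring
  have h2 := ((h1.comp (tendsto_add_atTop_nat 1)).sub h1).norm
  rw [sub_self, norm_zero] at h2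
  obtain ⟨l, hl⟩ := (h2.eventually_lt_const hlam).exists
  exact absurd (hjump l) (not_le.mpr hl)

/-- greedy approximation -/
lemma greedy (g : ℕ → 𝕜) {lam B : ℝ} (hlam : 0 < lam) (hB : ∀ n, ‖g n‖ ≤ B) (K0 : ℕ)
    (hJ : ∀ p : ℕ → ℕ, StrictMono p → ∀ K, (∀ l < K, lam < ‖g (p (l + 1)) - g (p l)‖) → K ≤ K0) :
    ∃ g' : ℕ → 𝕜, (∀ n, ‖g n - g' n‖ ≤ lam) ∧ (∀ n, ‖g' n‖ ≤ B) ∧
      ∀ N, ∑ n ∈ Finset.range N, ‖g' (n + 1) - g' n‖ ≤ 2 * B * K0 := by
  classical
  have hB0 : 0 ≤ B := (norm_nonneg _).trans (hB 0)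
  set idx : ℕ → ℕ := fun n => Nat.rec 0 (fun n a => if lam < ‖g (n + 1) - g a‖ then n + 1 else a) n
    with hidx
  have hidxs : ∀ n, idx (n + 1) = if lam < ‖g (n + 1) - g (idx n)‖ then n + 1 else idx n :=
    fun n => rfl
  have hidxle : ∀ n, idx n ≤ n := by
    intro n
    induction n with
    | zero => exact le_rfl
    | succ n ih => rw [hidxs]; split_ifs <;> omega
  refine ⟨fun n => g (idx n), fun n => ?_, fun n => hB _, fun N => ?_⟩
  · cases n with
    | zero => simp [hidx, hlam.le]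
    | succ n =>
      beta_reduce
      rw [hidxs]
      split_ifs with h
      · simp [hlam.le]
      · exact not_lt.mp h
  · have key : ∃ K, ∃ p : ℕ → ℕ, StrictMono p ∧ p K = idx N ∧
        (∀ l < K, lam < ‖g (p (l + 1)) - g (p l)‖) ∧
        ∑ n ∈ Finset.range N, ‖g (idx (n + 1)) - g (idx n)‖ ≤ 2 * B * K := by
      induction N with
      | zero => exact ⟨0, id, strictMono_id, rfl, fun l hl => absurd hl (Nat.not_lt_zero l), by simp⟩
      | succ N ih =>
        obtain ⟨K, p, h1, h2, h3, h4⟩ := ih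
        by_cases hj : lam < ‖g (N + 1) - g (idx N)‖
        · refine ⟨K + 1, fun l => if l ≤ K then p l else N + 1 + (l - (K + 1)), ?_, ?_, ?_, ?_⟩
          · refine strictMono_nat_of_lt_succ fun l => ?_
            beta_reduce
            by_cases hl : l + 1 ≤ K
            · rw [if_pos hl, if_pos (by omega)]
              exact h1 (Nat.lt_succ_self l)
            · rw [if_neg hl]
              by_cases hl' : l ≤ K
              · rw [if_pos hl']
                have : l = K := by omega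
                subst this
                rw [h2]
                have := hidxle N
                omega
              · rw [if_neg hl']; omega
          · beta_reduce
            rw [if_neg (by omega), hidxs, if_pos hj]; simp
          · intro l hl
            beta_reduce
            rw [if_pos (show l ≤ K by omega)]
            by_cases hl' : l + 1 ≤ K
            · rw [if_pos hl']; exact h3 l (by omega)
            · rw [if_neg hl']
              have : l = K := by omega
              subst this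
              rw [h2]
              simpa using hj
          · rw [Finset.sum_range_succ]
            have h5 : ‖g (idx (N + 1)) - g (idx N)‖ ≤ 2 * B :=
              (norm_sub_le _ _).trans (by linarith [hB (idx (N + 1)), hB (idx N)])
            push_cast
            linarith
        · refine ⟨K, p, h1, ?_, h3, ?_⟩
          · rw [h2, hidxs, if_neg hj]
          · rw [Finset.sum_range_succ, hidxs N, if_neg hj, sub_self, norm_zero, add_zero]
            exact h4
    obtain ⟨K, p, h1, h2, h3, h4⟩ := key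
    refine h4.trans ?_
    have := hJ p h1 K h3
    exact mul_le_mul_of_nonneg_left (by exact_mod_cast this) (by positivity)

end Pool.Agent.U559.Itp
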