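import Pool.Agent.U559.Itp.Jump

open Filter Topology

set_option linter.unusedSectionVars false

namespace Pool.Agent.U559.Itp

variable {𝕜 : Type} [RCLike 𝕜]

/-- bound on the number of jumps -/
noncomputable def K0 (𝕜 : Type) [RCLike 𝕜] (lam : ℝ) : ℕ := by
  classical exact if h : 0 < lam then (jump_bound (𝕜 := 𝕜) h).choose else 0

lemma K0_spec {lam : ℝ} (h : 0 < lam) {y : ℕ → Y 𝕜} (hy : WV 𝕜 y 1) (σ : Br)
    (p : ℕ → ℕ) (hp : StrictMono p) (K : ℕ) (hK : ∀ l < K,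
      lam < ‖(SI 𝕜).val (y (p (l + 1) + 1)) (res σ (p (l + 1))) -
        (SI 𝕜).val (y (p l + 1)) (res σ (p l))‖) : K ≤ K0 𝕜 lam := by
  unfold K0
  rw [dif_pos h]
  exact (jump_bound (𝕜 := 𝕜) h).choose_spec y hy σ p hp K hK

/-- weights of the outer space -/
noncomputable def PsiO (𝕜 : Type) [RCLike 𝕜] : ℕ → ℝ
  | 0 => 1
  | j + 1 => PsiO 𝕜 j * (2 ^ (j + 1) + K0 𝕜 ((1 / 2) ^ (j + 1) / PsiO 𝕜 j))

lemma PsiO_pos (j : ℕ) : 0 < PsiO 𝕜 j := by
  induction j with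
  | zero => simp [PsiO]
  | succ j ih => rw [PsiO]; positivity

/-- fibres of the outer space -/
abbrev EO (𝕜 : Type) [RCLike 𝕜] (n : ℕ) : Type := ↥((SI 𝕜).Rg n)

/-- the outer variation predicate -/
def VO (s : ∀ n, EO 𝕜 n) (C : ℝ) : Prop :=
  ∃ y : ℕ → Y 𝕜, (∀ n, (SI 𝕜).tau n (y n) = (s n : Y 𝕜)) ∧ WV 𝕜 y C

/-- The outer system. -/
noncomputable def SO (𝕜 : Type) [RCLike 𝕜] : Sys 𝕜 (EO 𝕜) where
  lev := id
  finlev n := by simpa using Set.finite_lt_nat n
  VB := VO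
  Psi := PsiO 𝕜
  Psi0 := rfl
  PsiS j := by
    rw [PsiO, mul_comm]
    refine mul_le_mul_of_nonneg_left ?_ (PsiO_pos j).le
    simp
  mono := by
    rintro s C C' ⟨y, h1, h2⟩ hC
    exact ⟨y, h1, h2.mono hC⟩
  zero := ⟨0, fun n => by simp, WV.zero⟩
  add := by
    rintro s s' C C' ⟨y, h1, h2⟩ ⟨y', h1', h2'⟩
    refine ⟨y + y', fun n => ?_, h2.add h2'⟩
    rw [Pi.add_apply, map_add, h1, h1']; rfl
  smul := by
    rintro s C c ⟨y, h1, h2⟩
    refine ⟨c • y, fun n => ?_, h2.smul c⟩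
    rw [Pi.smul_apply, map_smul, h1]; rfl
  bdd := by
    rintro s C ⟨y, h1, h2⟩ n
    rw [Submodule.coe_norm, ← h1]
    exact ((SI 𝕜).tau_norm n _).trans (h2.bdd n)
  trunc := by
    rintro s C n ⟨y, h1, h2⟩
    refine ⟨fun k => if k < n then y k else 0, fun k => ?_, h2.trunc n⟩
    unfold tr
    beta_reduce
    by_cases hk : k < n
    · rw [if_pos hk, if_pos (show id k < n from hk), h1]
    · rw [if_neg hk, if_neg (show ¬ id k < n from hk), map_zero]; rfl
  single := by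
    intro i x
    refine ⟨fun k => if k = i then (x : Y 𝕜) else 0, fun k => ?_, WV.single i (x : Y 𝕜)⟩
    beta_reduce
    by_cases hk : k = i
    · subst hk
      rw [if_pos rfl, Pi.single_eq_same, (SI 𝕜).tau_of_mem_Rg x.2]
    · rw [if_neg hk, Pi.single_eq_of_ne hk, map_zero]; rfl
  closed := by
    intro s z C hz hs
    choose y h1 h2 using hs
    have hex : ∀ n, ∃ w : Y 𝕜, ‖w‖ ≤ C ∧ ∀ i, Tendsto (fun k => (SI 𝕜).val (y k n) i)
        (hyperfilter ℕ : Filter ℕ) (𝓝 ((SI 𝕜).val w i)) :=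
      fun n => (SI 𝕜).exists_ulimX fun k => (h2 k).bdd n
    choose w hw1 hw2 using hex
    refine ⟨w, fun n => ?_, WV.ulim h2 hw2⟩
    apply (SI 𝕜).val_inj
    funext i
    have e1 : Tendsto (fun k => (SI 𝕜).val (s k n : Y 𝕜) i) (hyperfilter ℕ : Filter ℕ)
        (𝓝 ((SI 𝕜).val (z n : Y 𝕜) i)) :=
      (((SI 𝕜).coord i ∘L ((SI 𝕜).Rg n).subtypeL).continuous.tendsto _).comp (hz n)
    refine tendsto_nhds_unique ?_ e1
    simp only [← h1, Sys.val_tau, tr]
    split_ifs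
    · exact hw2 n i
    · exact tendsto_const_nhds

/-- the outer space (with the limits) -/
abbrev XO (𝕜 : Type) [RCLike 𝕜] : Type := (SO 𝕜).X

/-! ### The limit map -/

lemma thread_cauchy (z : XO 𝕜) {ε : ℝ} (hε : 0 < ε) : ∃ n0, ∀ m ≥ n0, ∀ n ≥ m,
    ‖(SI 𝕜).tau m ((SO 𝕜).val z n : Y 𝕜) - ((SO 𝕜).val z m : Y 𝕜)‖ ≤ ε := by
  obtain ⟨j, hj⟩ := exists_pow_small (t := ‖z‖ + 1) (show 0 < ε / 3 by positivity)
  have hrep : (SO 𝕜).R j (‖z‖ + 1) ((SO 𝕜).val z) :=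
    (SO 𝕜).R_of_lt ((SO 𝕜).adm z) (((SO 𝕜).N_le_norm j z).trans_lt (lt_add_one _))
  obtain ⟨s, ⟨y, h1, h2⟩, h3⟩ := hrep
  obtain ⟨n0, hn0⟩ := Metric.cauchySeq_iff.mp h2.cauchy (ε / 3) (by positivity)
  refine ⟨n0, fun m hm n hn => ?_⟩
  have e1 : ‖(SI 𝕜).tau m (((SO 𝕜).val z n : Y 𝕜) - (s n : Y 𝕜))‖ ≤ ε / 3 := by
    refine ((SI 𝕜).tau_norm m _).trans ?_
    have := h3 n
    rw [Submodule.coe_norm] at this
    exact this.trans hj
  have e2 : ‖(SI 𝕜).tau m (s n : Y 𝕜) - (s m : Y 𝕜)‖ ≤ ε / 3 := by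
    rw [← h1, ← h1, Sys.tau_tau, min_eq_left hn, ← map_sub]
    refine ((SI 𝕜).tau_norm m _).trans ?_
    have := hn0 n (hm.le.trans hn) m hm
    rw [dist_eq_norm] at this
    exact this.le
  have e3 : ‖(s m : Y 𝕜) - ((SO 𝕜).val z m : Y 𝕜)‖ ≤ ε / 3 := by
    have := h3 m
    rw [Submodule.coe_norm] at this
    rw [norm_sub_rev]
    exact this.trans hj
  have e4 : (SI 𝕜).tau m ((SO 𝕜).val z n : Y 𝕜) - ((SO 𝕜).val z m : Y 𝕜) =
      (SI 𝕜).tau m (((SO 𝕜).val z n : Y 𝕜) - (s n : Y 𝕜)) +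
      ((SI 𝕜).tau m (s n : Y 𝕜) - (s m : Y 𝕜)) + ((s m : Y 𝕜) - ((SO 𝕜).val z m : Y 𝕜)) := by
    rw [map_sub]; abel
  rw [e4]
  calc _ ≤ _ := (norm_add_le _ _).trans (add_le_add_left (norm_add_le _ _) _)
    _ ≤ ε := by linarith

lemma coordO_le (z : XO 𝕜) (n : ℕ) : ‖((SO 𝕜).val z n : Y 𝕜)‖ ≤ 2 * ‖z‖ := by
  have := (SO 𝕜).coord_le z n
  rwa [Submodule.coe_norm] at this

lemma exists_limit (z : XO 𝕜) : ∃ y : Y 𝕜, ‖y‖ ≤ 2 * ‖z‖ ∧
    Tendsto (fun n => ((SO 𝕜).val z n : Y 𝕜) - (SI 𝕜).tau n y) atTop (𝓝 0) := by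
  obtain ⟨y, hy1, hy2⟩ := (SI 𝕜).exists_ulimX (x := fun n => ((SO 𝕜).val z n : Y 𝕜))
    (C := 2 * ‖z‖) (coordO_le z)
  refine ⟨y, hy1, ?_⟩
  rw [Metric.tendsto_atTop]
  intro ε hε
  obtain ⟨n0, hn0⟩ := thread_cauchy z (half_pos hε)
  refine ⟨n0, fun m hm => ?_⟩
  rw [dist_zero_right, norm_sub_rev]
  refine lt_of_le_of_lt ?_ (half_lt_self hε)
  refine (SI 𝕜).norm_le_of_lim' (x := fun n => (SI 𝕜).tau m ((SO 𝕜).val z n : Y 𝕜) -
    ((SO 𝕜).val z m : Y 𝕜)) ?_ fun i => ?_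
  · have : ∀ᶠ k in (hyperfilter ℕ : Filter ℕ), m ≤ k := Sys.hyper_le (eventually_ge_atTop m)
    filter_upwards [this] with k hk
    exact hn0 m hm k hk
  · simp only [map_sub, Pi.sub_apply]
    refine Tendsto.sub ?_ tendsto_const_nhds
    simp only [Sys.val_tau, tr]
    split_ifs
    · exact hy2 i
    · exact tendsto_const_nhds

lemma limit_unique {x : ℕ → Y 𝕜} {y y' : Y 𝕜}
    (h : Tendsto (fun n => x n - (SI 𝕜).tau n y) atTop (𝓝 0))
    (h' : Tendsto (fun n => x n - (SI 𝕜).tau n y') atTop (𝓝 0)) : y = y' := by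
  have h1 : Tendsto (fun n => (SI 𝕜).tau n (y' - y)) atTop (𝓝 0) := by
    have := h.sub h'
    rw [sub_zero] at this
    refine this.congr fun n => ?_
    rw [map_sub]; abel
  have h2 : y' - y = 0 := by
    apply (SI 𝕜).val_inj
    funext i
    rw [map_zero]
    have h3 := (SI 𝕜).tau_coord_tendsto (y' - y) i
    have h4 := (((SI 𝕜).coord i).continuous.tendsto _).comp h1
    rw [map_zero] at h4
    exact tendsto_nhds_unique h3 h4
  exact (sub_eq_zero.mp h2).symm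

/-- the limit map -/
noncomputable def Lmap : XO 𝕜 →L[𝕜] Y 𝕜 :=
  LinearMap.mkContinuous
    { toFun := fun z => (exists_limit z).choose
      map_add' := fun z z' => by
        have h1 := (exists_limit (z + z')).choose_spec.2
        have h2 := (exists_limit z).choose_spec.2
        have h3 := (exists_limit z').choose_spec.2
        refine limit_unique h1 ?_
        have h4 := h2.add h3
        rw [add_zero] at h4
        refine h4.congr fun n => ?_
        rw [map_add, map_add, Pi.add_apply, Submodule.coe_add]; abel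
      map_smul' := fun c z => by
        have h1 := (exists_limit (c • z)).choose_spec.2
        have h2 := (exists_limit z).choose_spec.2
        refine limit_unique h1 ?_
        have h4 := h2.const_smul c
        rw [smul_zero] at h4
        refine h4.congr fun n => ?_
        rw [RingHom.id_apply, map_smul, map_smul, Pi.smul_apply, Submodule.coe_smul, smul_sub] }
    2 (fun z => (exists_limit z).choose_spec.1)

lemma Lmap_spec (z : XO 𝕜) :
    Tendsto (fun n => ((SO 𝕜).val z n : Y 𝕜) - (SI 𝕜).tau n (Lmap z)) atTop (𝓝 0) :=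
  (exists_limit z).choose_spec.2

lemma Lmap_eq {z : XO 𝕜} {y : Y 𝕜}
    (h : Tendsto (fun n => ((SO 𝕜).val z n : Y 𝕜) - (SI 𝕜).tau n y) atTop (𝓝 0)) :
    Lmap z = y := limit_unique (Lmap_spec z) h

/-- the canonical embedding -/
lemma exists_theta (y : Y 𝕜) : ∃ w : XO 𝕜, ((SO 𝕜).val w = fun n => (SI 𝕜).pr n y) ∧
    ‖w‖ ≤ 2 * ‖y‖ := by
  have h : (SO 𝕜).VB (fun n => (SI 𝕜).pr n y) ‖y‖ :=
    ⟨fun _ => y, fun n => rfl, WV.const y⟩
  exact (SO 𝕜).exists_mk_VB (norm_nonneg _) h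

noncomputable def theta : Y 𝕜 →L[𝕜] XO 𝕜 :=
  LinearMap.mkContinuous
    { toFun := fun y => (exists_theta y).choose
      map_add' := fun x y => by
        have h1 := (exists_theta (x + y)).choose_spec.1
        have h2 := (exists_theta x).choose_spec.1
        have h3 := (exists_theta y).choose_spec.1
        apply (SO 𝕜).val_inj
        rw [map_add ((SO 𝕜).val), h1, h2, h3]
        funext n
        rw [map_add]; rfl
      map_smul' := fun c x => by
        have h1 := (exists_theta (c • x)).choose_spec.1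
        have h2 := (exists_theta x).choose_spec.1
        apply (SO 𝕜).val_inj
        rw [map_smul ((SO 𝕜).val), h1, h2]
        funext n
        rw [map_smul]; rfl } 2 (fun y => (exists_theta y).choose_spec.2)

lemma theta_val (y : Y 𝕜) (n : ℕ) : (((SO 𝕜).val (theta y) n : EO 𝕜 n) : Y 𝕜) = (SI 𝕜).tau n y := by
  have := (exists_theta y).choose_spec.1
  have h2 := congrFun this n
  exact congrArg Subtype.val h2

lemma Lmap_theta (y : Y 𝕜) : Lmap (theta y) = y :=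
  Lmap_eq (by simp only [theta_val, sub_self]; exact tendsto_const_nhds)

lemma mem_X0_iff {z : XO 𝕜} : z ∈ (SO 𝕜).X0 ↔ Lmap z = 0 := by
  constructor
  · intro h
    refine Lmap_eq ?_
    simp only [map_zero, sub_zero]
    rw [Metric.tendsto_atTop]
    intro ε hε
    obtain ⟨n, hn⟩ := (SO 𝕜).small_of_mem_X0 h (half_pos hε)
    refine ⟨n, fun k hk => ?_⟩
    rw [dist_zero_right]
    have := hn k hk
    rw [Submodule.coe_norm] at this
    linarith
  · intro h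
    refine (SO 𝕜).mem_X0_of_small fun ε hε => ?_
    have h1 := Lmap_spec z
    rw [h] at h1
    obtain ⟨n, hn⟩ := Metric.tendsto_atTop.mp h1 ε hε
    refine ⟨n, fun k hk => ?_⟩
    have := hn k hk
    rw [dist_zero_right, map_zero, sub_zero] at this
    rw [Submodule.coe_norm]
    exact this.le

/-- The homomorphism. -/
noncomputable def psi : (↥(SO 𝕜).X0 →L[𝕜] ↥(SO 𝕜).X0) →ₐ[𝕜] (Y 𝕜 →L[𝕜] Y 𝕜) :=
  AlgHom.ofLinearMap
    { toFun := fun T => Lmap ∘L (SO 𝕜).hat0 T ∘L theta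
      map_add' := fun S T => by
        have h : (SO 𝕜).hat0 (S + T) = (SO 𝕜).hat0 S + (SO 𝕜).hat0 T := by
          unfold Sys.hat0
          rw [← (SO 𝕜).hat_add]
          congr 1
        rw [h]
        ext y
        simp
      map_smul' := fun c T => by
        have h : (SO 𝕜).hat0 (c • T) = c • (SO 𝕜).hat0 T := by
          unfold Sys.hat0
          rw [← (SO 𝕜).hat_smul]
          congr 1
        rw [h]
        ext y
        simp }
    (by
      change Lmap ∘L (SO 𝕜).hat0 (ContinuousLinearMap.id 𝕜 _) ∘L theta = ContinuousLinearMap.id 𝕜 _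
      rw [(SO 𝕜).hat0_id]
      ext y
      simp [Lmap_theta])
    (by
      intro S T
      change Lmap ∘L (SO 𝕜).hat0 (S ∘L T) ∘L theta =
        (Lmap ∘L (SO 𝕜).hat0 S ∘L theta) ∘L (Lmap ∘L (SO 𝕜).hat0 T ∘L theta)
      rw [(SO 𝕜).hat0_mul]
      ext1 y
      simp only [ContinuousLinearMap.comp_apply]
      set z := (SO 𝕜).hat0 T (theta y) with hz
      have h1 : z - theta (Lmap z) ∈ (SO 𝕜).X0 := by
        rw [mem_X0_iff, map_sub, Lmap_theta, sub_self]
      have h2 : Lmap ((SO 𝕜).hat0 S (z - theta (Lmap z))) = 0 := by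
        have h3 := (SO 𝕜).hat0_coe S ⟨_, h1⟩
        rw [← mem_X0_iff]
        change (SO 𝕜).hat0 S (z - theta (Lmap z)) = _ at h3
        rw [h3]
        exact Subtype.mem _
      rw [map_sub, map_sub, sub_eq_zero] at h2
      exact h2)

lemma psi_apply (T : ↥(SO 𝕜).X0 →L[𝕜] ↥(SO 𝕜).X0) (y : Y 𝕜) :
    psi T y = Lmap ((SO 𝕜).hat0 T (theta y)) := rfl

end Pool.Agent.U559.Itp
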