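import Pool.Agent.U559.Itp.Basic

open Filter Topology

set_option linter.unusedSectionVars false

namespace Pool.Agent.U559.Itp

variable {𝕜 : Type} [RCLike 𝕜] {I : Type} [DecidableEq I] {E : I → Type}
    [∀ i, NormedAddCommGroup (E i)] [∀ i, NormedSpace 𝕜 (E i)]

namespace Sys

variable (S : Sys 𝕜 E)

/-- submodule of elements with square summable gauges -/
def Sp : Submodule 𝕜 (∀ i, E i) where
  carrier := {x | Adm x ∧ Summable fun j => S.N j x ^ 2}
  add_mem' := by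
    rintro x y ⟨hx, hx2⟩ ⟨hy, hy2⟩
    refine ⟨hx.add hy, Summable.of_nonneg_of_le (fun j => sq_nonneg _) (fun j => ?_)
      ((hx2.mul_left 2).add (hy2.mul_left 2))⟩
    have h1 := S.N_add (j := j) hx hy
    have h2 := S.N_nonneg j x
    have h3 := S.N_nonneg j y
    have h4 := S.N_nonneg j (x + y)
    nlinarith [sq_nonneg (S.N j x - S.N j y)]
  zero_mem' := by
    refine ⟨Adm.zero, ?_⟩
    simp [S.N_zero, summable_zero]
  smul_mem' := by
    rintro c x ⟨hx, hx2⟩
    refine ⟨hx.smul c, ?_⟩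
    simp only [S.N_smul c hx, mul_pow]
    exact hx2.mul_left _

/-- The interpolation space. -/
def X : Type := ↥S.Sp

instance : AddCommGroup S.X := inferInstanceAs (AddCommGroup ↥S.Sp)
instance : Module 𝕜 S.X := inferInstanceAs (Module 𝕜 ↥S.Sp)

/-- underlying function -/
def val : S.X →ₗ[𝕜] (∀ i, E i) := S.Sp.subtype

lemma val_inj : Function.Injective S.val := Subtype.val_injective

lemma adm (x : S.X) : Adm (S.val x) := x.2.1

lemma summ (x : S.X) : Summable fun j => S.N j (S.val x) ^ 2 := x.2.2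

noncomputable instance : Norm S.X := ⟨fun x => Real.sqrt (∑' j, S.N j (S.val x) ^ 2)⟩

lemma norm_def (x : S.X) : ‖x‖ = Real.sqrt (∑' j, S.N j (S.val x) ^ 2) := rfl

lemma norm_sq (x : S.X) : ‖x‖ ^ 2 = ∑' j, S.N j (S.val x) ^ 2 := by
  rw [norm_def, Real.sq_sqrt (tsum_nonneg fun j => sq_nonneg _)]

lemma norm_nonneg' (x : S.X) : 0 ≤ ‖x‖ := Real.sqrt_nonneg _

lemma sum_le_norm_sq (x : S.X) (s : Finset ℕ) : ∑ j ∈ s, S.N j (S.val x) ^ 2 ≤ ‖x‖ ^ 2 := by
  rw [S.norm_sq]
  exact (S.summ x).sum_le_tsum _ fun j _ => sq_nonneg _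

lemma N_le_norm (j : ℕ) (x : S.X) : S.N j (S.val x) ≤ ‖x‖ := by
  have h := S.sum_le_norm_sq x {j}
  rw [Finset.sum_singleton] at h
  exact abs_le_of_sq_le_sq' h (S.norm_nonneg' x) |>.2

lemma norm_le_of {x : S.X} {C : ℝ} (hC : 0 ≤ C)
    (h : ∀ n, ∑ j ∈ Finset.range n, S.N j (S.val x) ^ 2 ≤ C ^ 2) : ‖x‖ ≤ C := by
  rw [norm_def]
  refine Real.sqrt_le_iff.mpr ⟨hC, ?_⟩
  exact (S.summ x).tsum_le_of_sum_range_le h

lemma core : NormedSpace.Core 𝕜 S.X where
  norm_nonneg := S.norm_nonneg'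
  norm_smul c x := by
    rw [norm_def, norm_def, map_smul]
    simp only [S.N_smul c (S.adm x), mul_pow]
    rw [tsum_mul_left, Real.sqrt_mul (sq_nonneg _), Real.sqrt_sq (norm_nonneg _)]
  norm_triangle x y := by
    have hx0 := S.norm_nonneg' x
    have hy0 := S.norm_nonneg' y
    refine S.norm_le_of (add_nonneg hx0 hy0) fun n => ?_
    have hx := S.sum_le_norm_sq x (Finset.range n)
    have hy := S.sum_le_norm_sq y (Finset.range n)
    have hcs := Finset.sum_mul_sq_le_sq_mul_sq (Finset.range n) (fun j => S.N j (S.val x))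
      (fun j => S.N j (S.val y))
    have hxy : ∑ j ∈ Finset.range n, S.N j (S.val x) * S.N j (S.val y) ≤ ‖x‖ * ‖y‖ := by
      refine le_of_sq_le_sq ?_ (mul_nonneg hx0 hy0)
      refine hcs.trans ?_
      rw [mul_pow]
      exact mul_le_mul hx hy (Finset.sum_nonneg fun j _ => sq_nonneg _) (sq_nonneg _)
    calc ∑ j ∈ Finset.range n, S.N j (S.val (x + y)) ^ 2
        ≤ ∑ j ∈ Finset.range n, (S.N j (S.val x) + S.N j (S.val y)) ^ 2 := by
          refine Finset.sum_le_sum fun j _ => ?_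
          rw [map_add]
          exact pow_le_pow_left₀ (S.N_nonneg _ _) (S.N_add (S.adm x) (S.adm y)) 2
      _ = ∑ j ∈ Finset.range n, S.N j (S.val x) ^ 2
          + 2 * ∑ j ∈ Finset.range n, S.N j (S.val x) * S.N j (S.val y)
          + ∑ j ∈ Finset.range n, S.N j (S.val y) ^ 2 := by
          rw [Finset.mul_sum, ← Finset.sum_add_distrib, ← Finset.sum_add_distrib]
          exact Finset.sum_congr rfl fun j _ => by ring
      _ ≤ ‖x‖ ^ 2 + 2 * (‖x‖ * ‖y‖) + ‖y‖ ^ 2 := by linarith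
      _ = (‖x‖ + ‖y‖) ^ 2 := by ring
  norm_eq_zero_iff x := by
    constructor
    · intro h
      apply S.val_inj
      rw [map_zero]
      funext i
      have h1 := S.sup_le (S.adm x) i
      have h2 := S.N_le_norm 0 x
      rw [h] at h2
      have h3 := norm_nonneg (S.val x i)
      exact norm_eq_zero.mp (by linarith)
    · rintro rfl
      rw [norm_def, map_zero]
      simp [S.N_zero]

noncomputable instance : NormedAddCommGroup S.X := NormedAddCommGroup.ofCore S.core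
noncomputable instance : NormedSpace 𝕜 S.X := NormedSpace.ofCore S.core

lemma coord_le (x : S.X) (i : I) : ‖S.val x i‖ ≤ 2 * ‖x‖ :=
  (S.sup_le (S.adm x) i).trans (by linarith [S.N_le_norm 0 x])

/-- constructor -/
lemma exists_mk {x : ∀ i, E i} (hx : Adm x) {C : ℝ} (hC : 0 ≤ C)
    (h : ∀ n, ∑ j ∈ Finset.range n, S.N j x ^ 2 ≤ C ^ 2) : ∃ w : S.X, S.val w = x ∧ ‖w‖ ≤ C := by
  have hs : Summable fun j => S.N j x ^ 2 :=
    summable_of_sum_range_le (fun _ => sq_nonneg _) h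
  exact ⟨⟨x, hx, hs⟩, rfl, S.norm_le_of hC h⟩

lemma sum_four (n : ℕ) : ∑ j ∈ Finset.range n, ((1:ℝ) / 4) ^ j ≤ 4 / 3 := by
  have h := (summable_geometric_of_lt_one (r := (1:ℝ) / 4) (by norm_num) (by norm_num)).sum_le_tsum
    (Finset.range n) (fun j _ => by positivity)
  rw [tsum_geometric_of_lt_one (by norm_num) (by norm_num)] at h
  norm_num at h ⊢
  exact h

lemma exists_mk_VB {s : ∀ i, E i} {C : ℝ} (hC : 0 ≤ C) (h : S.VB s C) :
    ∃ w : S.X, S.val w = s ∧ ‖w‖ ≤ 2 * C := by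
  refine S.exists_mk ⟨C, S.bdd h⟩ (by positivity) fun n => ?_
  calc ∑ j ∈ Finset.range n, S.N j s ^ 2 ≤ ∑ j ∈ Finset.range n, C ^ 2 * ((1:ℝ) / 4) ^ j := by
        refine Finset.sum_le_sum fun j _ => ?_
        have h1 := S.N_VB (j := j) hC h
        have h2 : C / S.Psi j ≤ C * (1 / 2) ^ j := by
          rw [div_eq_mul_inv, one_div, inv_pow]
          exact mul_le_mul_of_nonneg_left (inv_anti₀ (by positivity) (S.Psi_ge j)) hC
        calc S.N j s ^ 2 ≤ (C * (1 / 2) ^ j) ^ 2 :=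
              pow_le_pow_left₀ (S.N_nonneg _ _) (h1.trans h2) 2
          _ = C ^ 2 * ((1:ℝ) / 4) ^ j := by
              rw [mul_pow, ← pow_mul, mul_comm j 2, pow_mul]; norm_num
    _ = C ^ 2 * ∑ j ∈ Finset.range n, ((1:ℝ) / 4) ^ j := by rw [Finset.mul_sum]
    _ ≤ C ^ 2 * (4 / 3) := mul_le_mul_of_nonneg_left (sum_four n) (sq_nonneg _)
    _ ≤ (2 * C) ^ 2 := by nlinarith [sq_nonneg C]

lemma exists_tr (n : ℕ) (x : S.X) : ∃ w : S.X, S.val w = tr S.lev n (S.val x) ∧ ‖w‖ ≤ ‖x‖ := by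
  refine S.exists_mk ((S.adm x).tr _ _) (norm_nonneg _) fun m => ?_
  refine le_trans (Finset.sum_le_sum fun j _ => ?_) (S.sum_le_norm_sq x (Finset.range m))
  exact pow_le_pow_left₀ (S.N_nonneg _ _) (S.N_tr (S.adm x) n) 2

lemma tr_mem (n : ℕ) (x : S.X) : tr S.lev n (S.val x) ∈ S.Sp := by
  obtain ⟨w, hw, -⟩ := S.exists_tr n x
  rw [← hw]; exact w.2

/-- truncation operator -/
noncomputable def tau (n : ℕ) : S.X →L[𝕜] S.X :=
  LinearMap.mkContinuous
    { toFun := fun x => (⟨tr S.lev n (S.val x), S.tr_mem n x⟩ : ↥S.Sp)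
      map_add' := fun x y => by
        apply S.val_inj
        change tr S.lev n (S.val (x + y)) = tr S.lev n (S.val x) + tr S.lev n (S.val y)
        funext i
        simp only [tr, map_add, Pi.add_apply]
        split_ifs <;> simp
      map_smul' := fun c x => by
        apply S.val_inj
        change tr S.lev n (S.val (c • x)) = c • tr S.lev n (S.val x)
        funext i
        simp only [tr, map_smul, Pi.smul_apply]
        split_ifs <;> simp } 1 (fun x => by
          obtain ⟨w, hw, hw2⟩ := S.exists_tr n x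
          rw [one_mul]
          have : w = (⟨tr S.lev n (S.val x), S.tr_mem n x⟩ : ↥S.Sp) := S.val_inj hw
          exact le_of_eq_of_le (congrArg (norm (E := S.X)) this.symm) hw2)

lemma val_tau (n : ℕ) (x : S.X) : S.val (S.tau n x) = tr S.lev n (S.val x) := rfl

lemma val_tau_lt {n : ℕ} {x : S.X} {i : I} (h : S.lev i < n) :
    S.val (S.tau n x) i = S.val x i := by rw [val_tau]; simp [tr, h]

lemma val_tau_ge {n : ℕ} {x : S.X} {i : I} (h : n ≤ S.lev i) :
    S.val (S.tau n x) i = 0 := by rw [val_tau]; simp [tr, not_lt.mpr h]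

lemma tau_norm (n : ℕ) (x : S.X) : ‖S.tau n x‖ ≤ ‖x‖ := by
  obtain ⟨w, hw, hw2⟩ := S.exists_tr n x
  rwa [show w = S.tau n x from S.val_inj hw] at hw2

lemma tau_opNorm (n : ℕ) : ‖S.tau n‖ ≤ 1 :=
  ContinuousLinearMap.opNorm_le_bound _ zero_le_one fun x => by simpa using S.tau_norm n x

lemma tau_tau {m n : ℕ} (x : S.X) : S.tau m (S.tau n x) = S.tau (min m n) x := by
  apply S.val_inj
  funext i
  simp only [val_tau, tr]
  by_cases h1 : S.lev i < m <;> by_cases h2 : S.lev i < n <;> simp [h1, h2]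

/-- coordinate functional -/
noncomputable def coord (i : I) : S.X →L[𝕜] E i :=
  LinearMap.mkContinuous ((LinearMap.proj i).comp S.val) 2 fun x => S.coord_le x i

@[simp] lemma coord_apply (i : I) (x : S.X) : S.coord i x = S.val x i := rfl

section fin
variable [∀ i, FiniteDimensional 𝕜 (E i)]

/-- Fatou property -/
lemma exists_lim {x : ℕ → S.X} {z : ∀ i, E i} {C : ℝ} (hx : ∀ k, ‖x k‖ ≤ C)
    (h : ∀ i, Tendsto (fun k => S.val (x k) i) (hyperfilter ℕ : Filter ℕ) (𝓝 (z i))) :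
    ∃ w : S.X, S.val w = z ∧ ‖w‖ ≤ C := by
  have hC : 0 ≤ C := (norm_nonneg _).trans (hx 0)
  have hadm : Adm z := ⟨2 * C, fun i => le_of_tendsto (h i).norm (Eventually.of_forall fun k =>
    (S.coord_le (x k) i).trans (by linarith [hx k]))⟩
  refine S.exists_mk hadm hC fun n => ?_
  have hν : ∀ j, ∃ ν : ℝ, Tendsto (fun k => S.N j (S.val (x k))) (hyperfilter ℕ : Filter ℕ)
      (𝓝 ν) := fun j => by
    obtain ⟨z, -, hz⟩ := exists_ulim ℝ (x := fun k => S.N j (S.val (x k))) (C := C)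
      (Eventually.of_forall fun k => by
        rw [Real.norm_of_nonneg (S.N_nonneg _ _)]
        exact (S.N_le_norm j (x k)).trans (hx k))
    exact ⟨z, hz⟩
  choose ν hν using hν
  have hν0 : ∀ j, 0 ≤ ν j := fun j => ge_of_tendsto (hν j) (Eventually.of_forall fun k =>
    S.N_nonneg _ _)
  have hle : ∀ j, S.N j z ≤ ν j := fun j =>
    S.N_closed (hν0 j) (fun k => S.adm (x k)) h fun u hu => (hν j).eventually_lt_const hu
  calc ∑ j ∈ Finset.range n, S.N j z ^ 2 ≤ ∑ j ∈ Finset.range n, ν j ^ 2 :=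
        Finset.sum_le_sum fun j _ => pow_le_pow_left₀ (S.N_nonneg _ _) (hle j) 2
    _ ≤ C ^ 2 := by
        refine le_of_tendsto (tendsto_finsetSum _ fun j _ => (hν j).pow 2)
          (Eventually.of_forall fun k => ?_)
        exact (S.sum_le_norm_sq (x k) _).trans (pow_le_pow_left₀ (norm_nonneg _) (hx k) 2)

lemma exists_ulimX {x : ℕ → S.X} {C : ℝ} (hx : ∀ k, ‖x k‖ ≤ C) :
    ∃ w : S.X, ‖w‖ ≤ C ∧
      ∀ i, Tendsto (fun k => S.val (x k) i) (hyperfilter ℕ : Filter ℕ) (𝓝 (S.val w i)) := by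
  have : ∀ i, ∃ z : E i, Tendsto (fun k => S.val (x k) i) (hyperfilter ℕ : Filter ℕ) (𝓝 z) := by
    intro i
    obtain ⟨z, -, hz⟩ := exists_ulim 𝕜 (x := fun k => S.val (x k) i) (C := 2 * C)
      (Eventually.of_forall fun k => (S.coord_le (x k) i).trans (by linarith [hx k]))
    exact ⟨z, hz⟩
  choose z hz using this
  obtain ⟨w, hw, hw2⟩ := S.exists_lim hx hz
  exact ⟨w, hw2, by rw [hw]; exact hz⟩

/-- lower semicontinuity of the norm -/
lemma norm_le_of_lim {x : ℕ → S.X} {w : S.X} {C : ℝ} (hx : ∀ k, ‖x k‖ ≤ C)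
    (h : ∀ i, Tendsto (fun k => S.val (x k) i) (hyperfilter ℕ : Filter ℕ) (𝓝 (S.val w i))) :
    ‖w‖ ≤ C := by
  obtain ⟨w', hw', h2⟩ := S.exists_lim hx h
  rwa [S.val_inj hw'] at h2

lemma hyper_le : (hyperfilter ℕ : Filter ℕ) ≤ atTop := by
  rw [← Nat.cofinite_eq_atTop]; exact hyperfilter_le_cofinite

lemma norm_le_of_lim' {x : ℕ → S.X} {w : S.X} {C : ℝ}
    (hx : ∀ᶠ k in (hyperfilter ℕ : Filter ℕ), ‖x k‖ ≤ C)
    (h : ∀ i, Tendsto (fun k => S.val (x k) i) (hyperfilter ℕ : Filter ℕ) (𝓝 (S.val w i))) :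
    ‖w‖ ≤ C := by
  classical
  obtain ⟨k0, hk0⟩ := hx.exists
  refine S.norm_le_of_lim (x := fun k => if ‖x k‖ ≤ C then x k else x k0) (fun k => ?_) fun i => ?_
  · split_ifs with hk
    · exact hk
    · exact hk0
  · refine (h i).congr' ?_
    filter_upwards [hx] with k hk
    simp [hk]

instance : CompleteSpace S.X := by
  refine Metric.complete_of_cauchySeq_tendsto fun x hx => ?_
  obtain ⟨C, hC⟩ := hx.isBounded_range.exists_norm_le
  have hC' : ∀ k, ‖x k‖ ≤ C := fun k => hC _ ⟨k, rfl⟩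
  obtain ⟨w, -, hw⟩ := S.exists_ulimX hC'
  refine ⟨w, ?_⟩
  rw [Metric.tendsto_atTop]
  intro ε hε
  obtain ⟨n0, hn0⟩ := Metric.cauchySeq_iff'.mp hx (ε / 4) (by positivity)
  refine ⟨n0, fun n hn => ?_⟩
  rw [dist_eq_norm]
  have : ‖x n - w‖ ≤ ε / 2 := by
    refine S.norm_le_of_lim' (x := fun k => x n - x k) ?_ fun i => ?_
    · have : ∀ᶠ k in (hyperfilter ℕ : Filter ℕ), n0 ≤ k :=
        hyper_le (eventually_ge_atTop n0)
      filter_upwards [this] with k hk
      have h1 := hn0 n hn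
      have h2 := hn0 k hk
      rw [← dist_eq_norm]
      have h3 := dist_triangle (x n) (x n0) (x k)
      rw [dist_comm (x n0) (x k)] at h3
      linarith
    · simp only [map_sub, Pi.sub_apply]
      exact tendsto_const_nhds.sub (hw i)
  linarith

end fin

end Sys

end Pool.Agent.U559.Itp
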