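import Pool.Agent.U559.Itp.Outer

open Filter Topology

set_option linter.unusedSectionVars false

namespace Pool.Agent.U559.Itp

variable {𝕜 : Type} [RCLike 𝕜]

/-! ### Abstract lifting lemma for the outer space -/

section lift

variable (L : (∀ n, EO 𝕜 n) →ₗ[𝕜] (∀ n, EO 𝕜 n)) {A : ℝ} (hA : 0 ≤ A)
  (h1 : ∀ (x : ∀ n, EO 𝕜 n) (B : ℝ) (n : ℕ), (∀ k ≥ n, ‖x k‖ ≤ B) → ‖L x n‖ ≤ A * B)
  (h2 : ∀ s : ∀ n, EO 𝕜 n, VO s 1 → ∀ j : ℕ, ∃ s' : ∀ n, EO 𝕜 n,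
    VO s' (A * (PsiO 𝕜 (j + 1) / PsiO 𝕜 j)) ∧
      ∀ n, ‖L s n - s' n‖ ≤ A * ((1 / 2) ^ (j + 1) / PsiO 𝕜 j))

include hA h1 h2

lemma lift_R {j : ℕ} {t : ℝ} (ht : 0 < t) {x : ∀ n, EO 𝕜 n} (hx : (SO 𝕜).R j t x) :
    (SO 𝕜).R (j + 1) (3 * A * t) (L x) := by
  obtain ⟨s, hs1, hs2⟩ := hx
  change VO s (t * PsiO 𝕜 j) at hs1
  have hP := PsiO_pos (𝕜 := 𝕜) j
  have hP' := PsiO_pos (𝕜 := 𝕜) (j + 1)
  set u : ℝ := t * PsiO 𝕜 j with hu
  have hu0 : 0 < u := by positivity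
  have hs3 : VO (((u⁻¹ : ℝ) : 𝕜) • s) 1 := by
    have := (SO 𝕜).smul ((u⁻¹ : ℝ) : 𝕜) hs1
    rw [RCLike.norm_ofReal, abs_of_pos (inv_pos.mpr hu0), inv_mul_cancel₀ hu0.ne'] at this
    exact this
  obtain ⟨s', hs'1, hs'2⟩ := h2 _ hs3 j
  have hs'3 := (SO 𝕜).smul ((u : ℝ) : 𝕜) hs'1
  rw [RCLike.norm_ofReal, abs_of_pos hu0] at hs'3
  refine ⟨((u : ℝ) : 𝕜) • s', (SO 𝕜).mono hs'3 ?_, fun n => ?_⟩
  · change u * (A * (PsiO 𝕜 (j + 1) / PsiO 𝕜 j)) ≤ 3 * A * t * PsiO 𝕜 (j + 1)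
    have e1 : u * (A * (PsiO 𝕜 (j + 1) / PsiO 𝕜 j)) = A * t * PsiO 𝕜 (j + 1) := by
      rw [hu]; field_simp
    rw [e1]
    have : 0 ≤ A * t * PsiO 𝕜 (j + 1) := by positivity
    linarith
  · have e1 : L x n - (((u : ℝ) : 𝕜) • s') n = L (x - s) n +
        ((u : ℝ) : 𝕜) • (L (((u⁻¹ : ℝ) : 𝕜) • s) n - s' n) := by
      have e2 : ((u : ℝ) : 𝕜) • L (((u⁻¹ : ℝ) : 𝕜) • s) n = L s n := by
        rw [map_smul, Pi.smul_apply, smul_smul, ← RCLike.ofReal_mul, mul_inv_cancel₀ hu0.ne',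
          RCLike.ofReal_one, one_smul]
      rw [smul_sub, e2, map_sub, Pi.sub_apply, Pi.smul_apply]
      abel
    rw [e1]
    have e3 : ‖L (x - s) n‖ ≤ A * (t * (1 / 2) ^ j) := h1 _ _ n fun k _ => hs2 k
    have e4 : ‖((u : ℝ) : 𝕜) • (L (((u⁻¹ : ℝ) : 𝕜) • s) n - s' n)‖ ≤
        u * (A * ((1 / 2) ^ (j + 1) / PsiO 𝕜 j)) := by
      rw [norm_smul, RCLike.norm_ofReal, abs_of_pos hu0]
      exact mul_le_mul_of_nonneg_left (hs'2 n) hu0.le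
    have e5 : u * (A * ((1 / 2) ^ (j + 1) / PsiO 𝕜 j)) = A * t * (1 / 2) ^ (j + 1) := by
      rw [hu]; field_simp
    rw [e5] at e4
    refine (norm_add_le _ _).trans ((add_le_add e3 e4).trans (le_of_eq ?_))
    rw [pow_succ]; ring

lemma lift_adm {x : ∀ n, EO 𝕜 n} (hx : Sys.Adm x) : Sys.Adm (L x) := by
  obtain ⟨C, hC⟩ := hx
  exact ⟨A * C, fun n => h1 x C n fun k _ => hC k⟩

lemma lift_N {j : ℕ} {x : ∀ n, EO 𝕜 n} (hx : Sys.Adm x) :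
    (SO 𝕜).N (j + 1) (L x) ≤ 3 * A * (SO 𝕜).N j x := by
  have h0 := (SO 𝕜).N_nonneg j x
  refine le_of_forall_pos_le_add fun e he => ?_
  set t : ℝ := (SO 𝕜).N j x + e / (3 * A + 1) with ht
  have ht0 : 0 < t := by positivity
  have h3 := (SO 𝕜).R_of_lt hx (show (SO 𝕜).N j x < t by rw [ht]; linarith [show 0 < e / (3 * A + 1) by positivity])
  have h4 := (SO 𝕜).N_le_of_R (by positivity) (lift_R L hA h1 h2 ht0 h3)
  refine h4.trans ?_
  rw [ht, mul_add]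
  refine add_le_add le_rfl ?_
  calc 3 * A * (e / (3 * A + 1)) ≤ (3 * A + 1) * (e / (3 * A + 1)) :=
        mul_le_mul_of_nonneg_right (by linarith) (by positivity)
    _ = e := by field_simp

lemma exists_lift (x : XO 𝕜) : ∃ w : XO 𝕜, (SO 𝕜).val w = L ((SO 𝕜).val x) ∧
    ‖w‖ ≤ 4 * A * ‖x‖ := by
  have hx := (SO 𝕜).adm x
  have hN0 : (SO 𝕜).N 0 (L ((SO 𝕜).val x)) ≤ 2 * A * (SO 𝕜).N 0 ((SO 𝕜).val x) := by
    have h3 : ∀ i, ‖L ((SO 𝕜).val x) i‖ ≤ A * (2 * (SO 𝕜).N 0 ((SO 𝕜).val x)) := fun n =>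
      h1 _ _ n fun k _ => (SO 𝕜).sup_le hx k
    have h0 := (SO 𝕜).N_nonneg 0 ((SO 𝕜).val x)
    have := (SO 𝕜).N_le_sup (by positivity) h3 0
    rw [pow_zero, one_mul] at this
    linarith
  refine (SO 𝕜).exists_mk (lift_adm L hA h1 h2 hx) (by positivity) fun n => ?_
  calc ∑ j ∈ Finset.range n, (SO 𝕜).N j (L ((SO 𝕜).val x)) ^ 2
      ≤ ∑ j ∈ Finset.range (n + 1), (SO 𝕜).N j (L ((SO 𝕜).val x)) ^ 2 :=
        Finset.sum_le_sum_of_subset_of_nonneg (Finset.range_mono (Nat.le_succ n))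
          fun _ _ _ => sq_nonneg _
    _ = ∑ j ∈ Finset.range n, (SO 𝕜).N (j + 1) (L ((SO 𝕜).val x)) ^ 2
        + (SO 𝕜).N 0 (L ((SO 𝕜).val x)) ^ 2 := Finset.sum_range_succ' _ n
    _ ≤ ∑ j ∈ Finset.range n, (3 * A * (SO 𝕜).N j ((SO 𝕜).val x)) ^ 2
        + (2 * A * (SO 𝕜).N 0 ((SO 𝕜).val x)) ^ 2 := by
        refine add_le_add (Finset.sum_le_sum fun j _ => ?_) ?_
        · exact pow_le_pow_left₀ ((SO 𝕜).N_nonneg _ _) (lift_N L hA h1 h2 hx) 2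
        · exact pow_le_pow_left₀ ((SO 𝕜).N_nonneg _ _) hN0 2
    _ ≤ 9 * A ^ 2 * ‖x‖ ^ 2 + 4 * A ^ 2 * ‖x‖ ^ 2 := by
        simp only [mul_pow, ← Finset.mul_sum]
        have e1 := (SO 𝕜).sum_le_norm_sq x (Finset.range n)
        have e2 := pow_le_pow_left₀ ((SO 𝕜).N_nonneg 0 _) ((SO 𝕜).N_le_norm 0 x) 2
        have e3 := mul_le_mul_of_nonneg_left e1 (show 0 ≤ 9 * A ^ 2 by positivity)
        have e4 := mul_le_mul_of_nonneg_left e2 (show 0 ≤ 4 * A ^ 2 by positivity)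
        norm_num
        linarith
    _ ≤ (4 * A * ‖x‖) ^ 2 := by nlinarith [mul_nonneg (sq_nonneg A) (sq_nonneg ‖x‖)]

/-- the lifted operator -/
lemma exists_lift_op : ∃ U : XO 𝕜 →L[𝕜] XO 𝕜, ∀ x, (SO 𝕜).val (U x) = L ((SO 𝕜).val x) := by
  choose f hf1 hf2 using exists_lift L hA h1 h2
  refine ⟨LinearMap.mkContinuous
    { toFun := f
      map_add' := fun x y => by
        apply (SO 𝕜).val_inj
        rw [map_add, hf1, hf1, hf1, map_add, map_add]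
      map_smul' := fun c x => by
        apply (SO 𝕜).val_inj
        rw [map_smul, hf1, hf1, map_smul, map_smul]; rfl } (4 * A) hf2, fun x => hf1 x⟩

/-- the lifted operator on `X0`, together with its canonical extension -/
lemma exists_lift_X0 (h3 : ∀ n, ∃ M, ∀ x x' : ∀ n, EO 𝕜 n, (∀ k < M, x k = x' k) →
    L x n = L x' n) :
    ∃ V : ↥(SO 𝕜).X0 →L[𝕜] ↥(SO 𝕜).X0, ∀ x, (SO 𝕜).val ((SO 𝕜).hat0 V x) = L ((SO 𝕜).val x) := by
  obtain ⟨U, hU⟩ := exists_lift_op L hA h1 h2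
  have hU0 : ∀ x : ↥(SO 𝕜).X0, U x ∈ (SO 𝕜).X0 := by
    intro x
    refine (SO 𝕜).mem_X0_of_small fun ε hε => ?_
    obtain ⟨n, hn⟩ := (SO 𝕜).small_of_mem_X0 x.2 (show 0 < ε / (A + 1) by positivity)
    refine ⟨n, fun k hk => ?_⟩
    rw [hU]
    have e1 := h1 ((SO 𝕜).val x) (ε / (A + 1)) k fun i hi => hn i (le_trans hk hi)
    refine e1.trans ?_
    calc A * (ε / (A + 1)) ≤ (A + 1) * (ε / (A + 1)) :=
          mul_le_mul_of_nonneg_right (by linarith) (by positivity)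
      _ = ε := by field_simp
  refine ⟨(U ∘L (SO 𝕜).X0.subtypeL).codRestrict (SO 𝕜).X0 hU0, fun x => ?_⟩
  rw [← hU]
  congr 1
  refine (SO 𝕜).hat_unique _ (U := fun x => U x) x fun n => ?_
  obtain ⟨M, hM⟩ := h3 n
  refine tendsto_const_nhds.congr' ?_
  filter_upwards [eventually_ge_atTop M] with m hm
  change (SO 𝕜).val (U x) n = (SO 𝕜).val (U ((SO 𝕜).tau m x)) n
  rw [hU, hU]
  refine hM _ _ fun k hk => ?_
  exact ((SO 𝕜).val_tau_lt (show (SO 𝕜).lev k < m from lt_of_lt_of_le hk hm)).symm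

end lift

/-! ### The lift of an operator on the inner space -/

/-- convergence of `∑ y(σ|n) v_σ` to `T2 y` -/
lemma T2_conv (T : Y 𝕜 →L[𝕜] Y 𝕜) {Fs : ℕ → Finset Br} (hFs : Monotone Fs)
    (hFs2 : ∀ k, ∀ F : Finset Br, Disjoint F (Fs k) → ∀ (a : Br → 𝕜) (A : ℝ), 0 ≤ A →
      (∀ σ ∈ F, ‖a σ‖ ≤ A) → ‖∑ σ ∈ F, a σ • vb T σ‖ ≤ A * (1 / 2) ^ k) (y : Y 𝕜) :
    Tendsto (fun n => ∑ σ ∈ Fs n, (SI 𝕜).val y (res σ n) • vb T σ) atTop (𝓝 (T2 T y)) := by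
  classical
  rw [Metric.tendsto_atTop]
  intro ε hε
  have hy0 := norm_nonneg y
  obtain ⟨k, hk⟩ := exists_pow_small (t := 4 * ‖y‖) (show 0 < ε / 5 by positivity)
  obtain ⟨F0, hF0⟩ := vb_approx T y (show 0 < ε / 5 by positivity)
  have hfix : Tendsto (fun n => ∑ σ ∈ Fs k, ((SI 𝕜).val y (res σ n) - brl σ y) • vb T σ) atTop
      (𝓝 (∑ σ ∈ Fs k, (0 : 𝕜) • vb T σ)) := by
    refine tendsto_finsetSum _ fun σ _ => Tendsto.smul_const ?_ _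
    have := (brl_tendsto σ y).sub_const (brl σ y)
    rwa [sub_self] at this
  simp only [zero_smul, Finset.sum_const_zero] at hfix
  obtain ⟨n0, hn0⟩ := Metric.tendsto_atTop.mp hfix (ε / 5) (by positivity)
  refine ⟨max n0 k, fun n hn => ?_⟩
  have hn1 : n0 ≤ n := (le_max_left _ _).trans hn
  have hn2 : k ≤ n := (le_max_right _ _).trans hn
  have hsub : Fs k ⊆ Fs n := hFs hn2
  have a1 := hF0 (F0 ∪ Fs n) Finset.subset_union_left
  have a2 : ‖∑ σ ∈ F0 \ Fs n, brl σ y • vb T σ‖ ≤ ε / 5 := by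
    have := hFs2 n (F0 \ Fs n) Finset.sdiff_disjoint (fun σ => brl σ y) (2 * ‖y‖) (by positivity)
      fun σ _ => brl_le σ y
    refine this.trans (le_trans ?_ hk)
    have e1 : ((1:ℝ) / 2) ^ n ≤ (1 / 2) ^ k := pow_le_pow_of_le_one (by norm_num) (by norm_num) hn2
    have e2 : (0:ℝ) < (1 / 2) ^ k := by positivity
    nlinarith
  have a3 : ‖∑ σ ∈ Fs n \ Fs k, ((SI 𝕜).val y (res σ n) - brl σ y) • vb T σ‖ ≤ ε / 5 := by
    refine (hFs2 k (Fs n \ Fs k) Finset.sdiff_disjoint _ (4 * ‖y‖) (by positivity)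
      fun σ _ => ?_).trans hk
    refine (norm_sub_le _ _).trans ?_
    have := (SI 𝕜).coord_le y (res σ n)
    have := brl_le σ y
    linarith
  have a4 := hn0 n hn1
  rw [dist_zero_right] at a4
  have e1 : ∑ σ ∈ F0 ∪ Fs n, brl σ y • vb T σ =
      ∑ σ ∈ F0 \ Fs n, brl σ y • vb T σ + ∑ σ ∈ Fs n, brl σ y • vb T σ := by
    rw [← Finset.sum_union Finset.sdiff_disjoint, Finset.sdiff_union_self_eq_union]
  have e2 : ∑ σ ∈ Fs n, ((SI 𝕜).val y (res σ n) - brl σ y) • vb T σ =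
      ∑ σ ∈ Fs n \ Fs k, ((SI 𝕜).val y (res σ n) - brl σ y) • vb T σ +
      ∑ σ ∈ Fs k, ((SI 𝕜).val y (res σ n) - brl σ y) • vb T σ :=
    (Finset.sum_sdiff hsub).symm
  have e3 : ∑ σ ∈ Fs n, (SI 𝕜).val y (res σ n) • vb T σ =
      ∑ σ ∈ Fs n, ((SI 𝕜).val y (res σ n) - brl σ y) • vb T σ + ∑ σ ∈ Fs n, brl σ y • vb T σ := by
    rw [← Finset.sum_add_distrib]
    exact Finset.sum_congr rfl fun σ _ => by rw [← add_smul, sub_add_cancel]
  rw [dist_eq_norm]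
  have e4 : ∑ σ ∈ Fs n, (SI 𝕜).val y (res σ n) • vb T σ - T2 T y =
      (∑ σ ∈ Fs n \ Fs k, ((SI 𝕜).val y (res σ n) - brl σ y) • vb T σ) +
      (∑ σ ∈ Fs k, ((SI 𝕜).val y (res σ n) - brl σ y) • vb T σ) +
      -(∑ σ ∈ F0 \ Fs n, brl σ y • vb T σ) +
      -(T2 T y - ∑ σ ∈ F0 ∪ Fs n, brl σ y • vb T σ) := by
    rw [e3, e2, e1]; abel
  rw [e4]
  calc _ ≤ ‖∑ σ ∈ Fs n \ Fs k, ((SI 𝕜).val y (res σ n) - brl σ y) • vb T σ‖ +
      ‖∑ σ ∈ Fs k, ((SI 𝕜).val y (res σ n) - brl σ y) • vb T σ‖ +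
      ‖-(∑ σ ∈ F0 \ Fs n, brl σ y • vb T σ)‖ +
      ‖-(T2 T y - ∑ σ ∈ F0 ∪ Fs n, brl σ y • vb T σ)‖ := norm_add₄_le
    _ < ε := by rw [norm_neg, norm_neg]; linarith

/-- weak variation of combinations of the vectors `vb T σ` -/
lemma WV_comb (T : Y 𝕜 →L[𝕜] Y 𝕜) {Fs : ℕ → Finset Br} (hFs : Monotone Fs)
    (g : Br → ℕ → 𝕜) {D : ℝ} (hD : 0 ≤ D) (hg : ∀ σ N, W (g σ) N ≤ D) :
    WV 𝕜 (fun n => ∑ σ ∈ Fs n, g σ n • vb T σ) (4 * ‖T2 T‖ * (2 * D)) := by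
  classical
  intro N c hc
  set a : Br → ℕ → 𝕜 := fun σ n => if σ ∈ Fs n then g σ n else 0 with ha
  have haW : ∀ σ N, W (a σ) N ≤ 2 * D := by
    intro σ N
    have e1 : a σ = g σ + (-1 : 𝕜) • (fun n => if σ ∉ Fs n then g σ n else 0) := by
      funext n
      simp only [ha, Pi.add_apply, Pi.smul_apply, smul_eq_mul]
      by_cases h : σ ∈ Fs n <;> simp [h]
    rw [e1]
    refine (W_add _ _ _).trans ?_
    rw [W_smul, norm_neg, norm_one, one_mul]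
    have e2 := W_pred (g σ) (fun n => σ ∉ Fs n) (fun n hn h => hn (hFs (Nat.le_succ n) h)) N
    have e3 := hg σ N
    linarith
  have hz : ∀ n ≤ N, ∑ σ ∈ Fs n, g σ n • vb T σ = ∑ σ ∈ Fs N, a σ n • vb T σ := by
    intro n hn
    rw [← Finset.sum_subset (hFs hn) (fun σ _ hσ => by simp only [ha]; rw [if_neg hσ, zero_smul])]
    exact Finset.sum_congr rfl fun σ hσ => by simp only [ha]; rw [if_pos hσ]
  have hcomb : comb (fun n => ∑ σ ∈ Fs n, g σ n • vb T σ) c N =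
      ∑ σ ∈ Fs N, (∑ n ∈ Finset.range N, c n * (a σ (n + 1) - a σ n) + c N * a σ N) • vb T σ := by
    unfold comb
    simp only [add_smul, Finset.sum_smul, Finset.sum_add_distrib]
    rw [hz N le_rfl, Finset.smul_sum, Finset.sum_comm (s := Fs N)]
    congr 1
    · refine Finset.sum_congr rfl fun n hn => ?_
      rw [Finset.mem_range] at hn
      rw [hz n hn.le, hz (n + 1) hn, ← Finset.sum_sub_distrib, Finset.smul_sum]
      exact Finset.sum_congr rfl fun σ _ => by rw [mul_smul, sub_smul]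
    · exact Finset.sum_congr rfl fun σ _ => by rw [mul_smul]
  rw [hcomb]
  refine vb_bdd T (Fs N) _ (by positivity) fun σ _ => ?_
  refine le_trans ?_ (haW σ N)
  unfold W
  refine (norm_add_le _ _).trans (add_le_add ((norm_sum_le _ _).trans
    (Finset.sum_le_sum fun n _ => ?_)) ?_)
  · rw [norm_mul]
    exact mul_le_of_le_one_left (norm_nonneg _) (hc n)
  · rw [norm_mul]
    exact mul_le_of_le_one_left (norm_nonneg _) (hc N)

/-- Every operator on the inner space is the image of an operator on the separable space. -/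
theorem psi_surjective : Function.Surjective (psi (𝕜 := 𝕜)) := by
  classical
  intro T
  obtain ⟨Fs, hFs, hFs2⟩ := exists_Fs T
  -- the time change
  have htail : ∀ n : ℕ, ∃ m0, ∀ m ≥ m0, ∀ z, ‖(SI 𝕜).tau n (T1 T (z - (SI 𝕜).tau m z))‖ ≤
      (1 / 2) ^ n * ‖z‖ := fun n =>
    (SI 𝕜).hat_tail (T ∘L (SI 𝕜).X0.subtypeL) n (by positivity)
  choose m0 hm0 using htail
  set m : ℕ → ℕ := fun n => (Finset.range (n + 1)).sup m0 + n with hm
  have hmmono : Monotone m := by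
    refine monotone_nat_of_le_succ fun n => ?_
    have : (Finset.range (n + 1)).sup m0 ≤ (Finset.range (n + 1 + 1)).sup m0 :=
      Finset.sup_mono (Finset.range_mono (Nat.le_succ _))
    simp only [hm]; omega
  have hmge : ∀ n, n ≤ m n := fun n => Nat.le_add_left _ _
  have hmm0 : ∀ n, m0 n ≤ m n := fun n =>
    (Finset.le_sup (f := m0) (Finset.mem_range.mpr (Nat.lt_succ_self n))).trans (Nat.le_add_right _ _)
  have hmtail : ∀ n z, ‖(SI 𝕜).tau n (T1 T (z - (SI 𝕜).tau (m n) z))‖ ≤ (1 / 2) ^ n * ‖z‖ :=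
    fun n z => hm0 n (m n) (hmm0 n) z
  -- the lift
  let L : (∀ n, EO 𝕜 n) →ₗ[𝕜] (∀ n, EO 𝕜 n) :=
    { toFun := fun x n => (SI 𝕜).pr n (T1 T (x (m n) : Y 𝕜) +
        ∑ σ ∈ Fs n, (SI 𝕜).val (x (n + 1) : Y 𝕜) (res σ n) • vb T σ)
      map_add' := fun x y => by
        funext n
        simp only [Pi.add_apply, Submodule.coe_add, map_add, add_smul, Finset.sum_add_distrib]
        abel
      map_smul' := fun c x => by
        funext n
        simp only [Pi.smul_apply, Submodule.coe_smul, map_smul, RingHom.id_apply, smul_eq_mul,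
          mul_smul, ← Finset.smul_sum, ← smul_add] }
  have hL : ∀ x n, ((L x n : EO 𝕜 n) : Y 𝕜) = (SI 𝕜).tau n (T1 T (x (m n) : Y 𝕜) +
        ∑ σ ∈ Fs n, (SI 𝕜).val (x (n + 1) : Y 𝕜) (res σ n) • vb T σ) := fun x n => rfl
  set A : ℝ := ‖T1 T‖ + 4 + 64 * ‖T2 T‖ with hA
  have hA0 : 0 ≤ A := by positivity
  have hT10 := norm_nonneg (T1 T)
  have hT20 := norm_nonneg (T2 T)
  have h1 : ∀ (x : ∀ n, EO 𝕜 n) (B : ℝ) (n : ℕ), (∀ k ≥ n, ‖x k‖ ≤ B) → ‖L x n‖ ≤ A * B := by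
    intro x B n hx
    have hB : 0 ≤ B := (norm_nonneg _).trans (hx n le_rfl)
    rw [Submodule.coe_norm, hL]
    refine ((SI 𝕜).tau_norm n _).trans ((norm_add_le _ _).trans ?_)
    have e1 : ‖T1 T (x (m n) : Y 𝕜)‖ ≤ ‖T1 T‖ * B := by
      refine (ContinuousLinearMap.le_opNorm _ _).trans (mul_le_mul_of_nonneg_left ?_ hT10)
      have := hx (m n) (hmge n)
      rwa [Submodule.coe_norm] at this
    have e2 : ‖∑ σ ∈ Fs n, (SI 𝕜).val (x (n + 1) : Y 𝕜) (res σ n) • vb T σ‖ ≤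
        4 * ‖T2 T‖ * (2 * B) := by
      refine vb_bdd T (Fs n) _ (by positivity) fun σ _ => ?_
      have e3 := (SI 𝕜).coord_le (x (n + 1) : Y 𝕜) (res σ n)
      have e4 := hx (n + 1) (Nat.le_succ n)
      rw [Submodule.coe_norm] at e4
      linarith
    refine (add_le_add e1 e2).trans ?_
    rw [hA]
    nlinarith [mul_nonneg hT20 hB]
  have h2 : ∀ s : ∀ n, EO 𝕜 n, VO s 1 → ∀ j : ℕ, ∃ s' : ∀ n, EO 𝕜 n,
    VO s' (A * (PsiO 𝕜 (j + 1) / PsiO 𝕜 j)) ∧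
      ∀ n, ‖L s n - s' n‖ ≤ A * ((1 / 2) ^ (j + 1) / PsiO 𝕜 j) := by
    intro s hs j
    obtain ⟨y, hy1, hy2⟩ := hs
    have hP := PsiO_pos (𝕜 := 𝕜) j
    set lam : ℝ := (1 / 2) ^ (j + 1) / PsiO 𝕜 j with hlam
    have hlam0 : 0 < lam := by positivity
    -- greedy approximations
    have hgr : ∀ σ : Br, ∃ g' : ℕ → 𝕜,
        (∀ n, ‖(SI 𝕜).val (y (n + 1)) (res σ n) - g' n‖ ≤ lam) ∧ (∀ n, ‖g' n‖ ≤ 2) ∧
        ∀ N, ∑ n ∈ Finset.range N, ‖g' (n + 1) - g' n‖ ≤ 2 * 2 * K0 𝕜 lam := by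
      intro σ
      refine greedy (fun n => (SI 𝕜).val (y (n + 1)) (res σ n)) hlam0 (fun n => ?_) (K0 𝕜 lam)
        fun p hp K hK => K0_spec hlam0 hy2 σ p hp K hK
      have e1 := (SI 𝕜).coord_le (y (n + 1)) (res σ n)
      have e2 := hy2.bdd (n + 1)
      linarith
    choose g' hg1 hg2 hg3 using hgr
    have hW : ∀ σ N, W (g' σ) N ≤ 4 * K0 𝕜 lam + 2 := by
      intro σ N
      unfold W
      have e1 := hg3 σ N
      have e2 := hg2 σ N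
      linarith
    have hW2 := WV_comb T hFs g' (by positivity) hW
    -- the error path
    set e : ℕ → Y 𝕜 := fun n => (SI 𝕜).tau n (T1 T (y (m n) - (SI 𝕜).tau (m n) (y (m n)))) with he
    have heWV : WV 𝕜 e (4 * 1) := by
      refine WV.of_geom zero_le_one fun n => ?_
      rw [one_mul]
      refine (hmtail n (y (m n))).trans ?_
      exact mul_le_of_le_one_right (by positivity) (hy2.bdd _)
    have hT1WV : WV 𝕜 (fun n => T1 T (y (m n))) (‖T1 T‖ * 1) := (hy2.subseq hmmono).map (T1 T)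
    have hWV := (hT1WV.add (heWV.smul (-1 : 𝕜))).add hW2
    refine ⟨fun n => (SI 𝕜).pr n (T1 T (s (m n) : Y 𝕜) + ∑ σ ∈ Fs n, g' σ n • vb T σ),
      ⟨_, fun n => ?_, hWV.mono ?_⟩, fun n => ?_⟩
    · change _ = (SI 𝕜).tau n (T1 T (s (m n) : Y 𝕜) + ∑ σ ∈ Fs n, g' σ n • vb T σ)
      simp only [Pi.add_apply, neg_one_smul, Pi.neg_apply, he, map_add, map_neg]
      congr 1
      rw [Sys.tau_tau, min_self, ← hy1 (m n), map_sub, map_sub]
      abel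
    · rw [norm_neg, norm_one]
      have e1 : PsiO 𝕜 (j + 1) / PsiO 𝕜 j = 2 ^ (j + 1) + K0 𝕜 lam := by
        rw [PsiO, mul_div_cancel_left₀ _ hP.ne']
      rw [e1, hA]
      have e2 : (1:ℝ) ≤ 2 ^ j := one_le_pow₀ (by norm_num)
      have e3 : (2:ℝ) ≤ 2 ^ (j + 1) := by rw [pow_succ]; linarith
      have e4 : (0:ℝ) ≤ K0 𝕜 lam := Nat.cast_nonneg _
      nlinarith [mul_nonneg hT10 e4, mul_nonneg hT20 e4, mul_nonneg hT10 (sub_nonneg.mpr e3),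
        mul_nonneg hT20 (sub_nonneg.mpr e3)]
    · rw [Submodule.coe_norm]
      change ‖(SI 𝕜).tau n (T1 T (s (m n) : Y 𝕜) +
        ∑ σ ∈ Fs n, (SI 𝕜).val (s (n + 1) : Y 𝕜) (res σ n) • vb T σ) -
        (SI 𝕜).tau n (T1 T (s (m n) : Y 𝕜) + ∑ σ ∈ Fs n, g' σ n • vb T σ)‖ ≤ _
      rw [← map_sub, add_sub_add_left_eq_sub, ← Finset.sum_sub_distrib]
      refine ((SI 𝕜).tau_norm n _).trans ?_
      simp only [← sub_smul]
      refine (vb_bdd T (Fs n) _ hlam0.le fun σ _ => ?_).trans ?_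
      · rw [← hy1 (n + 1), (SI 𝕜).val_tau_lt (show (SI 𝕜).lev (res σ n) < n + 1 from
          Nat.lt_succ_self n)]
        exact hg1 σ n
      · refine mul_le_mul_of_nonneg_right ?_ hlam0.le
        rw [hA]; linarith
  have h3 : ∀ n, ∃ M, ∀ x x' : ∀ n, EO 𝕜 n, (∀ k < M, x k = x' k) → L x n = L x' n := by
    intro n
    refine ⟨max (m n) (n + 1) + 1, fun x x' hxx => ?_⟩
    apply Subtype.ext
    rw [hL, hL, hxx (m n) (Nat.lt_succ_of_le (le_max_left _ _)),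
      hxx (n + 1) (Nat.lt_succ_of_le (le_max_right _ _))]
  obtain ⟨V, hV⟩ := exists_lift_X0 L hA0 h1 h2 h3
  refine ⟨V, ?_⟩
  ext1 y
  rw [psi_apply]
  refine Lmap_eq ?_
  rw [hV]
  simp only [hL, theta_val]
  have hc := T2_conv T hFs hFs2 y
  have e1 : ∀ n, (SI 𝕜).tau n (T1 T ((SI 𝕜).tau (m n) y) +
        ∑ σ ∈ Fs n, (SI 𝕜).val ((SI 𝕜).tau (n + 1) y) (res σ n) • vb T σ) - (SI 𝕜).tau n (T y) =
      -(SI 𝕜).tau n (T1 T (y - (SI 𝕜).tau (m n) y)) +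
      (SI 𝕜).tau n (∑ σ ∈ Fs n, (SI 𝕜).val y (res σ n) • vb T σ - T2 T y) := by
    intro n
    have e2 : ∀ σ, (SI 𝕜).val ((SI 𝕜).tau (n + 1) y) (res σ n) = (SI 𝕜).val y (res σ n) :=
      fun σ => (SI 𝕜).val_tau_lt (Nat.lt_succ_self n)
    simp only [e2]
    rw [← T1_add_T2 T y]
    simp only [map_add, map_sub]
    abel
  simp only [e1]
  rw [← add_zero (0 : Y 𝕜)]
  refine Tendsto.add ?_ ?_
  · rw [← neg_zero]
    refine Tendsto.neg ?_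
    refine squeeze_zero_norm (a := fun n => (1 / 2) ^ n * ‖y‖) (fun n => hmtail n y) ?_
    have := (tendsto_pow_atTop_nhds_zero_of_lt_one (r := (1:ℝ) / 2) (by norm_num)
      (by norm_num)).mul_const ‖y‖
    rwa [zero_mul] at this
  · refine squeeze_zero_norm (fun n => (SI 𝕜).tau_norm n _) ?_
    exact tendsto_iff_norm_sub_tendsto_zero.mp hc

/-- The kernel is nonzero. -/
theorem psi_kernel : ∃ T : ↥(SO 𝕜).X0 →L[𝕜] ↥(SO 𝕜).X0, T ≠ 0 ∧ psi T = 0 := by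
  set T : ↥(SO 𝕜).X0 →L[𝕜] ↥(SO 𝕜).X0 := (SO 𝕜).tau0 2 ∘L (SO 𝕜).X0.subtypeL with hT
  refine ⟨T, ?_, ?_⟩
  · intro h
    have h1 : (SO 𝕜).tau 2 (theta (one br0)) = 0 := by
      have h2 : T ((SO 𝕜).tau0 2 (theta (one br0))) = 0 := by rw [h]; rfl
      have h3 := congrArg (Subtype.val) h2
      change (SO 𝕜).tau 2 ((SO 𝕜).tau 2 (theta (one br0))) = 0 at h3
      rwa [Sys.tau_tau, min_self] at h3
    have h2 := (SO 𝕜).val_tau_lt (x := theta (one br0)) (show (SO 𝕜).lev 1 < 2 from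
      Nat.lt_succ_self 1)
    rw [h1, map_zero] at h2
    have h3 := theta_val (𝕜 := 𝕜) (one br0) 1
    rw [← h2] at h3
    have h4 := congrFun (congrArg (SI 𝕜).val h3) (res br0 0)
    rw [(SI 𝕜).val_tau_lt (show (SI 𝕜).lev (res br0 0) < 1 from Nat.zero_lt_one), val_one,
      ind_pos rfl] at h4
    simp at h4
  · ext1 y
    rw [psi_apply]
    have h1 : (SO 𝕜).hat0 T (theta y) ∈ (SO 𝕜).X0 := by
      have h2 : (SO 𝕜).hat0 T (theta y) = (SO 𝕜).tau 2 (theta y) := by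
        refine (SO 𝕜).hat_unique _ (U := fun z => (SO 𝕜).tau 2 z) _ fun i => ?_
        refine tendsto_const_nhds.congr' ?_
        filter_upwards [eventually_ge_atTop 2] with k hk
        change (SO 𝕜).val ((SO 𝕜).tau 2 (theta y)) i =
          (SO 𝕜).val ((SO 𝕜).tau 2 ((SO 𝕜).tau k (theta y))) i
        rw [Sys.tau_tau, min_eq_left hk]
      rw [h2]
      exact (SO 𝕜).tau_mem 2 _
    rw [mem_X0_iff.mp h1]
    rfl

end Pool.Agent.U559.Itp
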