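import Pool.Agent.U559.Itp.InnerD

open Filter Topology

set_option linter.unusedSectionVars false

namespace Pool.Agent.U559.Itp

variable {𝕜 : Type} [RCLike 𝕜]

section WVdef

variable {Z Z' : Type} [NormedAddCommGroup Z] [NormedSpace 𝕜 Z]
  [NormedAddCommGroup Z'] [NormedSpace 𝕜 Z']

/-- the combination tested by `WV` -/
noncomputable def comb (y : ℕ → Z) (c : ℕ → 𝕜) (N : ℕ) : Z :=
  ∑ n ∈ Finset.range N, c n • (y (n + 1) - y n) + c N • y N

/-- weak (unconditional) variation bounded by `C` -/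
def WV (𝕜 : Type) [RCLike 𝕜] {Z : Type} [NormedAddCommGroup Z] [NormedSpace 𝕜 Z]
    (y : ℕ → Z) (C : ℝ) : Prop :=
  ∀ (N : ℕ) (c : ℕ → 𝕜), (∀ k, ‖c k‖ ≤ 1) → ‖comb y c N‖ ≤ C

lemma comb_add (y y' : ℕ → Z) (c : ℕ → 𝕜) (N : ℕ) :
    comb (y + y') c N = comb y c N + comb y' c N := by
  simp only [comb, Pi.add_apply, smul_add, add_sub_add_comm, Finset.sum_add_distrib]
  abel

lemma comb_smul (a : 𝕜) (y : ℕ → Z) (c : ℕ → 𝕜) (N : ℕ) :
    comb (a • y) c N = a • comb y c N := by
  simp only [comb, Pi.smul_apply, smul_add, Finset.smul_sum, ← smul_sub, smul_comm a]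

lemma comb_map (f : Z →L[𝕜] Z') (y : ℕ → Z) (c : ℕ → 𝕜) (N : ℕ) :
    comb (fun n => f (y n)) c N = f (comb y c N) := by
  simp only [comb, map_add, map_sum, map_smul, map_sub]

lemma comb_succ (y : ℕ → Z) (c : ℕ → 𝕜) (N : ℕ) :
    comb y c (N + 1) = comb y c N + (c N • (y (N + 1) - y N) + c (N + 1) • y (N + 1) - c N • y N) := by
  simp only [comb, Finset.sum_range_succ]; abel

lemma WV.mono {y : ℕ → Z} {C C' : ℝ} (h : WV 𝕜 y C) (hC : C ≤ C') : WV 𝕜 y C' :=
  fun N c hc => (h N c hc).trans hC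

lemma WV.nonneg {y : ℕ → Z} {C : ℝ} (h : WV 𝕜 y C) : 0 ≤ C :=
  (norm_nonneg _).trans (h 0 0 (fun k => by simp))

lemma WV.zero : WV 𝕜 (0 : ℕ → Z) 0 := fun N c _ => by simp [comb]

lemma WV.add {y y' : ℕ → Z} {C C' : ℝ} (h : WV 𝕜 y C) (h' : WV 𝕜 y' C') :
    WV 𝕜 (y + y') (C + C') := fun N c hc => by
  rw [comb_add]; exact (norm_add_le _ _).trans (add_le_add (h N c hc) (h' N c hc))

lemma WV.smul {y : ℕ → Z} {C : ℝ} (a : 𝕜) (h : WV 𝕜 y C) : WV 𝕜 (a • y) (‖a‖ * C) :=
  fun N c hc => by
  rw [comb_smul, norm_smul]; exact mul_le_mul_of_nonneg_left (h N c hc) (norm_nonneg _)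

lemma WV.map {y : ℕ → Z} {C : ℝ} (h : WV 𝕜 y C) (f : Z →L[𝕜] Z') :
    WV 𝕜 (fun n => f (y n)) (‖f‖ * C) := fun N c hc => by
  rw [comb_map]
  exact (f.le_opNorm _).trans (mul_le_mul_of_nonneg_left (h N c hc) (norm_nonneg _))

lemma WV.bdd {y : ℕ → Z} {C : ℝ} (h : WV 𝕜 y C) (n : ℕ) : ‖y n‖ ≤ C := by
  classical
  have := h n (fun k => if k = n then 1 else 0) (fun k => by split_ifs <;> simp)
  have h2 : comb y (fun k => if k = n then (1:𝕜) else 0) n = y n := by
    unfold comb
    beta_reduce
    rw [Finset.sum_eq_zero fun k hk => by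
      rw [if_neg (Finset.mem_range.mp hk).ne, zero_smul]]
    simp
  rwa [h2] at this

/-- the fundamental combination estimate along interlacing sequences -/
lemma WV.comb {y : ℕ → Z} {C : ℝ} (h : WV 𝕜 y C) {p q : ℕ → ℕ} (hpq : Intl p q) (K : ℕ)
    {c : ℕ → 𝕜} (hc : ∀ k, ‖c k‖ ≤ 1) {d : 𝕜} (hd : ‖d‖ ≤ 1) :
    ‖∑ i ∈ Finset.range K, c i • (y (q i) - y (p i)) + d • y (p K)‖ ≤ C := by
  classical
  have hrep : ∃ b : ℕ → 𝕜, (∀ k, ‖b k‖ ≤ 1) ∧
      ∑ i ∈ Finset.range K, c i • (y (q i) - y (p i)) =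
        ∑ n ∈ Finset.range (p K), b n • (y (n + 1) - y n) := by
    induction K with
    | zero => exact ⟨0, fun k => by simp, by simp⟩
    | succ K ih =>
      obtain ⟨b, hb1, hb2⟩ := ih
      refine ⟨fun n => if n < p K then b n else if n < q K then c K else 0, fun n => ?_, ?_⟩
      · beta_reduce
        split_ifs
        · exact hb1 n
        · exact hc K
        · simp
      · have h1 := (hpq K).1
        have h2 := (hpq K).2
        rw [Finset.sum_range_succ, hb2, ← Finset.sum_range_add_sum_Ico _ (h1.trans h2),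
          ← Finset.sum_Ico_consecutive _ h1 h2]
        have e1 : ∑ n ∈ Finset.Ico (q K) (p (K + 1)),
            (if n < p K then b n else if n < q K then c K else 0) • (y (n + 1) - y n) = 0 := by
          refine Finset.sum_eq_zero fun n hn => ?_
          rw [Finset.mem_Ico] at hn
          rw [if_neg (by omega), if_neg (by omega), zero_smul]
        have e2 : ∑ n ∈ Finset.Ico (p K) (q K),
            (if n < p K then b n else if n < q K then c K else 0) • (y (n + 1) - y n)
            = c K • (y (q K) - y (p K)) := by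
          rw [← Finset.sum_Ico_sub y h1, Finset.smul_sum]
          refine Finset.sum_congr rfl fun n hn => ?_
          rw [Finset.mem_Ico] at hn
          rw [if_neg (by omega), if_pos (by omega)]
        have e3 : ∑ n ∈ Finset.range (p K),
            (if n < p K then b n else if n < q K then c K else 0) • (y (n + 1) - y n)
            = ∑ n ∈ Finset.range (p K), b n • (y (n + 1) - y n) := by
          refine Finset.sum_congr rfl fun n hn => ?_
          rw [Finset.mem_range] at hn
          rw [if_pos hn]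
        rw [e1, e2, e3, add_zero]
  obtain ⟨b, hb1, hb2⟩ := hrep
  rw [hb2]
  have h1 := h (p K) (fun n => if n < p K then b n else d) (fun k => by
    split_ifs
    · exact hb1 k
    · exact hd)
  unfold Itp.comb at h1
  beta_reduce at h1
  have e3 : ∑ n ∈ Finset.range (p K), (if n < p K then b n else d) • (y (n + 1) - y n)
      = ∑ n ∈ Finset.range (p K), b n • (y (n + 1) - y n) := by
    refine Finset.sum_congr rfl fun n hn => ?_
    rw [Finset.mem_range] at hn
    rw [if_pos hn]
  rw [e3] at h1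
  rwa [if_neg (lt_irrefl _)] at h1

lemma WV.subseq {y : ℕ → Z} {C : ℝ} (h : WV 𝕜 y C) {p : ℕ → ℕ} (hp : Monotone p) :
    WV 𝕜 (fun n => y (p n)) C := fun N _ hc =>
  h.comb (p := p) (q := fun i => p (i + 1)) (fun i => ⟨hp (Nat.le_succ i), le_rfl⟩) N hc (hc N)

lemma WV.wuc {y : ℕ → Z} {C : ℝ} (h : WV 𝕜 y C) {p q : ℕ → ℕ} (hpq : Intl p q) :
    WUC 𝕜 (fun i => y (q i) - y (p i)) C := by
  classical
  intro F c hc
  obtain ⟨K, hK⟩ : ∃ K, F ⊆ Finset.range K := ⟨F.sup id + 1, fun k hk => by
    rw [Finset.mem_range]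
    exact Nat.lt_succ_of_le (Finset.le_sup (f := id) hk)⟩
  have h1 := h.comb hpq K (c := fun k => if k ∈ F then c k else 0) (d := 0) (fun k => by
      split_ifs
      · exact hc k
      · simp) (by simp)
  rw [zero_smul, add_zero] at h1
  rw [← Finset.sum_subset hK (fun k _ hk => by rw [if_neg hk, zero_smul])] at h1
  rwa [Finset.sum_congr rfl fun k hk => by rw [if_pos hk]] at h1

lemma WV.trunc {y : ℕ → Z} {C : ℝ} (h : WV 𝕜 y C) (m : ℕ) :
    WV 𝕜 (fun n => if n < m then y n else 0) C := by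
  classical
  intro N c hc
  by_cases hN : N < m
  · have : Itp.comb (fun n => if n < m then y n else 0) c N = Itp.comb y c N := by
      unfold Itp.comb
      beta_reduce
      rw [if_pos hN]
      congr 1
      refine Finset.sum_congr rfl fun n hn => ?_
      rw [Finset.mem_range] at hn
      rw [if_pos (by omega), if_pos (by omega)]
    rw [this]
    exact h N c hc
  · rcases Nat.eq_zero_or_pos m with rfl | hm
    · have : Itp.comb (fun n => if n < 0 then y n else 0) c N = 0 := by
        unfold Itp.comb; simp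
      rw [this, norm_zero]
      exact h.nonneg
    · obtain ⟨m, rfl⟩ : ∃ m', m = m' + 1 := ⟨m - 1, by omega⟩
      have hval : ∀ N, m + 1 ≤ N → Itp.comb (fun n => if n < m + 1 then y n else 0) c N =
          Itp.comb y (fun n => if n = m then - c m else c n) m := by
        intro N hN
        induction N, hN using Nat.le_induction with
        | base =>
          unfold Itp.comb
          rw [Finset.sum_range_succ]
          simp only [lt_irrefl, if_false, Nat.lt_succ_self, if_true, smul_zero, add_zero,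
            zero_sub, smul_neg, neg_smul]
          congr 1
          refine Finset.sum_congr rfl fun n hn => ?_
          rw [Finset.mem_range] at hn
          rw [if_pos (by omega), if_pos (by omega), if_neg (by omega)]
        | succ N hN ih =>
          rw [comb_succ, ih]
          simp only [show ¬ (N + 1 < m + 1) by omega, show ¬ (N < m + 1) by omega, if_false]
          simp
      rw [hval N (not_lt.mp hN)]
      refine h m _ fun k => ?_
      beta_reduce; split_ifs
      · rw [norm_neg]; exact hc m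
      · exact hc k

lemma WV.const (y : Z) : WV 𝕜 (fun _ => y) ‖y‖ := by
  intro N c hc
  unfold Itp.comb
  simp only [sub_self, smul_zero, Finset.sum_const_zero, zero_add, norm_smul]
  exact mul_le_of_le_one_left (norm_nonneg _) (hc N)

/-- paths with summable norms -/
lemma WV.of_geom {e : ℕ → Z} {B : ℝ} (hB : 0 ≤ B) (he : ∀ n, ‖e n‖ ≤ B * (1 / 2) ^ n) :
    WV 𝕜 e (4 * B) := by
  intro N c hc
  have hs : ∀ n : ℕ, ∑ j ∈ Finset.range n, B * ((1:ℝ) / 2) ^ j ≤ 2 * B := by
    intro n
    rw [← Finset.mul_sum]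
    have h := (summable_geometric_of_lt_one (r := (1:ℝ) / 2) (by norm_num)
      (by norm_num)).sum_le_tsum (Finset.range n) (fun j _ => by positivity)
    rw [tsum_geometric_of_lt_one (by norm_num) (by norm_num)] at h
    norm_num at h ⊢
    nlinarith
  unfold Itp.comb
  calc _ ≤ ∑ n ∈ Finset.range N, ‖c n • (e (n + 1) - e n)‖ + ‖c N • e N‖ :=
        (norm_add_le _ _).trans (add_le_add_left (norm_sum_le _ _) _)
    _ ≤ ∑ n ∈ Finset.range N, (‖e (n + 1)‖ + ‖e n‖) + ‖e N‖ := by
        refine add_le_add (Finset.sum_le_sum fun n _ => ?_) ?_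
        · rw [norm_smul]
          calc ‖c n‖ * ‖e (n + 1) - e n‖ ≤ 1 * ‖e (n + 1) - e n‖ :=
                mul_le_mul_of_nonneg_right (hc n) (norm_nonneg _)
            _ ≤ _ := by rw [one_mul]; exact norm_sub_le _ _
        · rw [norm_smul]
          exact mul_le_of_le_one_left (norm_nonneg _) (hc N)
    _ = ∑ n ∈ Finset.range N, ‖e (n + 1)‖ + ∑ n ∈ Finset.range (N + 1), ‖e n‖ := by
        rw [Finset.sum_add_distrib, Finset.sum_range_succ _ N]; ring
    _ ≤ ∑ n ∈ Finset.range (N + 1), ‖e n‖ + ∑ n ∈ Finset.range (N + 1), ‖e n‖ := by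
        refine add_le_add_left ?_ _
        rw [Finset.sum_range_succ' _ N]
        exact le_add_of_nonneg_right (norm_nonneg _)
    _ ≤ ∑ n ∈ Finset.range (N + 1), B * (1 / 2) ^ n
        + ∑ n ∈ Finset.range (N + 1), B * (1 / 2) ^ n :=
        add_le_add (Finset.sum_le_sum fun n _ => he n) (Finset.sum_le_sum fun n _ => he n)
    _ ≤ 4 * B := by linarith [hs (N + 1)]

lemma WV.single (n : ℕ) (x : Z) : WV 𝕜 (fun k => if k = n then x else 0) (2 * ‖x‖) := by
  classical
  intro N c hc
  have hle : ∀ k, ‖(if k = n then x else (0:Z))‖ = if k = n then ‖x‖ else 0 := fun k => by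
    split_ifs <;> simp
  unfold Itp.comb
  calc _ ≤ ∑ k ∈ Finset.range N, ‖c k • ((if k + 1 = n then x else (0:Z)) -
          (if k = n then x else 0))‖ + ‖c N • (if N = n then x else (0:Z))‖ :=
        (norm_add_le _ _).trans (add_le_add_left (norm_sum_le _ _) _)
    _ ≤ ∑ k ∈ Finset.range N, ((if k + 1 = n then ‖x‖ else 0) + (if k = n then ‖x‖ else 0))
        + (if N = n then ‖x‖ else 0) := by
        refine add_le_add (Finset.sum_le_sum fun k _ => ?_) ?_
        · rw [norm_smul, ← hle, ← hle]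
          calc ‖c k‖ * _ ≤ 1 * ‖(if k + 1 = n then x else (0:Z)) - (if k = n then x else 0)‖ :=
                mul_le_mul_of_nonneg_right (hc k) (norm_nonneg _)
            _ ≤ _ := by rw [one_mul]; exact norm_sub_le _ _
        · rw [norm_smul, ← hle]
          exact mul_le_of_le_one_left (norm_nonneg _) (hc N)
    _ = (∑ k ∈ Finset.range N, if k + 1 = n then ‖x‖ else 0)
          + ∑ k ∈ Finset.range (N + 1), (if k = n then ‖x‖ else 0) := by
          rw [Finset.sum_add_distrib, Finset.sum_range_succ _ N]; ring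
    _ ≤ (∑ k ∈ Finset.range (N + 1), if k = n then ‖x‖ else 0)
          + ∑ k ∈ Finset.range (N + 1), (if k = n then ‖x‖ else 0) := by
          refine add_le_add_left ?_ _
          rw [Finset.sum_range_succ' _ N]
          refine le_add_of_nonneg_right ?_
          split_ifs <;> positivity
    _ ≤ ‖x‖ + ‖x‖ := by
          have : (∑ k ∈ Finset.range (N + 1), if k = n then ‖x‖ else 0) ≤ ‖x‖ := by
            rw [Finset.sum_ite_eq']
            split_ifs <;> simp
          exact add_le_add this this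
    _ = 2 * ‖x‖ := by ring

end WVdef

/-- paths of bounded weak variation in the inner space converge in norm -/
lemma WV.cauchy {y : ℕ → Y 𝕜} {C : ℝ} (h : WV 𝕜 y C) : CauchySeq y := by
  classical
  by_contra hcon
  rw [Metric.cauchySeq_iff'] at hcon
  push Not at hcon
  obtain ⟨ε, hε, H⟩ := hcon
  choose f hf1 hf2 using H
  set p : ℕ → ℕ := fun i => Nat.rec 0 (fun _ a => f a) i with hp
  have hps : ∀ i, p (i + 1) = f (p i) := fun i => rfl
  have hint : Intl p (fun i => f (p i)) := fun i => ⟨hf1 _, le_of_eq (hps i).symm⟩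
  have h1 := noC0 (h.wuc hint)
  obtain ⟨k, hk⟩ := (h1.eventually_lt_const hε).exists
  have h2 := hf2 (p k)
  rw [dist_eq_norm] at h2
  linarith

/-- coordinatewise ultralimits of paths -/
lemma WV.ulim {y : ℕ → ℕ → Y 𝕜} {z : ℕ → Y 𝕜} {C : ℝ} (h : ∀ k, WV 𝕜 (y k) C)
    (hz : ∀ n i, Tendsto (fun k => (SI 𝕜).val (y k n) i) (hyperfilter ℕ : Filter ℕ)
      (𝓝 ((SI 𝕜).val (z n) i))) : WV 𝕜 z C := by
  intro N c hc
  refine (SI 𝕜).norm_le_of_lim (x := fun k => Itp.comb (y k) c N) (fun k => h k N c hc) fun i => ?_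
  simp only [Itp.comb, map_add, map_sum, map_smul, map_sub, Pi.add_apply, Finset.sum_apply,
    Pi.smul_apply, Pi.sub_apply]
  exact (tendsto_finsetSum _ fun n _ => ((hz _ i).sub (hz _ i)).const_smul _).add
    ((hz _ i).const_smul _)

end Pool.Agent.U559.Itp
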